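import Pool.Agent.W_fa9b59_h88.HexCov

set_option autoImplicit false

open MeasureTheory Metric Set
open scoped Pointwise RealInnerProductSpace

namespace FB88

/-- volume of the parallelepiped of a basis of the plane -/
lemma vol_parallelepiped (b : Module.Basis (Fin 2) ℝ E) :
    volume (parallelepiped b) = ENNReal.ofReal |det2 (b 0) (b 1)| := by
  set e := EuclideanSpace.basisFun (Fin 2) ℝ with he
  set M : Matrix (Fin 2) (Fin 2) ℝ := Matrix.of fun i j => b j i with hM
  set f := Matrix.toLin e.toBasis e.toBasis M with hf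
  have h1 : f '' parallelepiped e = parallelepiped b := by
    rw [image_parallelepiped]
    congr 1
    funext i
    have h2 : e i = e.toBasis i := by simp
    simp only [Function.comp]
    rw [h2, hf, Matrix.toLin_self]
    ext j
    fin_cases j <;> simp [hM, he]
  rw [← h1, Measure.addHaar_image_linearMap, OrthonormalBasis.volume_parallelepiped, mul_one,
    hf, LinearMap.det_toLin, Matrix.det_fin_two]
  congr 2
  simp only [hM, Matrix.of_apply, det2]
  ring

/-- lattice covering by a convex set containing the six points c ± p i -/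
theorem hex_lat {K : Set E} (hK : Convex ℝ K) {c p₁ p₂ p₃ : E} (h1 : c + p₁ ∈ K)
    (h2 : c + p₂ ∈ K) (h3 : c + p₃ ∈ K) (h1' : c - p₁ ∈ K) (h2' : c - p₂ ∈ K) (h3' : c - p₃ ∈ K)
    (h₁₂ : 0 ≤ det2 p₁ p₂) (h₂₃ : 0 ≤ det2 p₂ p₃) (h₁₃ : 0 ≤ det2 p₁ p₃)
    (hpos : 0 < det2 p₁ p₂ + det2 p₂ p₃ + det2 p₁ p₃) :
    ∃ b : Module.Basis (Fin 2) ℝ E,
      (∀ x : E, ∃ v ∈ Submodule.span ℤ (Set.range b), x - v ∈ K) ∧
      volume (parallelepiped b) =
        ENNReal.ofReal (det2 p₁ p₂ + det2 p₂ p₃ + det2 p₁ p₃) := by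
  have hd : det2 (p₁ + p₂) (p₂ + p₃) = det2 p₁ p₂ + det2 p₂ p₃ + det2 p₁ p₃ := by
    simp only [det2, PiLp.add_apply]
    ring
  have hli : LinearIndependent ℝ ![p₁ + p₂, p₂ + p₃] := by
    rw [LinearIndependent.pair_iff]
    intro s t hst
    have e0 : s * (p₁ + p₂) 0 + t * (p₂ + p₃) 0 = 0 := by
      have := congrArg (fun z : E => z 0) hst
      simpa [mul_add] using this
    have e1 : s * (p₁ + p₂) 1 + t * (p₂ + p₃) 1 = 0 := by
      have := congrArg (fun z : E => z 1) hst
      simpa [mul_add] using this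
    have hne : det2 (p₁ + p₂) (p₂ + p₃) ≠ 0 := by
      rw [hd]
      exact hpos.ne'
    constructor
    · have : s * det2 (p₁ + p₂) (p₂ + p₃) = 0 := by
        unfold det2
        linear_combination (p₂ + p₃) 1 * e0 - (p₂ + p₃) 0 * e1
      exact (mul_eq_zero.1 this).resolve_right hne
    · have : t * det2 (p₁ + p₂) (p₂ + p₃) = 0 := by
        unfold det2
        linear_combination (p₁ + p₂) 0 * e1 - (p₁ + p₂) 1 * e0
      exact (mul_eq_zero.1 this).resolve_right hne
  set b : Module.Basis (Fin 2) ℝ E := basisOfLinearIndependentOfCardEqFinrank hli (by simp) with hb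
  have hb0 : b 0 = p₁ + p₂ := by simp [hb]
  have hb1 : b 1 = p₂ + p₃ := by simp [hb]
  refine ⟨b, fun x => ?_, ?_⟩
  · obtain ⟨m, n, hmn⟩ := hex_cov p₁ p₂ p₃ h₁₂ h₂₃ h₁₃ hpos (x - c)
    refine ⟨(m : ℝ) • (p₁ + p₂) + (n : ℝ) • (p₂ + p₃), ?_, ?_⟩
    · refine Submodule.add_mem _ ?_ ?_
      · rw [← hb0, Int.cast_smul_eq_zsmul]
        exact Submodule.smul_mem _ _ (Submodule.subset_span ⟨0, rfl⟩)
      · rw [← hb1, Int.cast_smul_eq_zsmul]
        exact Submodule.smul_mem _ _ (Submodule.subset_span ⟨1, rfl⟩)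
    · have hconv : Convex ℝ {y : E | c + y ∈ K} := hK.translate_preimage_right c
      have hsub : ({p₁, p₂, p₃, -p₁, -p₂, -p₃} : Set E) ⊆ {y : E | c + y ∈ K} := by
        intro y hy
        simp only [mem_insert_iff, mem_singleton_iff] at hy
        rcases hy with rfl | rfl | rfl | rfl | rfl | rfl
        · exact h1
        · exact h2
        · exact h3
        · show c + -p₁ ∈ K
          rw [← sub_eq_add_neg]
          exact h1'
        · show c + -p₂ ∈ K
          rw [← sub_eq_add_neg]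
          exact h2'
        · show c + -p₃ ∈ K
          rw [← sub_eq_add_neg]
          exact h3'
      have h := convexHull_min hsub hconv hmn
      have h' : c + (x - c - ((m : ℝ) • (p₁ + p₂) + (n : ℝ) • (p₂ + p₃))) ∈ K := h
      have he : c + (x - c - ((m : ℝ) • (p₁ + p₂) + (n : ℝ) • (p₂ + p₃))) =
          x - ((m : ℝ) • (p₁ + p₂) + (n : ℝ) • (p₂ + p₃)) := by abel
      rwa [he] at h'
  · rw [vol_parallelepiped, hb0, hb1, hd, abs_of_pos hpos]

end FB88
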