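import Pool.Agent.W_fa9b59_h88.Basic

set_option autoImplicit false

open MeasureTheory Metric Set
open scoped Pointwise RealInnerProductSpace

namespace FB88

/-- the lattice generated by a basis -/
theorem LatUpper_count {K : Set E} (hK : Body K) (b : Module.Basis (Fin 2) ℝ E) :
    ∃ D : ℝ, 0 ≤ D ∧ ∀ r : ℝ, 0 ≤ r →
      (Set.encard {t : E | t ∈ ((Submodule.span ℤ (Set.range b) : Submodule ℤ E) : Set E) ∧
          ∀ k ∈ K, t + k ∈ closedBall (0 : E) r} : ENNReal) * volume (parallelepiped b) ≤
        volume (closedBall (0 : E) (r + D)) := by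
  obtain ⟨k0, hk0⟩ := hK.2.2
  obtain ⟨ρ, hρ⟩ := (ZSpan.fundamentalDomain_isBounded b).exists_norm_le
  refine ⟨‖k0‖ + |ρ|, by positivity, fun r hr => ?_⟩
  set L : Submodule ℤ E := Submodule.span ℤ (Set.range b) with hL
  set S : Set E := {t : E | t ∈ (L : Set E) ∧ ∀ k ∈ K, t + k ∈ closedBall (0 : E) r} with hS
  have hLc : (L : Set E).Countable := by
    have : Countable L := by
      have : Countable (Submodule.span ℤ (Set.range b)) := inferInstance
      exact this
    exact Set.countable_coe_iff.1 this
  have hSc : S.Countable := hLc.mono fun t ht => ht.1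
  have hSc' : Countable S := hSc.to_subtype
  set P : Set E := ZSpan.fundamentalDomain b with hP
  have hPm : MeasurableSet P := ZSpan.fundamentalDomain_measurableSet b
  have hPv : volume P = volume (parallelepiped b) :=
    measure_congr (ZSpan.fundamentalDomain_ae_parallelepiped b volume)
  let F : S → Set E := fun t => (fun x : E => (-(t : E)) + x) ⁻¹' P
  have hFm : ∀ t : S, MeasurableSet (F t) := fun t => (measurable_const_add (-(t : E))) hPm
  have hFv : ∀ t : S, volume (F t) = volume (parallelepiped b) := fun t => by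
    rw [← hPv]
    exact measure_preimage_add volume (-(t : E)) P
  have hdis : Pairwise (fun s t : S => Disjoint (F s) (F t)) := by
    intro s t hst
    rw [Set.disjoint_left]
    intro x hxs hxt
    have hs' : -(s : E) + x ∈ P := hxs
    have ht' : -(t : E) + x ∈ P := hxt
    apply hst
    apply Subtype.ext
    have h1 : (ZSpan.fract b x : E) = -(s : E) + x := by
      have h2 := ZSpan.fract_zSpan_add b x (v := -(s : E)) (neg_mem s.2.1)
      rw [(ZSpan.fract_eq_self (b := b)).2 hs'] at h2
      exact h2.symm
    have h3 : (ZSpan.fract b x : E) = -(t : E) + x := by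
      have h2 := ZSpan.fract_zSpan_add b x (v := -(t : E)) (neg_mem t.2.1)
      rw [(ZSpan.fract_eq_self (b := b)).2 ht'] at h2
      exact h2.symm
    rw [h1] at h3
    exact neg_injective (add_right_cancel h3)
  have hsub : (⋃ t : S, F t) ⊆ closedBall (0 : E) (r + (‖k0‖ + |ρ|)) := by
    intro x hx
    obtain ⟨t, ht⟩ := Set.mem_iUnion.1 hx
    have h1 : -(t : E) + x ∈ P := ht
    have h2 := hρ _ h1
    have h3 := t.2.2 k0 hk0
    rw [mem_closedBall_zero_iff] at h3 ⊢
    have h4 : x = ((t : E) + k0) + (-(t : E) + x) + (-k0) := by abel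
    calc ‖x‖ = ‖((t : E) + k0) + (-(t : E) + x) + (-k0)‖ := by rw [← h4]
      _ ≤ ‖((t : E) + k0) + (-(t : E) + x)‖ + ‖-k0‖ := norm_add_le _ _
      _ ≤ ‖(t : E) + k0‖ + ‖-(t : E) + x‖ + ‖-k0‖ := by
        have := norm_add_le ((t : E) + k0) (-(t : E) + x)
        linarith
      _ ≤ r + |ρ| + ‖k0‖ := by
        rw [norm_neg]
        have := le_abs_self ρ
        linarith
      _ = r + (‖k0‖ + |ρ|) := by ring
  calc (S.encard : ENNReal) * volume (parallelepiped b)
      = ∑' _ : S, volume (parallelepiped b) := (ENNReal.tsum_set_const _ _).symm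
    _ = ∑' t : S, volume (F t) := by simp only [hFv]
    _ = volume (⋃ t : S, F t) := (measure_iUnion hdis hFm).symm
    _ ≤ _ := measure_mono hsub

/-- Upper bound for the density of a lattice covering: the sets t + P, P the half-open
fundamental domain of the lattice (`ZSpan.fundamentalDomain`), for t in the lattice with
t + K ⊆ B(0, r), are disjoint and contained in B(0, r + D') where D' depends only on K and b; so
(number of such t) * volume (parallelepiped b) ≤ volume B(0, r + D'); divide by volume B(0, r) and let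
r → ∞. (K nonempty. `ZSpan.isAddFundamentalDomain`, `ZSpan.fundamentalDomain_ae_parallelepiped`.) -/
theorem lattice_liminf {K : Set E} (hK : Body K) (b : Module.Basis (Fin 2) ℝ E) :
    Filter.liminf
      (fun r : ℝ => ((Set.encard {t : E | t ∈ ((Submodule.span ℤ (Set.range b) : Submodule ℤ E) : Set E) ∧
          ∀ k ∈ K, t + k ∈ closedBall (0 : E) r} : ENNReal) * volume K) /
        volume (closedBall (0 : E) r)) Filter.atTop ≤ volume K / volume (parallelepiped b) := by
  obtain ⟨D, hD, hcount⟩ := LatUpper_count hK b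
  have hKfin : volume K ≠ ⊤ := (vol_lt_top hK.2.1).ne
  set V : ENNReal := volume (parallelepiped b) with hV
  have hV0 : V ≠ 0 := by
    have h1 : volume (ZSpan.fundamentalDomain b) = V :=
      measure_congr (ZSpan.fundamentalDomain_ae_parallelepiped b volume)
    rw [← h1]
    exact ZSpan.measure_fundamentalDomain_ne_zero b
  have hVt : V ≠ ⊤ := by
    have h1 : IsCompact (parallelepiped b) := by
      rw [← b.coe_parallelepiped]
      exact b.parallelepiped.isCompact
    exact h1.measure_lt_top.ne
  set β : ENNReal := volume (ball (0 : E) 1) with hβ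
  have hβ0 : β ≠ 0 := (measure_ball_pos volume (0 : E) one_pos).ne'
  have hβt : β ≠ ⊤ := measure_ball_lt_top.ne
  have hball : ∀ r : ℝ, 0 ≤ r → volume (closedBall (0 : E) r) = ENNReal.ofReal (r ^ 2) * β := by
    intro r hr
    rw [Measure.addHaar_closedBall volume (0 : E) hr, finrank_euclideanSpace, Fintype.card_fin]
  -- the real function which bounds
  have hbound : ∀ r : ℝ, 0 < r →
      ((Set.encard {t : E | t ∈ ((Submodule.span ℤ (Set.range b) : Submodule ℤ E) : Set E) ∧
          ∀ k ∈ K, t + k ∈ closedBall (0 : E) r} : ENNReal) * volume K) /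
        volume (closedBall (0 : E) r) ≤
      volume K / V * ENNReal.ofReal (((r + D) / r) ^ 2) := by
    intro r hr
    have h1 := hcount r hr.le
    rw [hball _ (by positivity)] at h1
    have h2 : (Set.encard {t : E | t ∈ ((Submodule.span ℤ (Set.range b) : Submodule ℤ E) : Set E) ∧
          ∀ k ∈ K, t + k ∈ closedBall (0 : E) r} : ENNReal) ≤
          ENNReal.ofReal ((r + D) ^ 2) * β / V := by
      rw [ENNReal.le_div_iff_mul_le (Or.inl hV0) (Or.inl hVt)]
      exact h1
    rw [hball r hr.le]
    have hr2 : ENNReal.ofReal (r ^ 2) ≠ 0 := by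
      rw [Ne, ENNReal.ofReal_eq_zero, not_le]
      positivity
    rw [ENNReal.div_le_iff (mul_ne_zero hr2 hβ0) (ENNReal.mul_ne_top ENNReal.ofReal_ne_top hβt)]
    calc (Set.encard {t : E | t ∈ ((Submodule.span ℤ (Set.range b) : Submodule ℤ E) : Set E) ∧
          ∀ k ∈ K, t + k ∈ closedBall (0 : E) r} : ENNReal) * volume K
        ≤ ENNReal.ofReal ((r + D) ^ 2) * β / V * volume K := by gcongr
      _ = volume K / V * (ENNReal.ofReal (((r + D) / r) ^ 2) * ENNReal.ofReal (r ^ 2)) * β := by
          rw [← ENNReal.ofReal_mul (by positivity)]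
          have h3 : ((r + D) / r) ^ 2 * r ^ 2 = (r + D) ^ 2 := by
            rw [← mul_pow, div_mul_cancel₀ _ hr.ne']
          rw [h3, ENNReal.div_eq_inv_mul, ENNReal.div_eq_inv_mul]
          ring
      _ = _ := by ring
  have hlim : Filter.Tendsto (fun r : ℝ => volume K / V * ENNReal.ofReal (((r + D) / r) ^ 2))
      Filter.atTop (nhds (volume K / V)) := by
    have h1 : Filter.Tendsto (fun r : ℝ => ((r + D) / r) ^ 2) Filter.atTop (nhds 1) := by
      have h2 : Filter.Tendsto (fun r : ℝ => 1 + D / r) Filter.atTop (nhds (1 + 0)) :=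
        tendsto_const_nhds.add (Filter.Tendsto.div_atTop tendsto_const_nhds Filter.tendsto_id)
      have h3 : Filter.Tendsto (fun r : ℝ => (1 + D / r) ^ 2) Filter.atTop (nhds 1) := by
        have := h2.pow 2
        simpa using this
      refine h3.congr' ?_
      filter_upwards [Filter.eventually_gt_atTop (0 : ℝ)] with r hr
      congr 1
      field_simp
    have h4 := ENNReal.Tendsto.const_mul (a := volume K / V) (ENNReal.tendsto_ofReal h1)
      (Or.inr (ENNReal.div_ne_top hKfin hV0))
    simpa using h4
  rw [← hlim.liminf_eq]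
  refine Filter.liminf_le_liminf ?_
  filter_upwards [Filter.eventually_gt_atTop (0 : ℝ)] with r hr
  exact hbound r hr

end FB88
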