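import Pool.Agent.W_fa9b59_h88.FinCov

set_option autoImplicit false

open MeasureTheory Metric Set
open scoped Pointwise RealInnerProductSpace

namespace FB88

theorem Lim_s_ne_zero {K : Set E} (hKi : (interior K).Nonempty) {s : ENNReal}
    (hS : ∀ S ⊆ K, Convex ℝ S → (∃ c : E, ∀ x ∈ S, c - x ∈ S) → volume S ≤ s) : s ≠ 0 := by
  obtain ⟨p, hp⟩ := hKi
  obtain ⟨ε, hε, hball⟩ := Metric.mem_nhds_iff.1 (mem_interior_iff_mem_nhds.1 hp)
  have h1 := hS (ball p ε) hball (convex_ball p ε) ⟨p + p, fun x hx => by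
    rw [mem_ball, dist_eq_norm] at hx ⊢
    have : p + p - x - p = -(x - p) := by abel
    rw [this, norm_neg]
    exact hx⟩
  have h2 : 0 < volume (ball p ε) := measure_ball_pos volume p hε
  exact (h2.trans_le h1).ne'

/-- Counting form: for r > D, where ‖k‖ ≤ D on K, the number of translates t + K, t ∈ T, contained in
the ball of radius r, times s, is at least the area of the ball of radius r - D.
Proof: if the set of these t is infinite the left side is ⊤ (s > 0 as K contains a ball).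
Otherwise apply `fin_cover` to R = closedBall 0 (r - 2 D): every x ∈ R is in t + K for some t ∈ T, and
then t + k is within 2 D of x for all k ∈ K, so t + K ⊆ closedBall 0 r. -/
theorem count_lower {K : Set E} (hK : Body K) (hKi : (interior K).Nonempty) {s : ENNReal}
    (hS : ∀ S ⊆ K, Convex ℝ S → (∃ c : E, ∀ x ∈ S, c - x ∈ S) → volume S ≤ s)
    {D : ℝ} (hD : ∀ k ∈ K, ‖k‖ ≤ D) {T : Set E} (hT : ∀ x : E, ∃ t ∈ T, x - t ∈ K) {r : ℝ}
    (hr : 2 * D < r) :
    volume (closedBall (0 : E) (r - 2 * D)) ≤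
      (Set.encard {t : E | t ∈ T ∧ ∀ k ∈ K, t + k ∈ closedBall (0 : E) r} : ENNReal) * s := by
  have hs0 : s ≠ 0 := Lim_s_ne_zero hKi hS
  set A : Set E := {t : E | t ∈ T ∧ ∀ k ∈ K, t + k ∈ closedBall (0 : E) r} with hA
  have hmemA : ∀ x : E, ‖x‖ ≤ r - 2 * D → ∀ t ∈ T, x - t ∈ K → t ∈ A := by
    intro x hx t ht hxt
    refine ⟨ht, fun k hk => ?_⟩
    rw [mem_closedBall_zero_iff]
    have h1 := hD _ hxt
    have h2 := hD _ hk
    have h3 : t + k = x - (x - t) + k := by abel
    calc ‖t + k‖ = ‖x - (x - t) + k‖ := by rw [← h3]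
      _ ≤ ‖x - (x - t)‖ + ‖k‖ := norm_add_le _ _
      _ ≤ ‖x‖ + ‖x - t‖ + ‖k‖ := by
        have := norm_sub_le x (x - t)
        linarith
      _ ≤ r := by linarith
  have hne : A.Nonempty := by
    obtain ⟨t, ht, ht2⟩ := hT 0
    exact ⟨t, hmemA 0 (by rw [norm_zero]; linarith) t ht ht2⟩
  by_cases hst : s = ⊤
  · rw [hst, ENNReal.mul_top]
    · exact le_top
    · have : A.encard ≠ 0 := Set.encard_ne_zero.2 hne
      simpa using this
  by_cases hfin : A.Finite
  · have : Fintype A := hfin.fintype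
    have hb : Body (closedBall (0 : E) (r - 2 * D)) :=
      ⟨convex_closedBall _ _, isCompact_closedBall _ _, ⟨0, by
        rw [mem_closedBall_zero_iff, norm_zero]; linarith⟩⟩
    have hS' : ∀ S ⊆ K, Convex ℝ S → (∃ c : E, ∀ x ∈ S, c - x ∈ S) → area S ≤ s.toReal :=
      fun S h1 h2 h3 => ENNReal.toReal_mono hst (hS S h1 h2 h3)
    have hfc := fin_cover hK hKi hS' (fun t : A => (t : E)) hb
      (fun x hx => by rw [mem_closedBall_zero_iff] at hx ⊢; rwa [norm_neg])
      (fun x hx => by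
        rw [mem_closedBall_zero_iff] at hx
        obtain ⟨t, ht, ht2⟩ := hT x
        exact Set.mem_iUnion.2 ⟨⟨t, hmemA x hx t ht ht2⟩, ht2⟩)
    have hcard : (A.encard : ENNReal) = (Fintype.card A : ENNReal) := by
      rw [Set.encard_eq_coe_toFinset_card, Set.toFinset_card]
      rfl
    rw [hcard]
    have hvt : volume (closedBall (0 : E) (r - 2 * D)) ≠ ⊤ := (vol_lt_top hb.2.1).ne
    rw [← ENNReal.ofReal_toReal hvt]
    refine (ENNReal.ofReal_le_ofReal hfc).trans ?_
    rw [ENNReal.ofReal_mul (by positivity), ENNReal.ofReal_toReal hst, ENNReal.ofReal_natCast]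
  · have h1 : A.encard = ⊤ := Set.encard_eq_top_iff.2 hfin
    rw [h1, ENat.toENNReal_top, ENNReal.top_mul hs0]
    exact le_top

/-- Lower bound for the lower density of a covering by translates of K. From `count_lower`:
the function is ≥ (volume K / s) * (vol B (r - 2 D) / vol B r) for large r, and the ratio
((r - 2 D) / r)^2 tends to 1. (s > 0; s = ⊤ trivial.) -/
theorem liminf_lower {K : Set E} (hK : Body K) (hKi : (interior K).Nonempty) {s : ENNReal}
    (hS : ∀ S ⊆ K, Convex ℝ S → (∃ c : E, ∀ x ∈ S, c - x ∈ S) → volume S ≤ s)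
    {T : Set E} (hT : ∀ x : E, ∃ t ∈ T, x - t ∈ K) :
    volume K / s ≤ Filter.liminf
      (fun r : ℝ => ((Set.encard {t : E | t ∈ T ∧ ∀ k ∈ K, t + k ∈ closedBall (0 : E) r}
        : ENNReal) * volume K) / volume (closedBall (0 : E) r)) Filter.atTop := by
  have hs0 : s ≠ 0 := Lim_s_ne_zero hKi hS
  by_cases hst : s = ⊤
  · rw [hst, ENNReal.div_top]
    exact bot_le
  obtain ⟨D, hD⟩ := hK.2.1.isBounded.exists_norm_le
  have hD0 : 0 ≤ D := by
    obtain ⟨k, hk⟩ := hK.2.2
    exact (norm_nonneg k).trans (hD k hk)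
  have hKfin : volume K ≠ ⊤ := (vol_lt_top hK.2.1).ne
  set β : ENNReal := volume (ball (0 : E) 1) with hβ
  have hβ0 : β ≠ 0 := (measure_ball_pos volume (0 : E) one_pos).ne'
  have hβt : β ≠ ⊤ := measure_ball_lt_top.ne
  have hball : ∀ r : ℝ, 0 ≤ r → volume (closedBall (0 : E) r) = ENNReal.ofReal (r ^ 2) * β := by
    intro r hr
    rw [Measure.addHaar_closedBall volume (0 : E) hr, finrank_euclideanSpace, Fintype.card_fin]
  have hbound : ∀ r : ℝ, 2 * D < r →
      volume K / s * ENNReal.ofReal (((r - 2 * D) / r) ^ 2) ≤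
      ((Set.encard {t : E | t ∈ T ∧ ∀ k ∈ K, t + k ∈ closedBall (0 : E) r}
        : ENNReal) * volume K) / volume (closedBall (0 : E) r) := by
    intro r hr
    have hr0 : 0 < r := by linarith
    have h1 := count_lower hK hKi hS hD hT hr
    rw [hball _ (by linarith)] at h1
    rw [hball r hr0.le]
    have hr2 : ENNReal.ofReal (r ^ 2) ≠ 0 := by
      rw [Ne, ENNReal.ofReal_eq_zero, not_le]
      positivity
    rw [ENNReal.le_div_iff_mul_le (Or.inl (mul_ne_zero hr2 hβ0))
      (Or.inl (ENNReal.mul_ne_top ENNReal.ofReal_ne_top hβt))]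
    have h2 : ENNReal.ofReal ((r - 2 * D) ^ 2) * β / s ≤
        (Set.encard {t : E | t ∈ T ∧ ∀ k ∈ K, t + k ∈ closedBall (0 : E) r} : ENNReal) :=
      ENNReal.div_le_of_le_mul h1
    calc volume K / s * ENNReal.ofReal (((r - 2 * D) / r) ^ 2) * (ENNReal.ofReal (r ^ 2) * β)
        = volume K / s * (ENNReal.ofReal (((r - 2 * D) / r) ^ 2) * ENNReal.ofReal (r ^ 2)) * β := by
          ring
      _ = ENNReal.ofReal ((r - 2 * D) ^ 2) * β / s * volume K := by
          rw [← ENNReal.ofReal_mul (by positivity)]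
          have h3 : ((r - 2 * D) / r) ^ 2 * r ^ 2 = (r - 2 * D) ^ 2 := by
            rw [← mul_pow, div_mul_cancel₀ _ hr0.ne']
          rw [h3, ENNReal.div_eq_inv_mul, ENNReal.div_eq_inv_mul]
          ring
      _ ≤ _ := by gcongr
  have hlim : Filter.Tendsto (fun r : ℝ => volume K / s * ENNReal.ofReal (((r - 2 * D) / r) ^ 2))
      Filter.atTop (nhds (volume K / s)) := by
    have h1 : Filter.Tendsto (fun r : ℝ => ((r - 2 * D) / r) ^ 2) Filter.atTop (nhds 1) := by
      have h2 : Filter.Tendsto (fun r : ℝ => 1 - 2 * D / r) Filter.atTop (nhds (1 - 0)) :=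
        tendsto_const_nhds.sub (Filter.Tendsto.div_atTop tendsto_const_nhds Filter.tendsto_id)
      have h3 : Filter.Tendsto (fun r : ℝ => (1 - 2 * D / r) ^ 2) Filter.atTop (nhds 1) := by
        have := h2.pow 2
        simpa using this
      refine h3.congr' ?_
      filter_upwards [Filter.eventually_gt_atTop (0 : ℝ)] with r hr
      congr 1
      field_simp
    have h4 := ENNReal.Tendsto.const_mul (a := volume K / s) (ENNReal.tendsto_ofReal h1)
      (Or.inr (ENNReal.div_ne_top hKfin hs0))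
    simpa using h4
  rw [← hlim.liminf_eq]
  refine Filter.liminf_le_liminf ?_
  filter_upwards [Filter.eventually_gt_atTop (2 * D)] with r hr
  exact hbound r hr

end FB88
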