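import Pool.Agent.W_fa9b59_h88.Stmt
import Pool.Agent.W_fa9b59_h88.Lim
import Pool.Agent.W_fa9b59_h88.LatUpper
import Pool.Agent.W_fa9b59_h88.HexLat

set_option autoImplicit false

open MeasureTheory Metric Set
open scoped Pointwise RealInnerProductSpace

namespace FB88

open FB88Stmt

theorem main_lower (K : Set E) (hc : Convex ℝ K) (hk : IsCompact K)
    (hi : (interior K).Nonempty) : volume K / symMax K ≤ thetaT K := by
  have hK : Body K := ⟨hc, hk, hi.mono interior_subset⟩
  refine le_iInf₂ fun T hT => ?_
  refine liminf_lower hK hi (fun S hSK hS hSc => ?_) hT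
  exact le_iSup₂_of_le S ⟨hSK, hS, hSc⟩ le_rfl

theorem thetaT_le_thetaL (K : Set E) (hK : Body K) : thetaT K ≤ thetaL K := by
  refine le_iInf₂ fun b hb => ?_
  refine (iInf₂_le ((Submodule.span ℤ (Set.range b) : Submodule ℤ E) : Set E) ?_).trans
    (lattice_liminf hK b)
  intro x
  obtain ⟨v, hv, hx⟩ := hb x
  exact ⟨v, hv, hx⟩

theorem main_eq (K : Set E) (hc : Convex ℝ K) (hk : IsCompact K)
    (hi : (interior K).Nonempty) (A : ℝ) (hA : HasHexagon K A)
    (hm : symMax K ≤ ENNReal.ofReal A) : thetaT K = thetaL K := by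
  have hK : Body K := ⟨hc, hk, hi.mono interior_subset⟩
  refine le_antisymm (thetaT_le_thetaL K hK) ?_
  obtain ⟨c, p, q, r, h1, h2, h3, h1', h2', h3', d1, d2, d3, hAe⟩ := hA
  have hspos : 0 < symMax K := by
    obtain ⟨x, hx⟩ := hi
    obtain ⟨ε, hε, hb⟩ := Metric.isOpen_iff.1 isOpen_interior x hx
    have h : volume (ball x ε) ≤ symMax K := by
      refine le_iSup₂_of_le (ball x ε) ⟨hb.trans interior_subset, convex_ball x ε, x + x, ?_⟩ le_rfl
      intro y hy
      rw [mem_ball, dist_eq_norm] at hy ⊢
      rwa [show x + x - y - x = -(y - x) by abel, norm_neg]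
    exact (measure_ball_pos volume x hε).trans_le h
  have hApos : 0 < A := by
    by_contra hcon
    push Not at hcon
    rw [ENNReal.ofReal_of_nonpos hcon] at hm
    exact absurd (hspos.trans_le hm) (lt_irrefl _)
  obtain ⟨b, hb, hbv⟩ := hex_lat hc h1 h2 h3 h1' h2' h3' d1 d2 d3 (by unfold det2; linarith)
  have hL : thetaL K ≤ volume K / volume (parallelepiped b) := iInf₂_le b hb
  refine hL.trans ?_
  refine le_trans ?_ (main_lower K hc hk hi)
  rw [hbv]
  refine ENNReal.div_le_div_left ?_ _
  refine hm.trans (le_of_eq ?_)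
  rw [hAe]
  rfl

/-- For every convex disk K the translative covering density is at least the area of K divided by
the largest area of a centrally symmetric convex subset of K; and it equals the lattice
covering density when that largest area is attained by a hexagon or parallelogram. -/
theorem main (K : Set E) (hc : Convex ℝ K) (hk : IsCompact K) (hi : (interior K).Nonempty) :
    volume K / symMax K ≤ thetaT K ∧
      ∀ A : ℝ, HasHexagon K A → symMax K ≤ ENNReal.ofReal A → thetaT K = thetaL K :=
  ⟨main_lower K hc hk hi, fun A hA hm => main_eq K hc hk hi A hA hm⟩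

end FB88
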