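import Pool.Agent.W_fa9b59_h88.Psi

set_option autoImplicit false

open MeasureTheory Metric Set
open scoped Pointwise RealInnerProductSpace

namespace FB88

/-- tuples of bodies C i ⊆ P i which cover R -/
def Adm {ι : Type} (P : ι → Set E) (R : Set E) (C : ι → Set E) : Prop :=
  (∀ i, Body (C i) ∧ C i ⊆ P i) ∧ R ⊆ ⋃ i, C i

/-- the closed convex hull of L -/
def minexHull (L : Set E) : Set E := {x | ∀ u : E, ⟪u, x⟫ ≤ hs L u}

lemma minex_sub {L : Set E} (hL : IsCompact L) : L ⊆ minexHull L :=
  fun _ hx u => le_hs hL hx u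

lemma minex_body {L : Set E} (hL : IsCompact L) (hL0 : L.Nonempty) : Body (minexHull L) := by
  have h1 : minexHull L = ⋂ u : E, {x : E | ⟪u, x⟫ ≤ hs L u} := by
    ext x
    simp [minexHull]
  refine ⟨?_, ?_, hL0.mono (minex_sub hL)⟩
  · rw [h1]
    exact convex_iInter fun u => convex_halfSpace_le (innerSL ℝ u).isLinear _
  · obtain ⟨R, hR⟩ := hL.isBounded.exists_norm_le
    have hcl : IsClosed (minexHull L) := by
      rw [h1]
      exact isClosed_iInter fun u => isClosed_le (by fun_prop) continuous_const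
    refine (isCompact_closedBall (0 : E) R).of_isClosed_subset hcl fun x hx => ?_
    rw [mem_closedBall_zero_iff]
    have h2 := hx x
    have h3 : hs L x ≤ ‖x‖ * R := hs_le hL0 fun y hy =>
      (real_inner_le_norm x y).trans (mul_le_mul_of_nonneg_left (hR y hy) (norm_nonneg _))
    rw [real_inner_self_eq_norm_sq] at h2
    rcases (norm_nonneg x).eq_or_lt with h0 | h0
    · rw [← h0]
      obtain ⟨y, hy⟩ := hL0
      exact (norm_nonneg y).trans (hR y hy)
    · nlinarith

/-- the support function of the convex hull -/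
lemma minex_hs_hull {L : Set E} (hL : IsCompact L) (hL0 : L.Nonempty) :
    hs (minexHull L) = hs L := by
  funext u
  apply le_antisymm
  · exact hs_le (minex_body hL hL0).2.2 fun x hx => hx u
  · exact hs_mono (minex_sub hL) hL0 (minex_body hL hL0).2.1 u

lemma minex_psi_hull {L : Set E} (hL : IsCompact L) (hL0 : L.Nonempty) :
    psi (minexHull L) = psi L := by
  unfold psi
  rw [minex_hs_hull hL hL0]

lemma minex_hull_sub {L P : Set E} (hL0 : L.Nonempty) (hP : Body P)
    (h : L ⊆ P) : minexHull L ⊆ P :=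
  fun _ hx => mem_of_forall_le hP fun u => (hx u).trans (hs_mono h hL0 hP.2.1 u)

/-- Existence of a minimizer. Proof: minimize over the tuples L of nonempty compact sets L i ⊆ P i
such that for all x ∈ R there is i with ⟪u, x⟫ ≤ hs (L i) u for all u (i.e. x in the convex hull of
L i). The set of these tuples is closed (`hs_continuous_nc`) in the compact set
{L | ∀ i, L i ⊆ P i} (`isCompact_univ_pi`,
`NonemptyCompacts.isCompact_subsets_of_isCompact`), nonempty by hcov. Let L be a minimizer of
∑ psi (L i) (`IsCompact.exists_isMinOn`); then C i = convexHull (L i) is a body contained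
in P i, hs (C i) = hs (L i), psi (C i) = psi (L i), and every admissible tuple is one of the
competitors. -/
theorem exists_min {ι : Type} [Fintype ι] (P : ι → Set E) (hP : ∀ i, Body (P i)) {R : Set E}
    (hcov : R ⊆ ⋃ i, P i) :
    ∃ C : ι → Set E, Adm P R C ∧ ∀ C' : ι → Set E, Adm P R C' →
      ∑ i, psi (C i) ≤ ∑ i, psi (C' i) := by
  set S : Set (ι → TopologicalSpace.NonemptyCompacts E) :=
    Set.univ.pi fun i => {L | (L : Set E) ⊆ P i} with hS
  set T : Set (ι → TopologicalSpace.NonemptyCompacts E) :=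
    {L | ∀ x ∈ R, ∃ i, ∀ u : E, ⟪u, x⟫ ≤ hs (L i : Set E) u} with hT
  have hSc : IsCompact S := isCompact_univ_pi fun i =>
    TopologicalSpace.NonemptyCompacts.isCompact_subsets_of_isCompact (hP i).2.1
  have hTc : IsClosed T := by
    have h1 : T = ⋂ x ∈ R, ⋃ i : ι, ⋂ u : E, {L | ⟪u, x⟫ ≤ hs (L i : Set E) u} := by
      ext L
      simp [hT]
    rw [h1]
    refine isClosed_biInter fun x _ => isClosed_iUnion_of_finite fun i => isClosed_iInter fun u => ?_
    exact isClosed_le continuous_const ((hs_continuous_nc u).comp (continuous_apply i))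
  have hmem : ∀ C' : ι → Set E, Adm P R C' →
      ∃ L ∈ S ∩ T, ∀ i, (L i : Set E) = C' i := by
    intro C' hC'
    refine ⟨fun i => ⟨⟨C' i, (hC'.1 i).1.2.1⟩, (hC'.1 i).1.2.2⟩, ⟨?_, ?_⟩, fun i => rfl⟩
    · intro i _
      exact (hC'.1 i).2
    · intro x hx
      obtain ⟨i, hi⟩ := mem_iUnion.1 (hC'.2 hx)
      exact ⟨i, fun u => le_hs (hC'.1 i).1.2.1 hi u⟩
  have hne : (S ∩ T).Nonempty := by
    obtain ⟨L, hL, _⟩ := hmem P ⟨fun i => ⟨hP i, subset_rfl⟩, hcov⟩
    exact ⟨L, hL⟩
  have hcont : ContinuousOn (fun L : ι → TopologicalSpace.NonemptyCompacts E =>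
      ∑ i, psi (L i : Set E)) (S ∩ T) := by
    refine continuousOn_finsetSum _ fun i _ => ?_
    refine (psi_continuousOn (hP i).2.1).comp (continuous_apply i).continuousOn ?_
    intro L hL
    exact hL.1 i (mem_univ i)
  obtain ⟨L, hL, hmin⟩ := (hSc.inter_right hTc).exists_isMinOn hne hcont
  refine ⟨fun i => minexHull (L i : Set E), ⟨fun i =>
    ⟨minex_body (L i).isCompact (L i).nonempty,
      minex_hull_sub (L i).nonempty (hP i) (hL.1 i (mem_univ i))⟩, ?_⟩, ?_⟩
  · intro x hx
    obtain ⟨i, hi⟩ := hL.2 x hx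
    exact mem_iUnion.2 ⟨i, hi⟩
  · intro C' hC'
    obtain ⟨L', hL', he⟩ := hmem C' hC'
    have h1 : ∑ i, psi (L i : Set E) ≤ ∑ i, psi (L' i : Set E) := hmin hL'
    have h2 : ∑ i, psi (minexHull (L i : Set E)) = ∑ i, psi (L i : Set E) :=
      Finset.sum_congr rfl fun i _ => minex_psi_hull (L i).isCompact (L i).nonempty
    have h3 : ∑ i, psi (C' i) = ∑ i, psi (L' i : Set E) :=
      Finset.sum_congr rfl fun i _ => by rw [he i]
    rw [h2, h3]
    exact h1

end FB88
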