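import Pool.Agent.W_fa9b59_h88.CellStep
import Pool.Agent.W_fa9b59_h88.MinEx

set_option autoImplicit false

open MeasureTheory Metric Set
open scoped Pointwise RealInnerProductSpace

namespace FB88

lemma cells_sum {ι : Type} [Fintype ι] [DecidableEq ι] (g : ι → ℝ) {i j : ι} (hij : i ≠ j) :
    ∑ k, g k = g i + (g j + ∑ k ∈ (Finset.univ.erase i).erase j, g k) := by
  rw [← Finset.add_sum_erase Finset.univ g (Finset.mem_univ i),
    ← Finset.add_sum_erase (Finset.univ.erase i) g
      (Finset.mem_erase.2 ⟨hij.symm, Finset.mem_univ j⟩)]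

/-- Cells: a cover of a body R by translates of K can be refined to a cover by convex cells
C i ⊆ tr (v i) K ∩ R with pairwise disjoint interiors. Proof: take a minimizer from `exists_min`
with P i = tr (v i) K ∩ R; if interior (C i ∩ C j) ≠ ∅, `cell_step` gives a better tuple
(`Function.update` twice). -/
theorem cells {ι : Type} [Fintype ι] [DecidableEq ι] {K : Set E} (hK : Body K) (v : ι → E)
    {R : Set E} (hR : Body R) (hmeet : ∀ i, (tr (v i) K ∩ R).Nonempty)
    (hcov : R ⊆ ⋃ i, tr (v i) K) :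
    ∃ C : ι → Set E, (∀ i, Body (C i) ∧ C i ⊆ tr (v i) K ∩ R) ∧ R ⊆ ⋃ i, C i ∧
      ∀ i j, i ≠ j → interior (C i ∩ C j) = ∅ := by
  have hP : ∀ i, Body (tr (v i) K ∩ R) := fun i =>
    ⟨(hK.tr (v i)).1.inter hR.1, (hK.tr (v i)).2.1.inter hR.2.1, hmeet i⟩
  have hcov' : R ⊆ ⋃ i, tr (v i) K ∩ R := by
    intro x hx
    obtain ⟨i, hi⟩ := mem_iUnion.1 (hcov hx)
    exact mem_iUnion.2 ⟨i, hi, hx⟩
  obtain ⟨C, hC, hmin⟩ := exists_min (fun i => tr (v i) K ∩ R) hP hcov'
  refine ⟨C, hC.1, hC.2, ?_⟩
  intro i j hij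
  by_contra hne
  obtain ⟨A', B', hA', hB', hA'P, hB'P, hsub, hlt⟩ := cell_step hK hR (hC.1 i).1 (hC.1 j).1
    (hC.1 i).2 (hC.1 j).2 (nonempty_iff_ne_empty.2 hne)
  set D : ι → Set E := fun k => if k = i then A' else if k = j then B' else C k with hD
  have hDi : D i = A' := by simp [hD]
  have hDj : D j = B' := by simp [hD, hij.symm]
  have hDk : ∀ k, k ≠ i → k ≠ j → D k = C k := by
    intro k h1 h2
    simp [hD, h1, h2]
  have hadm : Adm (fun i => tr (v i) K ∩ R) R D := by
    constructor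
    · intro k
      by_cases h1 : k = i
      · subst h1
        rw [hDi]
        exact ⟨hA', hA'P⟩
      · by_cases h2 : k = j
        · subst h2
          rw [hDj]
          exact ⟨hB', hB'P⟩
        · rw [hDk k h1 h2]
          exact hC.1 k
    · intro x hx
      obtain ⟨k, hk⟩ := mem_iUnion.1 (hC.2 hx)
      have key : x ∈ C i ∪ C j → x ∈ ⋃ k, D k := by
        intro h
        rcases hsub h with h | h
        · exact mem_iUnion.2 ⟨i, by rw [hDi]; exact h⟩
        · exact mem_iUnion.2 ⟨j, by rw [hDj]; exact h⟩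
      by_cases h1 : k = i
      · subst h1
        exact key (Or.inl hk)
      · by_cases h2 : k = j
        · subst h2
          exact key (Or.inr hk)
        · exact mem_iUnion.2 ⟨k, by rw [hDk k h1 h2]; exact hk⟩
  have h1 := hmin D hadm
  rw [cells_sum (fun k => psi (C k)) hij, cells_sum (fun k => psi (D k)) hij] at h1
  have h2 : ∑ k ∈ (Finset.univ.erase i).erase j, psi (D k) =
      ∑ k ∈ (Finset.univ.erase i).erase j, psi (C k) := by
    refine Finset.sum_congr rfl fun k hk => ?_
    rw [Finset.mem_erase, Finset.mem_erase] at hk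
    rw [hDk k hk.2.1 hk.1]
  simp only [hDi, hDj, h2] at h1
  linarith

end FB88
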