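import Mathlib

/-!
Statement definitions for MP_fa9b59_co. `thetaT K` and `thetaL K` are the two sides of the frozen
statement S12539 (translative and lattice covering density of K), verbatim. `symMax K` is the
supremum of the areas of the centrally symmetric convex subsets of K.
-/

set_option autoImplicit false

open MeasureTheory

namespace FB88Stmt

/-- translative covering density, as in the frozen statement S12539 -/
noncomputable def thetaT (K : Set (EuclideanSpace ℝ (Fin 2))) : ENNReal :=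
  ⨅ (T : Set (EuclideanSpace ℝ (Fin 2)))
    (_ : ∀ x : EuclideanSpace ℝ (Fin 2), ∃ t ∈ T, x - t ∈ K),
    Filter.liminf
      (fun r : ℝ =>
        ((Set.encard {t : EuclideanSpace ℝ (Fin 2) |
            t ∈ T ∧ ∀ k ∈ K, t + k ∈ Metric.closedBall (0 : EuclideanSpace ℝ (Fin 2)) r}
            : ENNReal) * volume K)
          / volume (Metric.closedBall (0 : EuclideanSpace ℝ (Fin 2)) r))
      Filter.atTop

/-- lattice covering density, as in the frozen statement S12539 -/
noncomputable def thetaL (K : Set (EuclideanSpace ℝ (Fin 2))) : ENNReal :=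
  ⨅ (b : Module.Basis (Fin 2) ℝ (EuclideanSpace ℝ (Fin 2)))
    (_ : ∀ x : EuclideanSpace ℝ (Fin 2),
      ∃ v ∈ Submodule.span ℤ (Set.range ⇑b), x - v ∈ K),
    volume K / volume (parallelepiped ⇑b)

/-- supremum of the areas of the centrally symmetric convex subsets of K -/
noncomputable def symMax (K : Set (EuclideanSpace ℝ (Fin 2))) : ENNReal :=
  ⨆ (S : Set (EuclideanSpace ℝ (Fin 2)))
    (_ : S ⊆ K ∧ Convex ℝ S ∧ ∃ c : EuclideanSpace ℝ (Fin 2), ∀ x ∈ S, c - x ∈ S), volume S

/-- K contains the six vertices c ± p, c ± q, c ± r of a centrally symmetric hexagon (or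
parallelogram) of area A, the vertices being in the cyclic order p, q, r, -p, -q, -r -/
def HasHexagon (K : Set (EuclideanSpace ℝ (Fin 2))) (A : ℝ) : Prop :=
  ∃ c p q r : EuclideanSpace ℝ (Fin 2),
    c + p ∈ K ∧ c + q ∈ K ∧ c + r ∈ K ∧ c - p ∈ K ∧ c - q ∈ K ∧ c - r ∈ K ∧
    0 ≤ p 0 * q 1 - p 1 * q 0 ∧ 0 ≤ q 0 * r 1 - q 1 * r 0 ∧ 0 ≤ p 0 * r 1 - p 1 * r 0 ∧
    A = (p 0 * q 1 - p 1 * q 0) + (q 0 * r 1 - q 1 * r 0) + (p 0 * r 1 - p 1 * r 0)

end FB88Stmt
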