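import Pool.Agent.W_fa9b59_h88.Val

set_option autoImplicit false

open MeasureTheory Metric Set
open scoped Pointwise RealInnerProductSpace

namespace FB88

lemma Add_inter_eq_empty {A B : Set E} (hA : Convex ℝ A) (hB : Convex ℝ B)
    (h : interior (A ∩ B) = ∅) : Disjoint (interior A) (interior B) := by
  have _ := hA
  have _ := hB
  rw [Set.disjoint_iff_inter_eq_empty, ← interior_inter]
  exact h

lemma Add_subset_closure {A : Set E} (hA : Convex ℝ A) (hAi : (interior A).Nonempty) :
    A ⊆ closure (interior A) := by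
  rw [hA.closure_interior_eq_closure_of_nonempty_interior hAi]
  exact subset_closure

/-- two convex sets whose intersection has empty interior and which have interiors are separated
by a line -/
lemma sep_of_disjoint_interior {A B : Set E} (hA : Convex ℝ A) (hB : Convex ℝ B)
    (hAi : (interior A).Nonempty) (hBi : (interior B).Nonempty)
    (h : interior (A ∩ B) = ∅) :
    ∃ (f : E) (c : ℝ), f ≠ 0 ∧ (∀ x ∈ A, ⟪f, x⟫ ≤ c) ∧ (∀ x ∈ B, c ≤ ⟪f, x⟫) := by
  obtain ⟨g, c, hg1, hg2⟩ := geometric_hahn_banach_open_open hA.interior isOpen_interior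
    hB.interior isOpen_interior (Add_inter_eq_empty hA hB h)
  have hin : ∀ x, ⟪(InnerProductSpace.toDual ℝ E).symm g, x⟫ = g x := fun x =>
    InnerProductSpace.toDual_symm_apply
  refine ⟨(InnerProductSpace.toDual ℝ E).symm g, c, ?_, ?_, ?_⟩
  · intro h0
    obtain ⟨a, ha⟩ := hAi
    obtain ⟨b, hb⟩ := hBi
    have h1 := hg1 a ha
    have h2 := hg2 b hb
    rw [← hin, h0, inner_zero_left] at h1 h2
    linarith
  · intro x hx
    rw [hin]
    have hcl : IsClosed {y : E | g y ≤ c} := isClosed_le g.continuous continuous_const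
    have hsub : closure (interior A) ⊆ {y : E | g y ≤ c} :=
      closure_minimal (fun y hy => (hg1 y hy).le) hcl
    exact hsub (Add_subset_closure hA hAi hx)
  · intro x hx
    rw [hin]
    have hcl : IsClosed {y : E | c ≤ g y} := isClosed_le continuous_const g.continuous
    have hsub : closure (interior B) ⊆ {y : E | c ≤ g y} :=
      closure_minimal (fun y hy => (hg2 y hy).le) hcl
    exact hsub (Add_subset_closure hB hBi hx)

/-- if a compact convex R with nonempty interior is covered by finitely many closed sets and one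
of them meets R in a set with empty interior then the others still cover R -/
lemma cover_erase {κ : Type} [DecidableEq κ] {s : Finset κ} {C : κ → Set E} {R : Set E}
    (hR : Convex ℝ R) (hRc : IsCompact R) (hRi : (interior R).Nonempty)
    (hC : ∀ i ∈ s, IsClosed (C i)) (hcov : R ⊆ ⋃ i ∈ s, C i) {j : κ}
    (hj : interior (C j ∩ R) = ∅) : R ⊆ ⋃ i ∈ s.erase j, C i := by
  have _ := hRc
  intro x hx
  by_contra hxU
  have hcl : IsClosed (⋃ i ∈ s.erase j, C i) := by
    apply Set.Finite.isClosed_biUnion (s.erase j).finite_toSet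
    intro i hi
    exact hC i (Finset.mem_of_mem_erase hi)
  obtain ⟨y, hyU, hyR⟩ := mem_closure_iff.1 (Add_subset_closure hR hRi hx)
    (⋃ i ∈ s.erase j, C i)ᶜ hcl.isOpen_compl hxU
  have hopen : IsOpen ((⋃ i ∈ s.erase j, C i)ᶜ ∩ interior R) :=
    hcl.isOpen_compl.inter isOpen_interior
  have hsub : (⋃ i ∈ s.erase j, C i)ᶜ ∩ interior R ⊆ C j ∩ R := by
    rintro z ⟨hz1, hz2⟩
    have hzR := interior_subset hz2
    refine ⟨?_, hzR⟩
    obtain ⟨i, hi, hzi⟩ := Set.mem_iUnion₂.1 (hcov hzR)
    by_cases hij : i = j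
    · rw [← hij]
      exact hzi
    · exact absurd (Set.mem_iUnion₂.2 ⟨i, Finset.mem_erase.2 ⟨hij, hi⟩, hzi⟩) hz1
  have h1 := interior_maximal hsub hopen ⟨hyU, hyR⟩
  rw [hj] at h1
  exact h1

lemma Add_line {S : Set E} {f : E} (hf : f ≠ 0) {c : ℝ} (h : ∀ x ∈ S, ⟪f, x⟫ = c) :
    interior S = ∅ := by
  rw [Set.eq_empty_iff_forall_notMem]
  intro y hy
  have hy' := mem_interior_iff_mem_nhds.1 hy
  have hcont : Filter.Tendsto (fun t : ℝ => y + t • f) (nhds 0) (nhds y) := by
    have : Continuous (fun t : ℝ => y + t • f) := by fun_prop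
    have h1 := this.tendsto 0
    simpa using h1
  have hev : ∀ᶠ t in nhdsWithin (0 : ℝ) {0}ᶜ, y + t • f ∈ S :=
    (hcont.eventually hy').filter_mono nhdsWithin_le_nhds
  obtain ⟨t, ht1, ht2⟩ := (hev.and self_mem_nhdsWithin).exists
  have h1 := h _ ht1
  have h2 := h _ (mem_of_mem_nhds hy')
  rw [inner_add_right, inner_smul_right, h2] at h1
  have h3 : (0 : ℝ) < ⟪f, f⟫ := real_inner_self_pos.2 hf
  have h4 : t * ⟪f, f⟫ = 0 := by linarith
  rcases mul_eq_zero.1 h4 with h5 | h5
  · exact ht2 h5
  · linarith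

lemma Add_half_le (f : E) (c : ℝ) :
    Convex ℝ {x : E | ⟪f, x⟫ ≤ c} ∧ IsClosed {x : E | ⟪f, x⟫ ≤ c} :=
  ⟨convex_halfSpace_le (innerSL ℝ f).isLinear _,
    isClosed_le (by fun_prop) continuous_const⟩

lemma Add_half_ge (f : E) (c : ℝ) :
    Convex ℝ {x : E | c ≤ ⟪f, x⟫} ∧ IsClosed {x : E | c ≤ ⟪f, x⟫} :=
  ⟨convex_halfSpace_ge (innerSL ℝ f).isLinear _,
    isClosed_le continuous_const (by fun_prop)⟩

lemma Add_zero {ι : Type} [Fintype ι] (w : ι → E) (hw : ∑ i, w i = 0) {C R : Set E}
    (hC : Convex ℝ C) (hCc : IsCompact C) (hR : Convex ℝ R) (hRc : IsCompact R)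
    (h : interior (C ∩ R) = ∅) : Phi w (C ∩ R) = 0 :=
  phi_flat w hw (hC.inter hR) (hCc.inter_right hRc.isClosed) h

/-- Additivity of Phi over convex tilings. Induction on the cardinality of s (for all R). If R has
empty interior all terms vanish (`phi_flat`). If some C i ∩ R, i ∈ s, has empty interior
remove it (`cover_erase`, `phi_flat`). If s has one element i: R ⊆ C i. Otherwise take i ≠ j in s,
f, c from `sep_of_disjoint_interior` for C i ∩ R, C j ∩ R (or C i, C j), and cut R: in
R⁺ = R ∩ {c ≤ ⟪f, x⟫} the set C i ∩ R⁺ is contained in the line, so the induction hypothesis for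
s.erase i applies to R⁺ (with `cover_erase`, or all terms vanish when R⁺ has empty interior);
same in R⁻ with j. Add up with `phi_cut` for R and for all C l ∩ R. -/
theorem phi_add {κ : Type} [DecidableEq κ] {ι : Type} [Fintype ι] (w : ι → E)
    (hw : ∑ i, w i = 0) (s : Finset κ) (C : κ → Set E)
    (hC : ∀ i ∈ s, Convex ℝ (C i) ∧ IsCompact (C i))
    (hdis : ∀ i ∈ s, ∀ j ∈ s, i ≠ j → interior (C i ∩ C j) = ∅) {R : Set E} (hR : Convex ℝ R)
    (hRc : IsCompact R) (hcov : R ⊆ ⋃ i ∈ s, C i) :
    ∑ i ∈ s, Phi w (C i ∩ R) = Phi w R := by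
  induction hn : s.card using Nat.strong_induction_on generalizing s R with
  | _ n ih =>
    -- all terms vanish if `R` has empty interior
    have hflat : ∀ R' : Set E, Convex ℝ R' → IsCompact R' → interior R' = ∅ →
        ∑ i ∈ s, Phi w (C i ∩ R') = Phi w R' := by
      intro R' hR' hRc' hi
      rw [phi_flat w hw hR' hRc' hi]
      apply Finset.sum_eq_zero
      intro i his
      apply Add_zero w hw (hC i his).1 (hC i his).2 hR' hRc'
      rw [← Set.subset_empty_iff, ← hi]
      exact interior_mono Set.inter_subset_right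
    -- removing a superfluous set
    have herase : ∀ R' : Set E, Convex ℝ R' → IsCompact R' → R' ⊆ ⋃ i ∈ s, C i →
        ∀ j ∈ s, interior (C j ∩ R') = ∅ → ∑ i ∈ s, Phi w (C i ∩ R') = Phi w R' := by
      intro R' hR' hRc' hcov' j hj hij
      rcases Set.eq_empty_or_nonempty (interior R') with hi | hi
      · exact hflat R' hR' hRc' hi
      · have h1 := cover_erase hR' hRc' hi (fun i hi => (hC i hi).2.isClosed) hcov' hij
        have hcard : (s.erase j).card < n := by
          rw [← hn]
          exact Finset.card_erase_lt_of_mem hj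
        have h2 := ih _ hcard (s.erase j) (fun i hi => hC i (Finset.mem_of_mem_erase hi))
          (fun i hi l hl => hdis i (Finset.mem_of_mem_erase hi) l (Finset.mem_of_mem_erase hl))
          hR' hRc' h1 rfl
        rw [← Finset.sum_erase_add s _ hj, h2,
          Add_zero w hw (hC j hj).1 (hC j hj).2 hR' hRc' hij, add_zero]
    rcases Set.eq_empty_or_nonempty (interior R) with hi | hi
    · exact hflat R hR hRc hi
    by_cases hex : ∃ j ∈ s, interior (C j ∩ R) = ∅
    · obtain ⟨j, hj, hij⟩ := hex
      exact herase R hR hRc hcov j hj hij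
    push Not at hex
    rcases s.eq_empty_or_nonempty with hs | ⟨i, his⟩
    · subst hs
      obtain ⟨x, hx⟩ := hi
      have := hcov (interior_subset hx)
      simp at this
    by_cases hsing : ∃ j ∈ s, i ≠ j
    · obtain ⟨j, hjs, hij⟩ := hsing
      have hne : ∀ l ∈ s, (interior (C l)).Nonempty := by
        intro l hl
        obtain ⟨x, hx⟩ := hex l hl
        exact ⟨x, interior_mono Set.inter_subset_left hx⟩
      obtain ⟨f, c, hf, hf1, hf2⟩ := sep_of_disjoint_interior (hC i his).1 (hC j hjs).1
        (hne i his) (hne j hjs) (hdis i his j hjs hij)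
      have hple := Add_half_le f c
      have hpge := Add_half_ge f c
      have hcut := phi_cut w hw hR hRc hf c
      have hminus := herase (R ∩ {x | ⟪f, x⟫ ≤ c}) (hR.inter hple.1)
        (hRc.inter_right hple.2) (Set.inter_subset_left.trans hcov) j hjs
        (Add_line hf (c := c) (by
          rintro x ⟨hx1, -, hx2⟩
          exact le_antisymm hx2 (hf2 x hx1)))
      have hplus := herase (R ∩ {x | c ≤ ⟪f, x⟫}) (hR.inter hpge.1)
        (hRc.inter_right hpge.2) (Set.inter_subset_left.trans hcov) i his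
        (Add_line hf (c := c) (by
          rintro x ⟨hx1, -, hx2⟩
          exact le_antisymm (hf1 x hx1) hx2))
      rw [hcut, ← hminus, ← hplus, ← Finset.sum_add_distrib]
      apply Finset.sum_congr rfl
      intro l hl
      rw [← Set.inter_assoc, ← Set.inter_assoc]
      exact phi_cut w hw ((hC l hl).1.inter hR) ((hC l hl).2.inter_right hRc.isClosed) hf c
    · push Not at hsing
      have hs1 : s = {i} := Finset.eq_singleton_iff_unique_mem.2 ⟨his, fun j hj => (hsing j hj).symm⟩
      subst hs1
      have h1 : R ⊆ C i := by simpa using hcov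
      rw [Finset.sum_singleton, Set.inter_eq_self_of_subset_right h1]

end FB88
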