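import Pool.Agent.W_fa9b59_h88.BM1

set_option autoImplicit false

open MeasureTheory Metric Set
open scoped Pointwise RealInnerProductSpace

namespace FB88

theorem BM2_aux1 {S T U : Set ℝ} (hS : MeasurableSet S) (hT : MeasurableSet T)
    (hS0 : S.Nonempty) (hT0 : T.Nonempty) (hU : S + T ⊆ U) :
    volume S + volume T ≤ volume U := by
  obtain ⟨s0, hs0⟩ := hS0
  obtain ⟨t0, ht0⟩ := hT0
  have key : ∀ K : Set ℝ, K ⊆ S → IsCompact K → ∀ L : Set ℝ, L ⊆ T → IsCompact L →
      volume K + volume L ≤ volume U := by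
    intro K hKS hK L hLT hL
    have h1 : IsCompact (K ∪ {s0}) := hK.union isCompact_singleton
    have h2 : IsCompact (L ∪ {t0}) := hL.union isCompact_singleton
    have h3 := bm1 h1 h2 ⟨s0, Or.inr rfl⟩ ⟨t0, Or.inr rfl⟩
    have h4 : (K ∪ {s0}) + (L ∪ {t0}) ⊆ U := by
      refine subset_trans (Set.add_subset_add ?_ ?_) hU
      · exact union_subset hKS (singleton_subset_iff.2 hs0)
      · exact union_subset hLT (singleton_subset_iff.2 ht0)
    calc volume K + volume L ≤ volume (K ∪ {s0}) + volume (L ∪ {t0}) :=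
          add_le_add (measure_mono subset_union_left) (measure_mono subset_union_left)
      _ ≤ volume ((K ∪ {s0}) + (L ∪ {t0})) := h3
      _ ≤ volume U := measure_mono h4
  have step1 : ∀ K : Set ℝ, K ⊆ S → IsCompact K → volume K + volume T ≤ volume U := by
    intro K hKS hK
    rw [hT.measure_eq_iSup_isCompact]
    rw [ENNReal.add_iSup]
    refine iSup_le fun L => ?_
    by_cases hL : L ⊆ T
    · by_cases hL' : IsCompact L
      · simp only [hL, hL', iSup_true, iSup_pos]
        exact key K hKS hK L hL hL'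
      · simp only [hL, hL', iSup_true, iSup_false, iSup_pos, iSup_neg, not_false_eq_true]
        have := key K hKS hK ∅ (empty_subset _) isCompact_empty
        simpa using this
    · simp only [hL, iSup_false, iSup_neg, not_false_eq_true]
      have := key K hKS hK ∅ (empty_subset _) isCompact_empty
      simpa using this
  rw [hS.measure_eq_iSup_isCompact]
  rw [ENNReal.iSup_add]
  refine iSup_le fun L => ?_
  by_cases hL : L ⊆ S
  · by_cases hL' : IsCompact L
    · simp only [hL, hL', iSup_true, iSup_pos]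
      exact step1 L hL hL'
    · simp only [hL, hL', iSup_true, iSup_false, iSup_pos, iSup_neg, not_false_eq_true]
      have := step1 ∅ (empty_subset _) isCompact_empty
      simpa using this
  · simp only [hL, iSup_false, iSup_neg, not_false_eq_true]
    have := step1 ∅ (empty_subset _) isCompact_empty
    simpa using this

/-- length of the vertical section -/
noncomputable def BM2_F (A : Set (ℝ × ℝ)) (x : ℝ) : ℝ := (volume (Prod.mk x ⁻¹' A)).toReal

theorem BM2_sub (A : Set (ℝ × ℝ)) (x : ℝ) : Prod.mk x ⁻¹' A ⊆ Prod.snd '' A := by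
  intro y hy
  exact ⟨(x, y), hy, rfl⟩

theorem BM2_cpt {A : Set (ℝ × ℝ)} (hA : IsCompact A) (x : ℝ) :
    IsCompact (Prod.mk x ⁻¹' A) := by
  refine (hA.image continuous_snd).of_isClosed_subset ?_ (BM2_sub A x)
  exact hA.isClosed.preimage (by fun_prop)

theorem BM2_fin {A : Set (ℝ × ℝ)} (hA : IsCompact A) (x : ℝ) :
    volume (Prod.mk x ⁻¹' A) ≠ ⊤ := (BM2_cpt hA x).measure_lt_top.ne

theorem BM2_ofReal {A : Set (ℝ × ℝ)} (hA : IsCompact A) (x : ℝ) :
    ENNReal.ofReal (BM2_F A x) = volume (Prod.mk x ⁻¹' A) :=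
  ENNReal.ofReal_toReal (BM2_fin hA x)

theorem BM2_nn (A : Set (ℝ × ℝ)) (x : ℝ) : 0 ≤ BM2_F A x := ENNReal.toReal_nonneg

theorem BM2_meas {A : Set (ℝ × ℝ)} (hA : IsCompact A) : Measurable (BM2_F A) :=
  (measurable_measure_prodMk_left hA.measurableSet).ennreal_toReal

theorem BM2_bdd {A : Set (ℝ × ℝ)} (hA : IsCompact A) : BddAbove (Set.range (BM2_F A)) := by
  refine ⟨(volume (Prod.snd '' A)).toReal, ?_⟩
  rintro _ ⟨x, rfl⟩
  exact ENNReal.toReal_mono (hA.image continuous_snd).measure_lt_top.ne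
    (measure_mono (BM2_sub A x))

theorem BM2_int {A : Set (ℝ × ℝ)} (hA : IsCompact A) {a : ℝ} (ha : 0 < a) :
    ∫⁻ x, ENNReal.ofReal (BM2_F A x / a) = ENNReal.ofReal ((volume A).toReal / a) := by
  have h1 : volume A = ∫⁻ x, ENNReal.ofReal (BM2_F A x) := by
    rw [Measure.volume_eq_prod, Measure.prod_apply hA.measurableSet]
    exact lintegral_congr fun x => (BM2_ofReal hA x).symm
  have h2 : ∀ x, ENNReal.ofReal (BM2_F A x / a)
      = ENNReal.ofReal (1 / a) * ENNReal.ofReal (BM2_F A x) := by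
    intro x
    rw [← ENNReal.ofReal_mul (by positivity)]
    congr 1
    ring
  simp_rw [h2]
  rw [lintegral_const_mul _ (BM2_meas hA).ennreal_ofReal, ← h1,
    ← ENNReal.ofReal_toReal hA.measure_lt_top.ne, ← ENNReal.ofReal_mul (by positivity)]
  congr 1
  rw [ENNReal.toReal_ofReal ENNReal.toReal_nonneg]
  ring

theorem BM2_pos {A : Set (ℝ × ℝ)} (hA : IsCompact A) (hA1 : (volume A).toReal ≠ 0) :
    0 < ⨆ x, BM2_F A x := by
  by_contra hcon
  push Not at hcon
  apply hA1
  have h0 : ∀ x, BM2_F A x = 0 := by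
    intro x
    exact le_antisymm ((le_ciSup (BM2_bdd hA) x).trans hcon) (BM2_nn A x)
  have h1 := BM2_int hA (a := 1) one_pos
  have h2 : ∀ x, ENNReal.ofReal (BM2_F A x / 1) = 0 := by
    intro x; rw [h0]; simp
  simp_rw [h2] at h1
  simp only [lintegral_const, zero_mul, div_one] at h1
  have h3 := ENNReal.ofReal_eq_zero.1 h1.symm
  exact le_antisymm h3 ENNReal.toReal_nonneg

theorem BM2_main {A B : Set (ℝ × ℝ)} (hA : IsCompact A) (hB : IsCompact B)
    (hA1 : (volume A).toReal ≠ 0) (hB1 : (volume B).toReal ≠ 0) :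
    ∃ a b : ℝ, 0 < a ∧ 0 < b ∧
      (volume A).toReal / a + (volume B).toReal / b ≤ (volume (A + B)).toReal / (a + b) := by
  have hAB : IsCompact (A + B) := hA.add hB
  set a : ℝ := ⨆ x, BM2_F A x with ha
  set b : ℝ := ⨆ x, BM2_F B x with hb
  have ha0 : 0 < a := BM2_pos hA hA1
  have hb0 : 0 < b := BM2_pos hB hB1
  refine ⟨a, b, ha0, hb0, ?_⟩
  have hlayer : ∀ {C : Set (ℝ × ℝ)} (_ : IsCompact C) {c : ℝ} (_ : 0 < c),
      ENNReal.ofReal ((volume C).toReal / c) =
        ∫⁻ t in Ioi (0:ℝ), volume {x | t < BM2_F C x / c} := by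
    intro C hC c hc
    rw [← BM2_int hC hc]
    exact lintegral_eq_lintegral_meas_lt _
      (Filter.Eventually.of_forall fun x => div_nonneg (BM2_nn C x) hc.le)
      ((BM2_meas hC).div_const c).aemeasurable
  have hms : ∀ {C : Set (ℝ × ℝ)} (_ : IsCompact C) (c t : ℝ),
      MeasurableSet {x | t < BM2_F C x / c} := by
    intro C hC c t
    exact measurableSet_lt measurable_const ((BM2_meas hC).div_const c)
  have hanti : ∀ (C : Set (ℝ × ℝ)) (c : ℝ),
      Antitone (fun t : ℝ => volume {x | t < BM2_F C x / c}) := by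
    intro C c s t hst
    refine measure_mono ?_
    intro x hx
    exact lt_of_le_of_lt hst hx
  have hle : ENNReal.ofReal ((volume A).toReal / a) + ENNReal.ofReal ((volume B).toReal / b)
      ≤ ENNReal.ofReal ((volume (A + B)).toReal / (a + b)) := by
    rw [hlayer hA ha0, hlayer hB hb0, hlayer hAB (add_pos ha0 hb0)]
    rw [← lintegral_add_left (hanti A a).measurable]
    refine lintegral_mono_ae ?_
    refine (ae_restrict_mem measurableSet_Ioi).mono ?_
    intro t ht
    have ht0 : 0 < t := ht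
    by_cases ht1 : t < 1
    · have hSn : ({x | t < BM2_F A x / a} : Set ℝ).Nonempty := by
        have : t * a < ⨆ x, BM2_F A x := by
          rw [← ha]; nlinarith
        obtain ⟨x, hx⟩ := exists_lt_of_lt_ciSup this
        exact ⟨x, by rw [mem_setOf_eq, lt_div_iff₀ ha0]; exact hx⟩
      have hTn : ({x | t < BM2_F B x / b} : Set ℝ).Nonempty := by
        have : t * b < ⨆ x, BM2_F B x := by
          rw [← hb]; nlinarith
        obtain ⟨x, hx⟩ := exists_lt_of_lt_ciSup this
        exact ⟨x, by rw [mem_setOf_eq, lt_div_iff₀ hb0]; exact hx⟩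
      refine BM2_aux1 (hms hA a t) (hms hB b t) hSn hTn ?_
      rintro _ ⟨x, hx, y, hy, rfl⟩
      rw [mem_setOf_eq, lt_div_iff₀ ha0] at hx
      rw [mem_setOf_eq, lt_div_iff₀ hb0] at hy
      have hab : 0 < a + b := add_pos ha0 hb0
      simp only [mem_setOf_eq]
      rw [lt_div_iff₀ hab]
      have hfx : 0 < BM2_F A x := lt_trans (mul_pos ht0 ha0) hx
      have hgy : 0 < BM2_F B y := lt_trans (mul_pos ht0 hb0) hy
      have hn1 : (Prod.mk x ⁻¹' A).Nonempty := by
        by_contra hcon
        rw [Set.not_nonempty_iff_eq_empty] at hcon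
        unfold BM2_F at hfx
        rw [hcon] at hfx
        simp at hfx
      have hn2 : (Prod.mk y ⁻¹' B).Nonempty := by
        by_contra hcon
        rw [Set.not_nonempty_iff_eq_empty] at hcon
        unfold BM2_F at hgy
        rw [hcon] at hgy
        simp at hgy
      have h1 := bm1 (BM2_cpt hA x) (BM2_cpt hB y) hn1 hn2
      have h2 : Prod.mk x ⁻¹' A + Prod.mk y ⁻¹' B ⊆ Prod.mk (x + y) ⁻¹' (A + B) := by
        rintro _ ⟨u, hu, v, hv, rfl⟩
        exact ⟨(x, u), hu, (y, v), hv, rfl⟩
      have h3 : volume (Prod.mk x ⁻¹' A) + volume (Prod.mk y ⁻¹' B)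
          ≤ volume (Prod.mk (x + y) ⁻¹' (A + B)) := h1.trans (measure_mono h2)
      have h4 : BM2_F A x + BM2_F B y ≤ BM2_F (A + B) (x + y) := by
        unfold BM2_F
        rw [← ENNReal.toReal_add (BM2_fin hA x) (BM2_fin hB y)]
        exact ENNReal.toReal_mono (BM2_fin hAB _) h3
      nlinarith
    · push Not at ht1
      have hS : ({x | t < BM2_F A x / a} : Set ℝ) = ∅ := by
        rw [Set.eq_empty_iff_forall_notMem]
        intro x hx
        rw [mem_setOf_eq, lt_div_iff₀ ha0] at hx
        have := le_ciSup (BM2_bdd hA) x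
        rw [← ha] at this
        nlinarith
      have hT : ({x | t < BM2_F B x / b} : Set ℝ) = ∅ := by
        rw [Set.eq_empty_iff_forall_notMem]
        intro x hx
        rw [mem_setOf_eq, lt_div_iff₀ hb0] at hx
        have := le_ciSup (BM2_bdd hB) x
        rw [← hb] at this
        nlinarith
      simp only [hS, hT, measure_empty, add_zero]
      exact bot_le
  rw [← ENNReal.ofReal_add (by positivity) (by positivity)] at hle
  exact (ENNReal.ofReal_le_ofReal_iff (by positivity)).1 hle

/-- Planar Brunn-Minkowski inequality for compact sets in the product plane.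
Proof (Bonnesen). If volume A = 0: A + B contains a translate of B. Same if volume B = 0.
Otherwise let f x = volume {y | (x, y) ∈ A}, g x = volume {y | (x, y) ∈ B},
h x = volume {y | (x, y) ∈ A + B}. These are upper semicontinuous (compact sets), f and g attain
their maxima a > 0, b > 0, and for 0 < t ≤ 1 the level sets {f ≥ t a}, {g ≥ t b} are nonempty and
compact. By `bm1` on sections, h (x + y) ≥ f x + g y when both sections are nonempty, so
{f ≥ t a} + {g ≥ t b} ⊆ {h ≥ t (a + b)} and `bm1` gives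
|{h ≥ t (a + b)}| ≥ |{f ≥ t a}| + |{g ≥ t b}|. Integrate over t in (0,1) (layer cake; the functions
f / a and g / b are bounded by 1): |A+B| = ∫ h ≥ (a + b) ∫_0^1 |{h ≥ t (a+b)}| dt
≥ (a + b) (|A| / a + |B| / b) ≥ (√|A| + √|B|) ^ 2 (the last step is
b |A| / a + a |B| / b ≥ 2 √(|A| |B|)). -/
theorem bm2 {A B : Set (ℝ × ℝ)} (hA : IsCompact A) (hB : IsCompact B) (hA0 : A.Nonempty)
    (hB0 : B.Nonempty) :
    √(volume A).toReal + √(volume B).toReal ≤ √(volume (A + B)).toReal := by
  have hAB : IsCompact (A + B) := hA.add hB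
  by_cases hA1 : (volume A).toReal = 0
  · rw [hA1, Real.sqrt_zero, zero_add]
    refine Real.sqrt_le_sqrt (ENNReal.toReal_mono hAB.measure_lt_top.ne ?_)
    obtain ⟨p, hp⟩ := hA0
    calc volume B = volume ((fun x => p + x) '' B) := by
          rw [Set.image_add_left, measure_preimage_add]
      _ ≤ volume (A + B) := by
          refine measure_mono ?_
          rintro _ ⟨q, hq, rfl⟩
          exact ⟨p, hp, q, hq, rfl⟩
  by_cases hB1 : (volume B).toReal = 0
  · rw [hB1, Real.sqrt_zero, add_zero]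
    refine Real.sqrt_le_sqrt (ENNReal.toReal_mono hAB.measure_lt_top.ne ?_)
    obtain ⟨p, hp⟩ := hB0
    calc volume A = volume ((fun x => p + x) '' A) := by
          rw [Set.image_add_left, measure_preimage_add]
      _ ≤ volume (A + B) := by
          refine measure_mono ?_
          rintro _ ⟨q, hq, rfl⟩
          exact ⟨q, hq, p, hp, by simp [add_comm]⟩
  obtain ⟨a, b, ha, hb, h⟩ := BM2_main hA hB hA1 hB1
  apply Real.le_sqrt_of_sq_le
  set P := √(volume A).toReal with hP
  set Q := √(volume B).toReal with hQ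
  have hP2 : (volume A).toReal = P ^ 2 := (Real.sq_sqrt ENNReal.toReal_nonneg).symm
  have hQ2 : (volume B).toReal = Q ^ 2 := (Real.sq_sqrt ENNReal.toReal_nonneg).symm
  rw [hP2, hQ2] at h
  have hab : 0 < a + b := add_pos ha hb
  rw [le_div_iff₀ hab] at h
  refine le_trans ?_ h
  have h5 : (P ^ 2 / a + Q ^ 2 / b) * (a + b) - (P + Q) ^ 2 = (b * P - a * Q) ^ 2 / (a * b) := by
    field_simp
    ring
  have h6 : 0 ≤ (b * P - a * Q) ^ 2 / (a * b) := by positivity
  linarith

end FB88
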