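import Pool.Agent.W_fa9b59_h88.Basic
import Pool.Agent.W_fa9b59_h88.BM2

set_option autoImplicit false

open MeasureTheory Metric Set
open scoped Pointwise RealInnerProductSpace

namespace FB88

/-- the linear identification of the euclidean plane with the product plane -/
def toProd : E → ℝ × ℝ := fun x => (x 0, x 1)

lemma toProd_add (x y : E) : toProd (x + y) = toProd x + toProd y := by
  simp [toProd]

lemma toProd_mp : MeasurePreserving toProd (volume : Measure E) (volume : Measure (ℝ × ℝ)) := by
  have h1 := EuclideanSpace.volume_preserving_symm_measurableEquiv_toLp (Fin 2)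
  have h2 : MeasurePreserving (MeasurableEquiv.finTwoArrow : (Fin 2 → ℝ) ≃ᵐ ℝ × ℝ)
      volume volume := volume_preserving_finTwoArrow ℝ
  have h3 := h2.comp h1
  exact h3

lemma toProd_continuous : Continuous toProd := by
  unfold toProd
  fun_prop

lemma toProd_injective : Function.Injective toProd := by
  intro x y h
  simp only [toProd, Prod.mk.injEq] at h
  ext i
  fin_cases i
  · exact h.1
  · exact h.2

lemma vol_toProd {A : Set E} (hA : IsCompact A) : volume (toProd '' A) = volume A := by
  have hm : MeasurableSet (toProd '' A) := (hA.image toProd_continuous).measurableSet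
  rw [← toProd_mp.measure_preimage hm.nullMeasurableSet, toProd_injective.preimage_image]

/-- Brunn-Minkowski in the euclidean plane, transferred from `bm2` by the volume preserving
linear identification of E with ℝ × ℝ (x ↦ (x 0, x 1)). -/
theorem bm {A B : Set E} (hA : Body A) (hB : Body B) :
    √(area A) + √(area B) ≤ √(area (A + B)) := by
  have h := bm2 (hA.2.1.image toProd_continuous) (hB.2.1.image toProd_continuous)
    (hA.2.2.image _) (hB.2.2.image _)
  have himg : toProd '' A + toProd '' B = toProd '' (A + B) := by
    ext p
    constructor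
    · rintro ⟨_, ⟨a, ha, rfl⟩, _, ⟨b, hb, rfl⟩, rfl⟩
      exact ⟨a + b, add_mem_add ha hb, toProd_add a b⟩
    · rintro ⟨_, ⟨a, ha, b, hb, rfl⟩, rfl⟩
      exact ⟨toProd a, mem_image_of_mem _ ha, toProd b, mem_image_of_mem _ hb, (toProd_add a b).symm⟩
  rw [himg, vol_toProd hA.2.1, vol_toProd hB.2.1, vol_toProd (hA.2.1.add hB.2.1)] at h
  exact h

end FB88
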