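import Pool.Agent.W_fa9b59_h88.Defs

set_option autoImplicit false

open MeasureTheory Metric Set
open scoped Pointwise RealInnerProductSpace

namespace FB88

/-- One-dimensional Brunn-Minkowski inequality for compact sets.
Proof: let a = max A and b = min B. The sets {b} + A and {a} + B are contained in A + B and
meet only in the point a + b (elements of the first are at most a + b, those of the second at
least a + b), so the measure of A + B is at least the sum of the measures. -/
theorem bm1 {A B : Set ℝ} (hA : IsCompact A) (hB : IsCompact B) (hA0 : A.Nonempty)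
    (hB0 : B.Nonempty) : volume A + volume B ≤ volume (A + B) := by
  obtain ⟨a, haA, hamax⟩ := hA.exists_isGreatest hA0
  obtain ⟨b, hbB, hbmin⟩ := hB.exists_isLeast hB0
  have h1 : volume (b +ᵥ A) = volume A := measure_vadd volume b A
  have h2 : volume (a +ᵥ B) = volume B := measure_vadd volume a B
  have hsub1 : b +ᵥ A ⊆ A + B := by
    rintro x ⟨y, hy, rfl⟩
    exact ⟨y, hy, b, hbB, by simp only [vadd_eq_add]; ring⟩
  have hsub2 : a +ᵥ B ⊆ A + B := by
    rintro x ⟨y, hy, rfl⟩
    exact ⟨a, haA, y, hy, by simp only [vadd_eq_add]⟩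
  have hint : (b +ᵥ A) ∩ (a +ᵥ B) ⊆ {a + b} := by
    rintro x ⟨⟨y, hy, hyx⟩, ⟨z, hz, hzx⟩⟩
    have e1 : b + y = x := hyx
    have e2 : a + z = x := hzx
    have e3 : y ≤ a := hamax hy
    have e4 : b ≤ z := hbmin hz
    rw [mem_singleton_iff]
    linarith
  have hdis : AEDisjoint volume (b +ᵥ A) (a +ᵥ B) :=
    measure_mono_null hint (by simp)
  have hmeas : NullMeasurableSet (a +ᵥ B) volume :=
    (hB.vadd a).measurableSet.nullMeasurableSet
  calc volume A + volume B = volume (b +ᵥ A) + volume (a +ᵥ B) := by rw [h1, h2]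
    _ = volume ((b +ᵥ A) ∪ (a +ᵥ B)) := (measure_union₀ hmeas hdis).symm
    _ ≤ volume (A + B) := measure_mono (union_subset hsub1 hsub2)

end FB88
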