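import Pool.Agent.W_fa9b59_h88.Defs

set_option autoImplicit false

open MeasureTheory Metric Set
open scoped Pointwise RealInnerProductSpace

namespace FB88

variable {C D : Set E}

lemma hs_empty (u : E) : hs (∅ : Set E) u = 0 := by
  simp [hs]

lemma bdd_of_compact (hC : IsCompact C) (u : E) :
    BddAbove ((fun x : E => ⟪u, x⟫) '' C) :=
  (hC.image (by fun_prop)).bddAbove

lemma le_hs (hC : IsCompact C) {x : E} (hx : x ∈ C) (u : E) : ⟪u, x⟫ ≤ hs C u :=
  le_csSup (bdd_of_compact hC u) ⟨x, hx, rfl⟩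

lemma hs_le (hC : C.Nonempty) {u : E} {c : ℝ} (h : ∀ x ∈ C, ⟪u, x⟫ ≤ c) : hs C u ≤ c := by
  refine csSup_le (hC.image _) ?_
  rintro _ ⟨x, hx, rfl⟩
  exact h x hx

lemma exists_hs (hC : IsCompact C) (hC0 : C.Nonempty) (u : E) :
    ∃ x ∈ C, ⟪u, x⟫ = hs C u := by
  obtain ⟨x, hx, hxm⟩ := hC.exists_isMaxOn hC0
    (f := fun x : E => ⟪u, x⟫) (by fun_prop)
  refine ⟨x, hx, le_antisymm (le_hs hC hx u) (hs_le hC0 fun y hy => hxm hy)⟩

lemma hs_mono (hCD : C ⊆ D) (hC0 : C.Nonempty) (hD : IsCompact D) (u : E) :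
    hs C u ≤ hs D u :=
  hs_le hC0 fun _ hx => le_hs hD (hCD hx) u

lemma hs_singleton (p u : E) : hs {p} u = ⟪u, p⟫ := by
  simp [hs]

lemma hs_add (hC : IsCompact C) (hC0 : C.Nonempty) (hD : IsCompact D) (hD0 : D.Nonempty)
    (u : E) : hs (C + D) u = hs C u + hs D u := by
  obtain ⟨x, hx, hxe⟩ := exists_hs hC hC0 u
  obtain ⟨y, hy, hye⟩ := exists_hs hD hD0 u
  apply le_antisymm
  · refine hs_le (hC0.add hD0) ?_
    rintro _ ⟨a, ha, b, hb, rfl⟩
    rw [inner_add_right]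
    exact add_le_add (le_hs hC ha u) (le_hs hD hb u)
  · rw [← hxe, ← hye, ← inner_add_right]
    exact le_hs (hC.add hD) (add_mem_add hx hy) u

lemma hs_smul (hC : IsCompact C) (hC0 : C.Nonempty) {t : ℝ} (ht : 0 ≤ t) (u : E) :
    hs (t • C) u = t * hs C u := by
  obtain ⟨x, hx, hxe⟩ := exists_hs hC hC0 u
  apply le_antisymm
  · refine hs_le hC0.smul_set ?_
    rintro _ ⟨a, ha, rfl⟩
    simp only [inner_smul_right]
    exact mul_le_mul_of_nonneg_left (le_hs hC ha u) ht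
  · rw [← hxe, ← inner_smul_right]
    exact le_hs (hC.smul t) (smul_mem_smul_set hx) u

lemma hs_neg (u : E) : hs (-C) u = hs C (-u) := by
  unfold hs
  congr 1
  ext r
  constructor
  · rintro ⟨x, hx, rfl⟩
    exact ⟨-x, hx, by simp⟩
  · rintro ⟨x, hx, rfl⟩
    exact ⟨-x, by simpa using hx, by simp⟩

lemma hs_dir_smul (hC : IsCompact C) (hC0 : C.Nonempty) {t : ℝ} (ht : 0 ≤ t) (u : E) :
    hs C (t • u) = t * hs C u := by
  obtain ⟨x, hx, hxe⟩ := exists_hs hC hC0 u
  obtain ⟨y, hy, hye⟩ := exists_hs hC hC0 (t • u)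
  apply le_antisymm
  · rw [← hye, real_inner_smul_left]
    exact mul_le_mul_of_nonneg_left (le_hs hC hy u) ht
  · rw [← hxe, ← real_inner_smul_left]
    exact le_hs hC hx _

lemma hs_zero_dir (C : Set E) : hs C 0 = 0 := by
  unfold hs
  rcases C.eq_empty_or_nonempty with h | h
  · simp [h]
  · simp [h.image_const]

/-- subadditivity in the direction -/
lemma hs_dir_add (hC : IsCompact C) (hC0 : C.Nonempty) (u v : E) :
    hs C (u + v) ≤ hs C u + hs C v := by
  refine hs_le hC0 fun x hx => ?_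
  rw [inner_add_left]
  exact add_le_add (le_hs hC hx u) (le_hs hC hx v)

lemma hs_neg_add_nonneg (hC : IsCompact C) (hC0 : C.Nonempty) (u : E) :
    0 ≤ hs C u + hs C (-u) := by
  obtain ⟨x, hx⟩ := hC0
  have h1 := le_hs hC hx u
  have h2 := le_hs hC hx (-u)
  rw [inner_neg_left] at h2
  linarith

lemma hs_lipschitz (hC : IsCompact C) (hC0 : C.Nonempty) {R : ℝ}
    (hR : ∀ x ∈ C, ‖x‖ ≤ R) (u v : E) : |hs C u - hs C v| ≤ ‖u - v‖ * R := by
  have key : ∀ a b : E, hs C a - hs C b ≤ ‖a - b‖ * R := by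
    intro a b
    obtain ⟨x, hx, hxe⟩ := exists_hs hC hC0 a
    have h1 := le_hs hC hx b
    have h2 : ⟪a, x⟫ - ⟪b, x⟫ ≤ ‖a - b‖ * ‖x‖ := by
      rw [← inner_sub_left]; exact real_inner_le_norm _ _
    have h3 : ‖a - b‖ * ‖x‖ ≤ ‖a - b‖ * R :=
      mul_le_mul_of_nonneg_left (hR x hx) (norm_nonneg _)
    linarith
  rw [abs_le]
  constructor
  · have := key v u
    rw [norm_sub_rev] at this
    linarith
  · exact key u v

lemma hs_continuous (hC : IsCompact C) (hC0 : C.Nonempty) : Continuous (hs C) := by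
  obtain ⟨R, hR⟩ := hC.isBounded.exists_norm_le
  have hR0 : 0 ≤ R := by
    obtain ⟨x, hx⟩ := hC0
    exact (norm_nonneg x).trans (hR x hx)
  have : LipschitzWith (Real.toNNReal R) (hs C) := by
    refine LipschitzWith.of_dist_le_mul fun u v => ?_
    rw [Real.dist_eq, dist_eq_norm, Real.coe_toNNReal R hR0, mul_comm]
    exact hs_lipschitz hC hC0 hR u v
  exact this.continuous

/-- a body is the intersection of its supporting half-planes -/
lemma mem_of_forall_le (hC : Body C) {x : E} (h : ∀ u : E, ⟪u, x⟫ ≤ hs C u) : x ∈ C := by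
  by_contra hx
  obtain ⟨f, a, hf1, hf2⟩ := geometric_hahn_banach_closed_point hC.1 hC.2.1.isClosed hx
  obtain ⟨u, hu⟩ := (InnerProductSpace.toDual ℝ E).surjective f
  have hfu : ∀ y, f y = ⟪u, y⟫ := fun y => by
    rw [← hu]; simp
  obtain ⟨y, hy, hye⟩ := exists_hs hC.2.1 hC.2.2 u
  have h1 := hf1 y hy
  rw [hfu] at h1
  rw [hfu] at hf2
  have h2 := h u
  linarith

lemma exists_sep (hC : Body C) {x : E} (hx : x ∉ C) : ∃ u : E, hs C u < ⟪u, x⟫ := by
  by_contra hcon
  push Not at hcon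
  exact hx (mem_of_forall_le hC hcon)

lemma subset_of_hs_le (hC : Body C) (hD : Body D) (h : ∀ u, hs C u ≤ hs D u) : C ⊆ D :=
  fun _ hx => mem_of_forall_le hD fun u => (le_hs hC.2.1 hx u).trans (h u)

lemma Body.add (hC : Body C) (hD : Body D) : Body (C + D) :=
  ⟨hC.1.add hD.1, hC.2.1.add hD.2.1, hC.2.2.add hD.2.2⟩

lemma Body.smul (hC : Body C) (t : ℝ) : Body (t • C) :=
  ⟨hC.1.smul t, hC.2.1.smul t, hC.2.2.smul_set⟩

lemma Body.neg (hC : Body C) : Body (-C) :=
  ⟨hC.1.neg, hC.2.1.neg, hC.2.2.neg⟩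

lemma Body.singleton (p : E) : Body ({p} : Set E) :=
  ⟨convex_singleton p, isCompact_singleton, singleton_nonempty p⟩

lemma tr_eq_vadd (v : E) (K : Set E) : tr v K = (fun x => v + x) '' K := by
  ext x
  constructor
  · intro hx
    exact ⟨x - v, hx, by simp⟩
  · rintro ⟨y, hy, rfl⟩
    simpa [tr] using hy

lemma tr_eq_add (v : E) (K : Set E) : tr v K = {v} + K := by
  rw [tr_eq_vadd, singleton_add]

lemma Body.tr (hC : Body C) (v : E) : Body (tr v C) := by
  rw [tr_eq_add]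
  exact (Body.singleton v).add hC

lemma hs_tr (hC : IsCompact C) (hC0 : C.Nonempty) (v u : E) :
    hs (tr v C) u = ⟪u, v⟫ + hs C u := by
  rw [tr_eq_add, hs_add isCompact_singleton (singleton_nonempty v) hC hC0, hs_singleton]

/-- support function of the convex hull of the union of two bodies -/
lemma Body.hull (hC : Body C) (hD : Body D) : Body (convexHull ℝ (C ∪ D)) := by
  refine ⟨convex_convexHull ℝ _, ?_, ?_⟩
  · rw [hC.1.convexHull_union hD.1 hC.2.2 hD.2.2]
    have himg : convexJoin ℝ C D =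
        (fun p : (E × E) × ℝ => (1 - p.2) • p.1.1 + p.2 • p.1.2) ''
          ((C ×ˢ D) ×ˢ Set.Icc (0 : ℝ) 1) := by
      ext x
      rw [mem_convexJoin]
      constructor
      · rintro ⟨a, ha, b, hb, hx⟩
        rw [segment_eq_image] at hx
        obtain ⟨t, ht, rfl⟩ := hx
        exact ⟨((a, b), t), ⟨⟨ha, hb⟩, ht⟩, rfl⟩
      · rintro ⟨⟨⟨a, b⟩, t⟩, ⟨⟨ha, hb⟩, ht⟩, rfl⟩
        refine ⟨a, ha, b, hb, ?_⟩
        rw [segment_eq_image]
        exact ⟨t, ht, rfl⟩
    rw [himg]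
    exact ((hC.2.1.prod hD.2.1).prod isCompact_Icc).image (by fun_prop)
  · exact (hC.2.2.mono subset_union_left).convexHull

lemma hs_hull (hC : Body C) (hD : Body D) (u : E) :
    hs (convexHull ℝ (C ∪ D)) u = max (hs C u) (hs D u) := by
  have hB := Body.hull hC hD
  apply le_antisymm
  · refine hs_le hB.2.2 fun x hx => ?_
    have hconv : Convex ℝ {y : E | ⟪u, y⟫ ≤ max (hs C u) (hs D u)} :=
      convex_halfSpace_le (innerSL ℝ u).isLinear _
    have hsub : C ∪ D ⊆ {y : E | ⟪u, y⟫ ≤ max (hs C u) (hs D u)} := by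
      rintro y (hy | hy)
      · exact (le_hs hC.2.1 hy u).trans (le_max_left _ _)
      · exact (le_hs hD.2.1 hy u).trans (le_max_right _ _)
    exact convexHull_min hsub hconv hx
  · refine max_le ?_ ?_
    · exact hs_mono (subset_union_left.trans (subset_convexHull ℝ _)) hC.2.2 hB.2.1 u
    · exact hs_mono (subset_union_right.trans (subset_convexHull ℝ _)) hD.2.2 hB.2.1 u

/-! ### area -/

lemma area_nonneg (C : Set E) : 0 ≤ area C := ENNReal.toReal_nonneg

lemma vol_lt_top (hC : IsCompact C) : volume C < ⊤ := hC.measure_lt_top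

lemma area_mono (h : C ⊆ D) (hD : IsCompact D) : area C ≤ area D :=
  ENNReal.toReal_mono (vol_lt_top hD).ne (measure_mono h)

lemma area_smul (t : ℝ) (C : Set E) : area (t • C) = t ^ 2 * area C := by
  unfold area
  rw [Measure.addHaar_smul]
  rw [ENNReal.toReal_mul, ENNReal.toReal_ofReal (abs_nonneg _)]
  simp

lemma area_neg (C : Set E) : area (-C) = area C := by
  unfold area
  rw [Measure.measure_neg]

lemma area_tr (v : E) (C : Set E) : area (tr v C) = area C := by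
  have h : tr v C = (fun x => x + (-v)) ⁻¹' C := by
    ext x; simp [tr, sub_eq_add_neg]
  unfold area
  rw [h, measure_preimage_add_right]

lemma area_singleton (p : E) : area {p} = 0 := by
  simp [area]

lemma Y_add {ι : Type} [Fintype ι] (w : ι → E) (hC : Body C) (hD : Body D) :
    Y w (C + D) = Y w C + Y w D := by
  simp only [Y, ← Finset.sum_add_distrib]
  exact Finset.sum_congr rfl fun _ _ => hs_add hC.2.1 hC.2.2 hD.2.1 hD.2.2 _

lemma Y_smul {ι : Type} [Fintype ι] (w : ι → E) (hC : Body C) {t : ℝ} (ht : 0 ≤ t) :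
    Y w (t • C) = t * Y w C := by
  simp only [Y, Finset.mul_sum]
  exact Finset.sum_congr rfl fun _ _ => hs_smul hC.2.1 hC.2.2 ht _

lemma Y_mono {ι : Type} [Fintype ι] (w : ι → E) (hCD : C ⊆ D) (hC : Body C) (hD : Body D) :
    Y w C ≤ Y w D :=
  Finset.sum_le_sum fun _ _ => hs_mono hCD hC.2.2 hD.2.1 _

lemma Y_nonneg {ι : Type} [Fintype ι] (w : ι → E) (hw : ∑ i, w i = 0) (hC : Body C) :
    0 ≤ Y w C := by
  obtain ⟨x, hx⟩ := hC.2.2
  have h1 : ∑ i, ⟪w i, x⟫ ≤ Y w C := Finset.sum_le_sum fun _ _ => le_hs hC.2.1 hx _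
  rw [← sum_inner, hw, inner_zero_left] at h1
  exact h1

lemma Phi_eq {ι : Type} [Fintype ι] (w : ι → E) (Q : Set E) :
    Phi w Q = Y w Q - Y w (-Q) := by
  simp [Phi, Y, hs_neg, Finset.sum_sub_distrib]

end FB88
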