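import Pool.Agent.W_fa9b59_h88.CrossDef

set_option autoImplicit false

open MeasureTheory Metric Set
open scoped Pointwise RealInnerProductSpace

namespace FB88

/-- four point convex combinations -/
lemma Cross_aux4 {K : Set E} (hK : Convex ℝ K) {x₁ x₂ x₃ x₄ : E} (h₁ : x₁ ∈ K) (h₂ : x₂ ∈ K)
    (h₃ : x₃ ∈ K) (h₄ : x₄ ∈ K) {k₁ k₂ k₃ k₄ : ℝ} (p₁ : 0 ≤ k₁) (p₂ : 0 ≤ k₂) (p₃ : 0 ≤ k₃)
    (p₄ : 0 ≤ k₄) (hs : k₁ + k₂ + k₃ + k₄ = 1) :
    k₁ • x₁ + k₂ • x₂ + k₃ • x₃ + k₄ • x₄ ∈ K := by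
  have key := hK.sum_mem (t := (Finset.univ : Finset (Fin 4))) (w := ![k₁, k₂, k₃, k₄])
    (z := ![x₁, x₂, x₃, x₄]) (by
      intro i _
      fin_cases i
      · exact p₁
      · exact p₂
      · exact p₃
      · exact p₄) (by
      rw [Fin.sum_univ_four]
      exact hs) (by
      intro i _
      fin_cases i
      · exact h₁
      · exact h₂
      · exact h₃
      · exact h₄)
  rw [Fin.sum_univ_four] at key
  exact key

/-- the normalised step: `c v` for the affine dependence `v` of the four points, the sign and the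
size chosen such that one of the four points lies in the convex hull -/
lemma Cross_norm {K : Set E} (hK : Convex ℝ K) {α₁ α₂ b₁ b₂ a : E} (h1 : α₁ ∈ K) (h2 : α₂ ∈ K)
    (h3 : b₁ ∈ K) (h4 : b₂ ∈ K) (n1 : α₁ - a ∉ K) (n2 : α₂ - a ∉ K) (n3 : b₁ + a ∉ K)
    (n4 : b₂ + a ∉ K) {s t : ℝ} (hs0 : 0 ≤ s) (hs1 : s ≤ 1) (ht0 : 0 ≤ t) (ht1 : t ≤ 1)
    (hp : a = (1 - s) • α₁ + s • α₂ - (1 - t) • b₁ - t • b₂)
    {x y z w : ℝ} (hsum : x + y + z + w = 0) (hxy : 0 ≤ x + y)
    (hrel : x • α₁ + y • α₂ + z • b₁ + w • b₂ = 0)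
    (hx : x ≤ 1 - s) (hy : y ≤ s) (hz : -z ≤ 1 - t) (hw : -w ≤ t)
    (heq : x = 1 - s ∨ y = s ∨ -z = 1 - t ∨ -w = t) : False := by
  rcases heq with h | h | h | h
  · apply n2
    have e : α₂ - a = (-(1 - s) + x) • α₁ + ((1 - s) + y) • α₂ + ((1 - t) + z) • b₁
        + (t + w) • b₂ := by
      rw [hp]
      linear_combination (norm := module) -hrel
    rw [e]
    exact Cross_aux4 hK h1 h2 h3 h4 (by linarith) (by linarith) (by linarith) (by linarith)
      (by linarith)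
  · apply n1
    have e : α₁ - a = (s + x) • α₁ + (-s + y) • α₂ + ((1 - t) + z) • b₁ + (t + w) • b₂ := by
      rw [hp]
      linear_combination (norm := module) -hrel
    rw [e]
    exact Cross_aux4 hK h1 h2 h3 h4 (by linarith) (by linarith) (by linarith) (by linarith)
      (by linarith)
  · apply n4
    have e : b₂ + a = ((1 - s) - x) • α₁ + (s - y) • α₂ + (-(1 - t) - z) • b₁
        + ((1 - t) - w) • b₂ := by
      rw [hp]
      linear_combination (norm := module) hrel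
    rw [e]
    exact Cross_aux4 hK h1 h2 h3 h4 (by linarith) (by linarith) (by linarith) (by linarith)
      (by linarith)
  · apply n3
    have e : b₁ + a = ((1 - s) - x) • α₁ + (s - y) • α₂ + (t - z) • b₁ + (-t - w) • b₂ := by
      rw [hp]
      linear_combination (norm := module) hrel
    rw [e]
    exact Cross_aux4 hK h1 h2 h3 h4 (by linarith) (by linarith) (by linarith) (by linarith)
      (by linarith)

/-- the step before scaling -/
lemma Cross_core {K : Set E} (hK : Convex ℝ K) {α₁ α₂ b₁ b₂ a : E} (h1 : α₁ ∈ K) (h2 : α₂ ∈ K)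
    (h3 : b₁ ∈ K) (h4 : b₂ ∈ K) (n1 : α₁ - a ∉ K) (n2 : α₂ - a ∉ K) (n3 : b₁ + a ∉ K)
    (n4 : b₂ + a ∉ K) {s t : ℝ} (hs0 : 0 < s) (hs1 : s < 1) (ht0 : 0 < t) (ht1 : t < 1)
    (hp : a = (1 - s) • α₁ + s • α₂ - (1 - t) • b₁ - t • b₂)
    {x y z w : ℝ} (hsum : x + y + z + w = 0) (hxy : 0 ≤ x + y)
    (hrel : x • α₁ + y • α₂ + z • b₁ + w • b₂ = 0)
    (hne : ¬ (x = 0 ∧ y = 0 ∧ z = 0 ∧ w = 0)) : False := by
  have hs' : 0 < 1 - s := by linarith
  have ht' : 0 < 1 - t := by linarith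
  set M := max (max (x / (1 - s)) (y / s)) (max (-z / (1 - t)) (-w / t)) with hM
  have m1 : x / (1 - s) ≤ M := le_trans (le_max_left _ _) (le_max_left _ _)
  have m2 : y / s ≤ M := le_trans (le_max_right _ _) (le_max_left _ _)
  have m3 : -z / (1 - t) ≤ M := le_trans (le_max_left _ _) (le_max_right _ _)
  have m4 : -w / t ≤ M := le_trans (le_max_right _ _) (le_max_right _ _)
  have hMeq : x / (1 - s) = M ∨ y / s = M ∨ -z / (1 - t) = M ∨ -w / t = M := by
    rcases max_choice (max (x / (1 - s)) (y / s)) (max (-z / (1 - t)) (-w / t)) with h | h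
    · rcases max_choice (x / (1 - s)) (y / s) with h' | h'
      · left
        rw [hM, h, h']
      · right; left
        rw [hM, h, h']
    · rcases max_choice (-z / (1 - t)) (-w / t) with h' | h'
      · right; right; left
        rw [hM, h, h']
      · right; right; right
        rw [hM, h, h']
  have l1 : x ≤ M * (1 - s) := (div_le_iff₀ hs').mp m1
  have l2 : y ≤ M * s := (div_le_iff₀ hs0).mp m2
  have l3 : -z ≤ M * (1 - t) := (div_le_iff₀ ht').mp m3
  have l4 : -w ≤ M * t := (div_le_iff₀ ht0).mp m4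
  have hMpos : 0 < M := by
    by_contra hcon
    have hM0 : M ≤ 0 := not_lt.mp hcon
    have k1 : M * (1 - s) ≤ 0 := mul_nonpos_of_nonpos_of_nonneg hM0 hs'.le
    have k2 : M * s ≤ 0 := mul_nonpos_of_nonpos_of_nonneg hM0 hs0.le
    have k3 : M * (1 - t) ≤ 0 := mul_nonpos_of_nonpos_of_nonneg hM0 ht'.le
    have k4 : M * t ≤ 0 := mul_nonpos_of_nonpos_of_nonneg hM0 ht0.le
    exact hne ⟨by linarith, by linarith, by linarith, by linarith⟩
  have hMi : 0 < M⁻¹ := inv_pos.mpr hMpos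
  have hMM : M⁻¹ * M = 1 := inv_mul_cancel₀ hMpos.ne'
  have r1 : M⁻¹ * x ≤ 1 - s := by
    have := mul_le_mul_of_nonneg_left l1 hMi.le
    rwa [← mul_assoc, hMM, one_mul] at this
  have r2 : M⁻¹ * y ≤ s := by
    have := mul_le_mul_of_nonneg_left l2 hMi.le
    rwa [← mul_assoc, hMM, one_mul] at this
  have r3 : -(M⁻¹ * z) ≤ 1 - t := by
    have := mul_le_mul_of_nonneg_left l3 hMi.le
    rw [← mul_assoc, hMM, one_mul] at this
    linarith
  have r4 : -(M⁻¹ * w) ≤ t := by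
    have := mul_le_mul_of_nonneg_left l4 hMi.le
    rw [← mul_assoc, hMM, one_mul] at this
    linarith
  refine Cross_norm hK h1 h2 h3 h4 n1 n2 n3 n4 hs0.le hs1.le ht0.le ht1.le hp
    (x := M⁻¹ * x) (y := M⁻¹ * y) (z := M⁻¹ * z) (w := M⁻¹ * w) ?_ ?_ ?_ r1 r2 r3 r4 ?_
  · have : M⁻¹ * (x + y + z + w) = 0 := by rw [hsum, mul_zero]
    linarith
  · have : 0 ≤ M⁻¹ * (x + y) := mul_nonneg hMi.le hxy
    linarith
  · have : M⁻¹ • (x • α₁ + y • α₂ + z • b₁ + w • b₂) = 0 := by rw [hrel, smul_zero]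
    rw [← this]
    module
  · rcases hMeq with h | h | h | h
    · left
      have e : x = M * (1 - s) := (div_eq_iff hs'.ne').mp h
      rw [e, ← mul_assoc, hMM, one_mul]
    · right; left
      have e : y = M * s := (div_eq_iff hs0.ne').mp h
      rw [e, ← mul_assoc, hMM, one_mul]
    · right; right; left
      have e : -z = M * (1 - t) := (div_eq_iff ht'.ne').mp h
      have e' : -(M⁻¹ * z) = M⁻¹ * (-z) := by ring
      rw [e', e, ← mul_assoc, hMM, one_mul]
    · right; right; right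
      have e : -w = M * t := (div_eq_iff ht0.ne').mp h
      have e' : -(M⁻¹ * w) = M⁻¹ * (-w) := by ring
      rw [e', e, ← mul_assoc, hMM, one_mul]

/-- four points of the plane are affinely dependent -/
lemma Cross_dep (α₁ α₂ b₁ b₂ : E) : ∃ x y z w : ℝ, x + y + z + w = 0 ∧
    x • α₁ + y • α₂ + z • b₁ + w • b₂ = 0 ∧ ¬ (x = 0 ∧ y = 0 ∧ z = 0 ∧ w = 0) := by
  have hli : ¬ LinearIndependent ℝ ![α₁ - b₂, α₂ - b₂, b₁ - b₂] := by
    intro hcon
    have := hcon.fintype_card_le_finrank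
    rw [finrank_euclideanSpace_fin, Fintype.card_fin] at this
    omega
  obtain ⟨g, hg, i, hi⟩ := Fintype.not_linearIndependent_iff.mp hli
  rw [Fin.sum_univ_three] at hg
  have hg' : g 0 • (α₁ - b₂) + g 1 • (α₂ - b₂) + g 2 • (b₁ - b₂) = 0 := hg
  refine ⟨g 0, g 1, g 2, -(g 0 + g 1 + g 2), by ring, ?_, ?_⟩
  · rw [← hg']
    module
  · rintro ⟨e0, e1, e2, -⟩
    apply hi
    fin_cases i
    · exact e0
    · exact e1
    · exact e2

/-- the configuration after translation -/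
lemma Cross_main {K : Set E} (hK : Convex ℝ K) {α₁ α₂ b₁ b₂ a : E} (h1 : α₁ ∈ K) (h2 : α₂ ∈ K)
    (h3 : b₁ ∈ K) (h4 : b₂ ∈ K) (n1 : α₁ - a ∉ K) (n2 : α₂ - a ∉ K) (n3 : b₁ + a ∉ K)
    (n4 : b₂ + a ∉ K) {s t : ℝ} (hs0 : 0 ≤ s) (hs1 : s ≤ 1) (ht0 : 0 ≤ t) (ht1 : t ≤ 1)
    (hp : a = (1 - s) • α₁ + s • α₂ - (1 - t) • b₁ - t • b₂) : False := by
  have hs0' : 0 < s := by
    rcases hs0.lt_or_eq with h | h
    · exact h
    · exfalso
      apply n1
      have e : α₁ - a = (0 : ℝ) • α₁ + (0 : ℝ) • α₂ + (1 - t) • b₁ + t • b₂ := by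
        rw [hp, ← h]
        module
      rw [e]
      exact Cross_aux4 hK h1 h2 h3 h4 le_rfl le_rfl (by linarith) ht0 (by ring)
  have hs1' : s < 1 := by
    rcases hs1.lt_or_eq with h | h
    · exact h
    · exfalso
      apply n2
      have e : α₂ - a = (0 : ℝ) • α₁ + (0 : ℝ) • α₂ + (1 - t) • b₁ + t • b₂ := by
        rw [hp, h]
        module
      rw [e]
      exact Cross_aux4 hK h1 h2 h3 h4 le_rfl le_rfl (by linarith) ht0 (by ring)
  have ht0' : 0 < t := by
    rcases ht0.lt_or_eq with h | h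
    · exact h
    · exfalso
      apply n3
      have e : b₁ + a = (1 - s) • α₁ + s • α₂ + (0 : ℝ) • b₁ + (0 : ℝ) • b₂ := by
        rw [hp, ← h]
        module
      rw [e]
      exact Cross_aux4 hK h1 h2 h3 h4 (by linarith) hs0 le_rfl le_rfl (by ring)
  have ht1' : t < 1 := by
    rcases ht1.lt_or_eq with h | h
    · exact h
    · exfalso
      apply n4
      have e : b₂ + a = (1 - s) • α₁ + s • α₂ + (0 : ℝ) • b₁ + (0 : ℝ) • b₂ := by
        rw [hp, h]
        module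
      rw [e]
      exact Cross_aux4 hK h1 h2 h3 h4 (by linarith) hs0 le_rfl le_rfl (by ring)
  obtain ⟨x, y, z, w, hsum, hrel, hne⟩ := Cross_dep α₁ α₂ b₁ b₂
  rcases le_total 0 (x + y) with hxy | hxy
  · exact Cross_core hK h1 h2 h3 h4 n1 n2 n3 n4 hs0' hs1' ht0' ht1' hp hsum hxy hrel hne
  · refine Cross_core hK h1 h2 h3 h4 n1 n2 n3 n4 hs0' hs1' ht0' ht1' hp
      (x := -x) (y := -y) (z := -z) (w := -w) (by linarith) (by linarith) ?_ ?_
    · have : -(x • α₁ + y • α₂ + z • b₁ + w • b₂) = 0 := by rw [hrel, neg_zero]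
      rw [← this]
      module
    · rintro ⟨e0, e1, e2, e3⟩
      exact hne ⟨by linarith, by linarith, by linarith, by linarith⟩

/-- Two translates of a convex set have no crossing quadruple.
Proof. By translation take the translates K and K + a (a = v₂ - v₁). Suppose α₁, α₂ ∈ K \ (K + a),
β₁, β₂ ∈ (K + a) \ K and p ∈ [α₁, α₂] ∩ [β₁, β₂]. Put b i = β i - a ∈ K, so b i + a ∉ K, α i - a ∉ K,
p ∈ [α₁, α₂], p - a ∈ [b₁, b₂]; a ≠ 0. Use coordinates with a vertical (φ(x) = det(a, x) the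
horizontal coordinate, height h(x) = ⟪a, x⟫). Let W = conv {α₁, α₂, b₁, b₂} ⊆ K.
If φ(α₁) = φ(α₂): α₁, α₂, p, p - a lie on one vertical line, the higher α i has
height ≥ height of p, so α i - a lies on the segment from p - a to α i, hence in K: contradiction.
If φ(b₁) = φ(b₂): the lower b i has height ≤ that of p - a, so b i + a is on the segment from b i
to p, in K: contradiction. Otherwise number so that φ(α₁) < φ(α₂), φ(b₁) < φ(b₂). On the common
interval [c, d] of horizontal coordinates (c = max of φ(α₁), φ(b₁), d = min of φ(α₂), φ(b₂), it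
contains φ(p)) let D(x) = (height of line α₁α₂ at x) - (height of line b₁b₂ at x), an affine
function of x with D(φ(p)) = h(a). So D ≥ h(a) at c or at d, say at an end x₀. If x₀ = φ(α i):
the point q of [b₁, b₂] with φ(q) = x₀ has height ≤ h(α i) - h(a), so α i - a is on the segment
[q, α i] ⊆ K, contradiction. If x₀ = φ(b i): the point q of [α₁, α₂] above it has height
≥ h(b i) + h(a), so b i + a ∈ [b i, q] ⊆ K, contradiction. -/
theorem no_cross_tr {K : Set E} (hK : Convex ℝ K) (v₁ v₂ : E) : ¬ CrossQ (tr v₁ K) (tr v₂ K) := by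
  rintro ⟨α₁, ⟨hα₁, nα₁⟩, α₂, ⟨hα₂, nα₂⟩, β₁, ⟨hβ₁, nβ₁⟩, β₂, ⟨hβ₂, nβ₂⟩, p, hpα, hpβ⟩
  obtain ⟨c, s, hc, hs, hcs, hp1⟩ := hpα
  obtain ⟨d, t, hd, ht, hdt, hp2⟩ := hpβ
  have hc' : c = 1 - s := by linarith
  have hd' : d = 1 - t := by linarith
  subst hc' hd'
  refine Cross_main hK (α₁ := α₁ - v₁) (α₂ := α₂ - v₁) (b₁ := β₁ - v₂) (b₂ := β₂ - v₂)
    (a := v₂ - v₁) hα₁ hα₂ hβ₁ hβ₂ ?_ ?_ ?_ ?_ (s := s) (t := t) hs (by linarith) ht
    (by linarith) ?_
  · intro h
    apply nα₁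
    have e : α₁ - v₁ - (v₂ - v₁) = α₁ - v₂ := by abel
    rw [e] at h
    exact h
  · intro h
    apply nα₂
    have e : α₂ - v₁ - (v₂ - v₁) = α₂ - v₂ := by abel
    rw [e] at h
    exact h
  · intro h
    apply nβ₁
    have e : β₁ - v₂ + (v₂ - v₁) = β₁ - v₁ := by abel
    rw [e] at h
    exact h
  · intro h
    apply nβ₂
    have e : β₂ - v₂ + (v₂ - v₁) = β₂ - v₁ := by abel
    rw [e] at h
    exact h
  · have e := hp1.trans hp2.symm
    linear_combination (norm := module) -e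

end FB88
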