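import Pool.Agent.W_fa9b59_h88.Basic

set_option autoImplicit false

open MeasureTheory Metric Set
open scoped Pointwise RealInnerProductSpace

namespace FB88

lemma LineLem_inner (f x : E) : ⟪f, x⟫ = f 0 * x 0 + f 1 * x 1 := by
  rw [PiLp.inner_apply, Fin.sum_univ_two]
  simp [mul_comm]

lemma LineLem_par {f d y : E} (hf : f ≠ 0) (hd : d ≠ 0) (h1 : ⟪f, d⟫ = 0) (h2 : ⟪f, y⟫ = 0) :
    ∃ t : ℝ, y = t • d := by
  rw [LineLem_inner] at h1 h2
  have hd' : d 0 ≠ 0 ∨ d 1 ≠ 0 := by
    by_contra hcon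
    push Not at hcon
    apply hd
    ext i
    fin_cases i
    · exact hcon.1
    · exact hcon.2
  have hf' : f 0 ≠ 0 ∨ f 1 ≠ 0 := by
    by_contra hcon
    push Not at hcon
    apply hf
    ext i
    fin_cases i
    · exact hcon.1
    · exact hcon.2
  have hcr : d 0 * y 1 - d 1 * y 0 = 0 := by
    rcases hf' with h | h
    · have : f 0 * (d 0 * y 1 - d 1 * y 0) = 0 := by
        linear_combination y 1 * h1 - d 1 * h2
      exact (mul_eq_zero.1 this).resolve_left h
    · have : f 1 * (d 0 * y 1 - d 1 * y 0) = 0 := by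
        linear_combination d 0 * h2 - y 0 * h1
      exact (mul_eq_zero.1 this).resolve_left h
  rcases hd' with h | h
  · refine ⟨y 0 / d 0, ?_⟩
    ext i
    fin_cases i
    · simp [h]
    · simp only [Fin.mk_one, PiLp.smul_apply, smul_eq_mul, Fin.isValue]
      field_simp
      linear_combination hcr
  · refine ⟨y 1 / d 1, ?_⟩
    ext i
    fin_cases i
    · simp only [Fin.zero_eta, PiLp.smul_apply, smul_eq_mul, Fin.isValue]
      field_simp
      linear_combination -hcr
    · simp [h]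

/-- A ∩ L for a crossing: let b₁, b₂ ∉ A (A convex), z ∈ A ∩ segment b₁ b₂, f ≠ 0,
⟪f, b₁⟫ = ⟪f, b₂⟫ = c. Then every x ∈ A with ⟪f, x⟫ = c is in the open segment (b₁, b₂).
Proof: points of the line L = {⟪f, x⟫ = c} are b₁ + t (b₂ - b₁) (b₁ ≠ b₂ because
z ≠ b₁: z ∈ A); z has t in (0, 1); if x had t ≤ 0 then b₁ ∈ [x, z] ⊆ A, if t ≥ 1 then
b₂ ∈ [z, x] ⊆ A. (dimension 2 is used: x - b₁ and b₂ - b₁ are both orthogonal to f ≠ 0, hence
parallel.) -/
theorem line_inter {A : Set E} (hA : Convex ℝ A) {b₁ b₂ z : E} (hb₁ : b₁ ∉ A) (hb₂ : b₂ ∉ A)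
    (hz : z ∈ A) (hzs : z ∈ segment ℝ b₁ b₂) {f : E} (hf : f ≠ 0) {c : ℝ} (h₁ : ⟪f, b₁⟫ = c)
    (h₂ : ⟪f, b₂⟫ = c) : ∀ x ∈ A, ⟪f, x⟫ = c → x ∈ openSegment ℝ b₁ b₂ := by
  intro x hx hxc
  have hne : b₂ - b₁ ≠ 0 := by
    intro h
    rw [sub_eq_zero] at h
    rw [h, segment_same, mem_singleton_iff] at hzs
    exact hb₁ (hzs ▸ hz)
  obtain ⟨t, ht⟩ := LineLem_par (y := x - b₁) hf hne
    (by rw [inner_sub_right, h₁, h₂, sub_self]) (by rw [inner_sub_right, h₁, hxc, sub_self])
  rw [segment_eq_image'] at hzs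
  obtain ⟨s, ⟨hs0, hs1⟩, hs⟩ := hzs
  have hzs' : z = b₁ + s • (b₂ - b₁) := hs.symm
  have hx' : x = b₁ + t • (b₂ - b₁) := by rw [← ht]; abel
  have hs0' : 0 < s := by
    rcases hs0.lt_or_eq with h | h
    · exact h
    · exfalso
      rw [← h, zero_smul, add_zero] at hzs'
      exact hb₁ (hzs' ▸ hz)
  have hs1' : s < 1 := by
    rcases hs1.lt_or_eq with h | h
    · exact h
    · exfalso
      rw [h, one_smul] at hzs'
      apply hb₂
      have : z = b₂ := by rw [hzs']; abel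
      exact this ▸ hz
  have ht0 : 0 < t := by
    by_contra hcon
    push Not at hcon
    apply hb₁
    have hpos : 0 < s - t := by linarith
    have : b₁ = (s / (s - t)) • x + (-t / (s - t)) • z := by
      rw [hx', hzs']
      have e1 : s / (s - t) + -t / (s - t) = 1 := by field_simp; ring
      have e2 : s / (s - t) * t + -t / (s - t) * s = 0 := by ring
      calc b₁ = (1 : ℝ) • b₁ + (0 : ℝ) • (b₂ - b₁) := by simp
        _ = _ := by
          rw [← e1, ← e2]
          module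
    rw [this]
    exact hA hx hz (div_nonneg hs0 hpos.le) (div_nonneg (by linarith) hpos.le)
      (by field_simp; ring)
  have ht1 : t < 1 := by
    by_contra hcon
    push Not at hcon
    apply hb₂
    have hpos : 0 < t - s := by linarith
    have : b₂ = ((1 - s) / (t - s)) • x + ((t - 1) / (t - s)) • z := by
      rw [hx', hzs']
      have e1 : (1 - s) / (t - s) + (t - 1) / (t - s) = 1 := by field_simp; ring
      have e2 : (1 - s) / (t - s) * t + (t - 1) / (t - s) * s = 1 := by field_simp; ring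
      calc b₂ = (1 : ℝ) • b₁ + (1 : ℝ) • (b₂ - b₁) := by simp
        _ = ((1 - s) / (t - s) + (t - 1) / (t - s)) • b₁ +
            ((1 - s) / (t - s) * t + (t - 1) / (t - s) * s) • (b₂ - b₁) := by rw [e1, e2]
        _ = _ := by module
    rw [this]
    exact hA hx hz (div_nonneg (by linarith) hpos.le) (div_nonneg (by linarith) hpos.le)
      (by field_simp; ring)
  refine ⟨1 - t, t, by linarith, ht0, by ring, ?_⟩
  rw [hx']
  module

/-- the normal of the line through two points -/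
lemma exists_normal {p q : E} (h : p ≠ q) : ∃ f : E, f ≠ 0 ∧ ⟪f, p⟫ = ⟪f, q⟫ := by
  refine ⟨J (p - q), ?_, ?_⟩
  · intro h0
    apply h
    have h1 : (J (p - q)) 0 = 0 := by rw [h0]; rfl
    have h2 : (J (p - q)) 1 = 0 := by rw [h0]; rfl
    simp only [J, PiLp.toLp_apply, Matrix.cons_val_zero, Matrix.cons_val_one, PiLp.sub_apply] at h1 h2
    ext i
    fin_cases i
    · exact sub_eq_zero.1 h2
    · exact sub_eq_zero.1 (neg_eq_zero.1 h1)
  · rw [LineLem_inner, LineLem_inner]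
    simp only [J, PiLp.toLp_apply, Matrix.cons_val_zero, Matrix.cons_val_one, PiLp.sub_apply]
    ring

/-- segment between the two sides meets the line inside the segment, for A convex -/
lemma exists_cross {A : Set E} (hA : Convex ℝ A) {x y f : E} {c : ℝ} (hx : x ∈ A) (hy : y ∈ A)
    (hxc : ⟪f, x⟫ ≤ c) (hyc : c ≤ ⟪f, y⟫) : ∃ z ∈ A, z ∈ segment ℝ x y ∧ ⟪f, z⟫ = c := by
  rcases eq_or_lt_of_le (hxc.trans hyc) with h | h
  · exact ⟨x, hx, left_mem_segment ℝ x y, by linarith⟩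
  · have hpos : 0 < ⟪f, y⟫ - ⟪f, x⟫ := by linarith
    have hmem : ((⟪f, y⟫ - c) / (⟪f, y⟫ - ⟪f, x⟫)) • x +
        ((c - ⟪f, x⟫) / (⟪f, y⟫ - ⟪f, x⟫)) • y ∈ segment ℝ x y :=
      ⟨_, _, div_nonneg (by linarith) hpos.le, div_nonneg (by linarith) hpos.le,
        by field_simp; ring, rfl⟩
    refine ⟨_, hA.segment_subset hx hy hmem, hmem, ?_⟩
    rw [inner_add_right, inner_smul_right, inner_smul_right]
    field_simp
    ring

end FB88
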