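import Pool.Agent.W_fa9b59_h88.StepA
import Pool.Agent.W_fa9b59_h88.LineLem
import Pool.Agent.W_fa9b59_h88.Cross

set_option autoImplicit false

open MeasureTheory Metric Set
open scoped Pointwise RealInnerProductSpace

namespace FB88

lemma CellStep_inner {f a b z : E} (hz : z ∈ segment ℝ a b) :
    ∃ s t : ℝ, 0 ≤ s ∧ 0 ≤ t ∧ s + t = 1 ∧ ⟪f, z⟫ = s * ⟪f, a⟫ + t * ⟪f, b⟫ := by
  obtain ⟨s, t, hs, ht, hst, rfl⟩ := hz
  exact ⟨s, t, hs, ht, hst, by rw [inner_add_right, inner_smul_right, inner_smul_right]⟩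

lemma CellStep_side {f a b z : E} {c : ℝ} (hz : z ∈ segment ℝ a b) (hc : ⟪f, z⟫ = c) :
    (⟪f, a⟫ ≤ c ∧ c ≤ ⟪f, b⟫) ∨ (⟪f, b⟫ ≤ c ∧ c ≤ ⟪f, a⟫) := by
  obtain ⟨s, t, hs, ht, hst, h⟩ := CellStep_inner (f := f) hz
  rw [hc] at h
  have hs1 : s = 1 - t := by linarith
  have ht1 : t ≤ 1 := by linarith
  rcases le_total ⟪f, a⟫ ⟪f, b⟫ with h1 | h1
  · left
    constructor <;> rw [h, hs1] <;> nlinarith
  · right
    constructor <;> rw [h, hs1] <;> nlinarith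

/-- the conclusion for two sets with the containers -/
def CellStep_imp (A B M₁ M₂ : Set E) : Prop :=
  ∃ A' B', Body A' ∧ Body B' ∧ A' ⊆ M₁ ∧ B' ⊆ M₂ ∧ A ∪ B ⊆ A' ∪ B' ∧
      psi A' + psi B' < psi A + psi B

lemma CellStep_swap {A B M₁ M₂ : Set E} (h : CellStep_imp A B M₁ M₂) :
    CellStep_imp B A M₂ M₁ := by
  obtain ⟨A', B', h1, h2, h3, h4, h5, h6⟩ := h
  exact ⟨B', A', h2, h1, h4, h3, by rwa [union_comm B A, union_comm B' A'], by linarith⟩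

/-- first level: caps -/
lemma CellStep_caps {A B M : Set E} (hA : Body A) (hB : Body B) (hM : Convex ℝ M) (hBM : B ⊆ M)
    {b₁ b₂ : E} (hb₁ : b₁ ∈ B \ A) (hb₂ : b₂ ∈ B \ A) (hb : b₁ ≠ b₂) {f : E} {c : ℝ}
    (hAL : ∀ x ∈ A, ⟪f, x⟫ = c → x ∈ openSegment ℝ b₁ b₂) {a₁ a₂ : E} (ha₁ : a₁ ∈ A \ B)
    (ha₂ : a₂ ∈ A \ B) (h1 : ⟪f, a₁⟫ ≤ c) (h2 : c ≤ ⟪f, a₂⟫) :
    CellStep_imp A B A M ∨
      ((∃ x ∈ A, ⟪f, x⟫ ≤ c ∧ x ∉ M) ∧ (∃ y ∈ A, c ≤ ⟪f, y⟫ ∧ y ∉ M)) := by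
  by_cases k1 : A ∩ {x | c ≤ ⟪f, x⟫} ⊆ M
  · left
    exact step_exch hA hB hM hBM hb₁ hb₂ hb hAL ha₂ h2 ha₁.1 h1 k1
  by_cases k2 : A ∩ {x | ⟪f, x⟫ ≤ c} ⊆ M
  · left
    refine step_exch (f := -f) (c := -c) hA hB hM hBM hb₁ hb₂ hb ?_ ha₁ ?_ ha₂.1 ?_ ?_
    · intro x hx hxc
      rw [inner_neg_left, neg_inj] at hxc
      exact hAL x hx hxc
    · rw [inner_neg_left]
      linarith
    · rw [inner_neg_left]
      linarith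
    · rintro x ⟨hx, hxc⟩
      refine k2 ⟨hx, ?_⟩
      change -c ≤ ⟪-f, x⟫ at hxc
      rw [inner_neg_left] at hxc
      change ⟪f, x⟫ ≤ c
      linarith
  right
  rw [not_subset] at k1 k2
  obtain ⟨y, ⟨hy, hyc⟩, hyM⟩ := k1
  obtain ⟨x, ⟨hx, hxc⟩, hxM⟩ := k2
  exact ⟨⟨x, hx, hxc, hxM⟩, ⟨y, hy, hyc, hyM⟩⟩

/-- one level: an improvement or a new pair of points -/
lemma CellStep_cross {A B M : Set E} (hA : Body A) (hB : Body B) (hM : Convex ℝ M) (hBM : B ⊆ M)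
    {a₁ a₂ b₁ b₂ z : E} (ha₁ : a₁ ∈ A \ B) (ha₂ : a₂ ∈ A \ B) (hb₁ : b₁ ∈ B \ A)
    (hb₂ : b₂ ∈ B \ A) (hz : z ∈ segment ℝ a₁ a₂) (hz' : z ∈ segment ℝ b₁ b₂) :
    CellStep_imp A B A M ∨ ∃ x ∈ A, ∃ y ∈ A, x ∉ M ∧ y ∉ M ∧
      ∃ w ∈ segment ℝ x y, w ∈ segment ℝ b₁ b₂ := by
  have hzA : z ∈ A := hA.1.segment_subset ha₁.1 ha₂.1 hz
  have hb : b₁ ≠ b₂ := by
    rintro rfl
    rw [segment_same, mem_singleton_iff] at hz'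
    rw [hz'] at hzA
    exact hb₁.2 hzA
  obtain ⟨f, hf, hfb⟩ := exists_normal hb
  have hAL := line_inter hA.1 hb₁.2 hb₂.2 hzA hz' hf (c := ⟪f, b₁⟫) rfl hfb.symm
  have hzc : ⟪f, z⟫ = ⟪f, b₁⟫ := by
    obtain ⟨s, t, hs, ht, hst, h⟩ := CellStep_inner (f := f) hz'
    rw [h, ← hfb, ← add_mul, hst, one_mul]
  have key : CellStep_imp A B A M ∨
      ((∃ x ∈ A, ⟪f, x⟫ ≤ ⟪f, b₁⟫ ∧ x ∉ M) ∧ (∃ y ∈ A, ⟪f, b₁⟫ ≤ ⟪f, y⟫ ∧ y ∉ M)) := by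
    rcases CellStep_side hz hzc with h | h
    · exact CellStep_caps hA hB hM hBM hb₁ hb₂ hb hAL ha₁ ha₂ h.1 h.2
    · exact CellStep_caps hA hB hM hBM hb₁ hb₂ hb hAL ha₂ ha₁ h.1 h.2
  rcases key with h | ⟨⟨x, hx, hxc, hxM⟩, ⟨y, hy, hyc, hyM⟩⟩
  · exact Or.inl h
  · right
    obtain ⟨w, hwA, hw, hwc⟩ := exists_cross hA.1 hx hy hxc hyc
    exact ⟨x, hx, y, hy, hxM, hyM, w, hw, openSegment_subset_segment ℝ b₁ b₂ (hAL w hwA hwc)⟩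

/-- One improvement step for two cells A ⊆ K₁ = tr v₁ K, B ⊆ K₂ = tr v₂ K with a common interior
point. Proof. If (A, B) has no crossing quadruple: `step_noncross`. Otherwise let α₁, α₂ ∈ A \ B,
β₁, β₂ ∈ B \ A, z ∈ [α₁, α₂] ∩ [β₁, β₂]; z ∈ A ∩ B, so β₁ ≠ β₂; let f, c be the line L through β₁, β₂
(`exists_normal`). `line_inter`: A ∩ L is in the open segment (β₁, β₂) ⊆ B; the α i are not on L,
and on different sides (z between them is on L). If one of the two caps of A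
(A ∩ {c ≤ ⟪f, x⟫} or A ∩ {⟪f, x⟫ ≤ c}, replace f, c by -f, -c for the second) is contained in K₂:
`step_exch` with M = K₂ ∩ R. Otherwise choose α₁' and α₂' in the two caps, not in K₂ (so not in B). Then
[α₁', α₂'] meets L in a point z' of A ∩ L (`exists_cross`), so in (β₁, β₂) ⊆ B. Let g, d be the line M
through α₁', α₂'; `line_inter` (roles exchanged): B ∩ M is in the open segment (α₁', α₂') ⊆ A; β₁,
β₂ are on different sides of M. If one of the two caps of B is contained in K₁: `step_exch` with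
A and B exchanged and M = K₁ ∩ R. Otherwise choose β₁', β₂' in the two caps of B, not in K₁; [β₁', β₂']
meets M in a point of B ∩ M ⊆ (α₁', α₂'), so α₁', α₂' ∈ K₁ \ K₂, β₁', β₂' ∈ K₂ \ K₁ is a crossing
quadruple for K₁, K₂, contradicting `no_cross_tr`. -/
theorem cell_step {K : Set E} (hK : Body K) {v₁ v₂ : E} {R : Set E} (hR : Body R) {A B : Set E}
    (hA : Body A) (hB : Body B) (hAK : A ⊆ tr v₁ K ∩ R) (hBK : B ⊆ tr v₂ K ∩ R)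
    (hint : (interior (A ∩ B)).Nonempty) :
    ∃ A' B', Body A' ∧ Body B' ∧ A' ⊆ tr v₁ K ∩ R ∧ B' ⊆ tr v₂ K ∩ R ∧ A ∪ B ⊆ A' ∪ B' ∧
      psi A' + psi B' < psi A + psi B := by
  by_cases hx : CrossQ A B
  · obtain ⟨a₁, ha₁, a₂, ha₂, b₁, hb₁, b₂, hb₂, z, hz, hz'⟩ := hx
    have hM1 : Convex ℝ (tr v₁ K ∩ R) := (hK.tr v₁).1.inter hR.1
    have hM2 : Convex ℝ (tr v₂ K ∩ R) := (hK.tr v₂).1.inter hR.1
    rcases CellStep_cross hA hB hM2 hBK ha₁ ha₂ hb₁ hb₂ hz hz' with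
      ⟨A', B', h1, h2, h3, h4, h5, h6⟩ | ⟨x, hx, y, hy, hxM, hyM, w, hw, hw'⟩
    · exact ⟨A', B', h1, h2, h3.trans hAK, h4, h5, h6⟩
    · have hx' : x ∈ A \ B := ⟨hx, fun h => hxM (hBK h)⟩
      have hy' : y ∈ A \ B := ⟨hy, fun h => hyM (hBK h)⟩
      rcases CellStep_cross hB hA hM1 hAK hb₁ hb₂ hx' hy' hw' hw with
        h | ⟨p, hp, q, hq, hpM, hqM, r, hr, hr'⟩
      · obtain ⟨A', B', h1, h2, h3, h4, h5, h6⟩ := CellStep_swap h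
        exact ⟨A', B', h1, h2, h3, h4.trans hBK, h5, h6⟩
      · exfalso
        refine no_cross_tr hK.1 v₁ v₂ ⟨x, ⟨(hAK hx).1, fun h => hxM ⟨h, (hAK hx).2⟩⟩,
          y, ⟨(hAK hy).1, fun h => hyM ⟨h, (hAK hy).2⟩⟩,
          p, ⟨(hBK hp).1, fun h => hpM ⟨h, (hBK hp).2⟩⟩,
          q, ⟨(hBK hq).1, fun h => hqM ⟨h, (hBK hq).2⟩⟩, r, hr', hr⟩
  · obtain ⟨A', B', h1, h2, h3, h4, h5, h6⟩ := step_noncross hA hB hint hx
    exact ⟨A', B', h1, h2, h3.trans hAK, h4.trans hBK, h5, h6⟩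

end FB88
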