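import Pool.Agent.W_fa9b59_h88.Basic
import Pool.Agent.W_fa9b59_h88.BM

set_option autoImplicit false

open MeasureTheory Metric Set
open scoped Pointwise RealInnerProductSpace

namespace FB88

variable {ι : Type} [Fintype ι] {w : ι → E} {T : Set E}

/-- Steiner formula for -T: area (Q + t (-T)) = area ((-Q) + t T). -/
lemma stein_neg (hSt : Stein w T) {Q : Set E} (hQ : Body Q) {t : ℝ} (ht : 0 ≤ t) :
    area (Q + t • (-T)) = area Q + t * Y w (-Q) + t ^ 2 * area T := by
  have h1 : Q + t • (-T) = -(-Q + t • T) := by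
    rw [neg_add, neg_neg, Set.smul_set_neg]
  rw [h1, area_neg, hSt (-Q) hQ.neg t ht, area_neg]

lemma Mix_YT (hT : Body T) (hSt : Stein w T) : Y w T = 2 * area T := by
  have h1 := hSt T hT 1 zero_le_one
  have h2 : T + (1 : ℝ) • T = (2 : ℝ) • T := by
    have h3 := hT.1.add_smul (zero_le_one (α := ℝ)) (zero_le_one (α := ℝ))
    rw [one_smul] at h3 ⊢
    rw [← h3]
    norm_num
  rw [h2, area_smul] at h1
  linarith

/-- area (T - T) = Y w (T - T): by the Steiner formula area (T + (-T)) = 2 area T + Y w (-T) and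
Y w T = 2 area T (from area (T + T) = 4 area T). -/
lemma area_diff (hT : Body T) (hSt : Stein w T) :
    area (T + -T) = Y w (T + -T) := by
  have h1 := stein_neg hSt hT (t := 1) zero_le_one
  rw [one_smul] at h1
  rw [h1, Y_add w hT hT.neg, Mix_YT hT hSt]
  ring

/-- area (a T - b T) = (a^2 + b^2) area T + a b Y w (-T)
= a b area (T - T) + (a - b)^2 area T. -/
lemma area_comb (hT : Body T) (hSt : Stein w T) {a b : ℝ} (ha : 0 ≤ a) (hb : 0 ≤ b) :
    area (a • T + b • (-T)) = a * b * area (T + -T) + (a - b) ^ 2 * area T := by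
  have h1 := stein_neg hSt (hT.smul a) hb
  have h2 : -(a • T) = a • (-T) := (Set.smul_set_neg a T).symm
  rw [h1, h2, Y_smul w hT.neg ha, area_smul, area_diff hT hSt, Y_add w hT hT.neg, Mix_YT hT hSt]
  ring

lemma Mix_num {P x y : ℝ} (hx : 0 ≤ x) (hy : 0 ≤ y)
    (h : ∀ a b : ℝ, 0 ≤ a → 0 ≤ b → 4 * a * b * P ≤ (a * x + b * y) ^ 2) : P ≤ x * y := by
  by_contra hcon
  push Not at hcon
  have hP : 0 < P := lt_of_le_of_lt (mul_nonneg hx hy) hcon
  rcases hx.eq_or_lt with h0 | h0
  · subst h0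
    have h1 := h (y ^ 2 / (4 * P) + 1) 1 (by positivity) zero_le_one
    have h2 : 4 * (y ^ 2 / (4 * P) + 1) * 1 * P = y ^ 2 + 4 * P := by
      field_simp
    rw [h2] at h1
    nlinarith
  · rcases hy.eq_or_lt with h3 | h3
    · subst h3
      have h1 := h 1 (x ^ 2 / (4 * P) + 1) zero_le_one (by positivity)
      have h2 : 4 * 1 * (x ^ 2 / (4 * P) + 1) * P = x ^ 2 + 4 * P := by
        field_simp
      rw [h2] at h1
      nlinarith
    · have h1 := h y x hy hx
      have h2 : 0 < x * y := mul_pos h0 h3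
      nlinarith

/-- Mixed area inequality. By the two Steiner formulas
area (Q + (a T - b T)) = area Q + a Y w Q + b Y w (-Q) + area (a T - b T), and by `bm` this is
≥ area Q + area (aT - bT) + 2 √(area Q area (aT-bT)); so
(a Y w Q + b Y w (-Q))^2 ≥ 4 area Q area (a T - b T) ≥ 4 a b area Q area (T - T).
Take a = Y w (-Q), b = Y w Q; if one of these is zero, say Y w Q = 0, take b = 1, a → ∞.
(Y w Q ≥ 0: `Y_nonneg` with hw.) -/
theorem mix (hw : ∑ i, w i = 0) (hT : Body T) (hSt : Stein w T) {Q : Set E} (hQ : Body Q) :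
    area Q * area (T + -T) ≤ Y w Q * Y w (-Q) := by
  refine Mix_num (Y_nonneg w hw hQ) (Y_nonneg w hw hQ.neg) fun a b ha hb => ?_
  obtain ⟨D, hD⟩ : ∃ D : Set E, D = a • T + b • (-T) := ⟨_, rfl⟩
  have hDB : Body D := by
    rw [hD]
    exact (hT.smul a).add (hT.neg.smul b)
  have h1 : area (Q + D) = area Q + a * Y w Q + b * Y w (-Q) + area D := by
    have h2 := stein_neg hSt (hQ.add (hT.smul a)) hb
    have h3 : -(Q + a • T) = -Q + a • (-T) := by
      rw [neg_add, Set.smul_set_neg]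
    have h4 := area_comb hT hSt ha hb
    rw [← hD] at h4
    rw [h3, Y_add w hQ.neg (hT.neg.smul a), Y_smul w hT.neg ha, hSt Q hQ a ha, add_assoc Q,
      ← hD] at h2
    rw [h2, h4, area_diff hT hSt, Y_add w hT hT.neg, Mix_YT hT hSt]
    ring
  have h5 := bm hQ hDB
  have h6 : 2 * (√(area Q) * √(area D)) ≤ a * Y w Q + b * Y w (-Q) := by
    have h7 := pow_le_pow_left₀ (by positivity) h5 2
    rw [Real.sq_sqrt (area_nonneg _), h1, add_sq, Real.sq_sqrt (area_nonneg _),
      Real.sq_sqrt (area_nonneg _)] at h7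
    linarith
  have h8 := pow_le_pow_left₀ (by positivity) h6 2
  rw [mul_pow, mul_pow, Real.sq_sqrt (area_nonneg _), Real.sq_sqrt (area_nonneg _)] at h8
  refine le_trans ?_ h8
  have h9 := area_comb hT hSt ha hb
  rw [← hD] at h9
  rw [h9]
  have h10 : 0 ≤ area Q * ((a - b) ^ 2 * area T) :=
    mul_nonneg (area_nonneg _) (mul_nonneg (sq_nonneg _) (area_nonneg _))
  nlinarith

end FB88
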