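import Pool.Agent.W_fa9b59_h88.Basic

set_option autoImplicit false

open MeasureTheory Metric Set
open scoped Pointwise RealInnerProductSpace

namespace FB88

lemma seg_body (w : E) : Body (segment ℝ 0 (J w)) := by
  refine ⟨convex_segment _ _, ?_, ⟨0, left_mem_segment ℝ _ _⟩⟩
  rw [segment_eq_image]
  exact isCompact_Icc.image (by fun_prop)

/-- a segment has area zero -/
lemma seg_area (p q : E) : area (segment ℝ p q) = 0 := by
  have h1 : segment ℝ p q ⊆ (affineSpan ℝ ({p, q} : Set E) : Set E) := by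
    intro x hx
    rw [segment_eq_image_lineMap] at hx
    obtain ⟨t, -, rfl⟩ := hx
    exact AffineMap.lineMap_mem_affineSpan_pair t p q
  have h2 : affineSpan ℝ ({p, q} : Set E) ≠ ⊤ := by
    intro h
    have h3 : (affineSpan ℝ ({p, q} : Set E)).direction = ⊤ := by
      rw [h, AffineSubspace.direction_top]
    rw [direction_affineSpan, vectorSpan_pair] at h3
    have h4 := finrank_span_le_card (R := ℝ) ({p -ᵥ q} : Set E)
    rw [h3, finrank_top, finrank_euclideanSpace, Fintype.card_fin, toFinset_singleton,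
      Finset.card_singleton] at h4
    omega
  unfold area
  rw [measure_mono_null h1 (Measure.addHaar_affineSubspace volume _ h2)]
  rfl

/-- rotation, as a linear map -/
noncomputable def seg_rotL (a b : ℝ) : E →ₗ[ℝ] E where
  toFun v := !₂[v 0 * a - v 1 * b, v 0 * b + v 1 * a]
  map_add' v w := by
    ext i
    fin_cases i <;> simp <;> ring
  map_smul' c v := by
    ext i
    fin_cases i <;> simp <;> ring

lemma seg_rot_norm {a b : ℝ} (h : a ^ 2 + b ^ 2 = 1) (v : E) : ‖seg_rotL a b v‖ = ‖v‖ := by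
  rw [EuclideanSpace.norm_eq, EuclideanSpace.norm_eq]
  congr 1
  simp only [Fin.sum_univ_two, Real.norm_eq_abs, sq_abs]
  show (v 0 * a - v 1 * b) ^ 2 + (v 0 * b + v 1 * a) ^ 2 = v 0 ^ 2 + v 1 ^ 2
  calc (v 0 * a - v 1 * b) ^ 2 + (v 0 * b + v 1 * a) ^ 2
      = (v 0 ^ 2 + v 1 ^ 2) * (a ^ 2 + b ^ 2) := by ring
    _ = v 0 ^ 2 + v 1 ^ 2 := by rw [h, mul_one]

/-- the coordinates with respect to the rotated basis -/
noncomputable def seg_F (a b : ℝ) (p : ℝ × ℝ) : E := !₂[p.1 * a - p.2 * b, p.1 * b + p.2 * a]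

lemma seg_F_mp {a b : ℝ} (h : a ^ 2 + b ^ 2 = 1) :
    MeasurePreserving (seg_F a b) (volume : Measure (ℝ × ℝ)) (volume : Measure E) := by
  let li : E →ₗᵢ[ℝ] E := ⟨seg_rotL a b, seg_rot_norm h⟩
  let le : E ≃ₗᵢ[ℝ] E := li.toLinearIsometryEquiv rfl
  have h1 : MeasurePreserving (le : E → E) := le.measurePreserving
  have h2 : MeasurePreserving (@WithLp.toLp 2 (Fin 2 → ℝ)) := PiLp.volume_preserving_toLp (Fin 2)
  have h3 : MeasurePreserving (MeasurableEquiv.finTwoArrow (α := ℝ)).symm :=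
    (volume_preserving_finTwoArrow ℝ).symm _
  have h4 := (h1.comp h2).comp h3
  have h5 : seg_F a b = (⇑le ∘ (@WithLp.toLp 2 (Fin 2 → ℝ))) ∘
      ⇑(MeasurableEquiv.finTwoArrow (α := ℝ)).symm := by
    funext p
    rfl
  rw [h5]
  exact h4

lemma seg_F_cont (a b : ℝ) : Continuous (seg_F a b) := by
  unfold seg_F
  fun_prop

lemma seg_vol {a b : ℝ} (h : a ^ 2 + b ^ 2 = 1) {C : Set E} (hC : IsCompact C) :
    volume C = ∫⁻ x : ℝ, volume {y : ℝ | seg_F a b (x, y) ∈ C} := by
  have hm : MeasurableSet C := hC.measurableSet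
  rw [← (seg_F_mp h).measure_preimage hm.nullMeasurableSet, Measure.volume_eq_prod,
    Measure.prod_apply ((seg_F_mp h).measurable hm)]
  rfl

lemma seg_meas {a b : ℝ} (h : a ^ 2 + b ^ 2 = 1) {C : Set E} (hC : IsCompact C) :
    Measurable fun x : ℝ => volume {y : ℝ | seg_F a b (x, y) ∈ C} :=
  measurable_measure_prodMk_left ((seg_F_mp h).measurable hC.measurableSet)

lemma seg_F_add (a b x y s : ℝ) : seg_F a b (x, y + s) = seg_F a b (x, y) + s • !₂[-b, a] := by
  ext i
  fin_cases i <;> simp [seg_F] <;> ring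

lemma seg_inner (a b x y L : ℝ) (h : a ^ 2 + b ^ 2 = 1) (w : E) (h0 : w 0 = L * a)
    (h1 : w 1 = L * b) : ⟪w, seg_F a b (x, y)⟫ = L * x := by
  rw [EuclideanSpace.inner_eq_star_dotProduct]
  simp only [seg_F, dotProduct, Fin.sum_univ_two]
  simp only [Pi.star_apply, star_trivial]
  show (x * a - y * b) * w 0 + (x * b + y * a) * w 1 = L * x
  rw [h0, h1]
  calc (x * a - y * b) * (L * a) + (x * b + y * a) * (L * b) = L * x * (a ^ 2 + b ^ 2) := by ring
    _ = L * x := by rw [h, mul_one]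

lemma seg_surj (a b : ℝ) (h : a ^ 2 + b ^ 2 = 1) (p : E) :
    p = seg_F a b (p 0 * a + p 1 * b, -(p 0) * b + p 1 * a) := by
  ext i
  fin_cases i
  · show p 0 = (p 0 * a + p 1 * b) * a - (-(p 0) * b + p 1 * a) * b
    calc p 0 = p 0 * (a ^ 2 + b ^ 2) := by rw [h, mul_one]
      _ = _ := by ring
  · show p 1 = (p 0 * a + p 1 * b) * b + (-(p 0) * b + p 1 * a) * a
    calc p 1 = p 1 * (a ^ 2 + b ^ 2) := by rw [h, mul_one]
      _ = _ := by ring

/-- sections are compact -/
lemma seg_sec_compact {a b : ℝ} (h : a ^ 2 + b ^ 2 = 1) {C : Set E} (hC : IsCompact C) (x : ℝ) :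
    IsCompact {y : ℝ | seg_F a b (x, y) ∈ C} := by
  have h1 : {y : ℝ | seg_F a b (x, y) ∈ C} ⊆ (fun p : E => -(p 0) * b + p 1 * a) '' C := by
    intro y hy
    refine ⟨seg_F a b (x, y), hy, ?_⟩
    show -(x * a - y * b) * b + (x * b + y * a) * a = y
    calc -(x * a - y * b) * b + (x * b + y * a) * a = y * (a ^ 2 + b ^ 2) := by ring
      _ = y := by rw [h, mul_one]
  refine (hC.image (by fun_prop)).of_isClosed_subset ?_ h1
  exact hC.isClosed.preimage ((seg_F_cont a b).comp (by fun_prop))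

lemma seg_sec_convex (a b : ℝ) {C : Set E} (hC : Convex ℝ C) (x : ℝ) :
    Convex ℝ {y : ℝ | seg_F a b (x, y) ∈ C} := by
  intro y hy z hz s t hs ht hst
  have h1 : seg_F a b (x, s • y + t • z) = s • seg_F a b (x, y) + t • seg_F a b (x, z) := by
    have hs' : s = 1 - t := by linarith
    subst hs'
    ext i
    fin_cases i <;> simp [seg_F] <;> ring
  show seg_F a b (x, s • y + t • z) ∈ C
  rw [h1]
  exact hC hy hz hs ht hst

/-- membership in the sum with a segment -/
lemma seg_mem_add (a b L t x y : ℝ) (hL : 0 < L) (ht : 0 ≤ t) (w : E) (h0 : w 0 = L * a)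
    (h1 : w 1 = L * b) (Q : Set E) :
    seg_F a b (x, y) ∈ Q + t • segment ℝ 0 (J w) ↔
      ∃ s ∈ Icc (0 : ℝ) (t * L), seg_F a b (x, y - s) ∈ Q := by
  have hJ : J w = L • !₂[-b, a] := by
    ext i
    fin_cases i
    · show -(w 1) = L * -b
      rw [h1]; ring
    · show w 0 = L * a
      exact h0
  constructor
  · rintro ⟨q, hq, r, hr, hqr⟩
    obtain ⟨z, hz, rfl⟩ := hr
    rw [segment_eq_image] at hz
    obtain ⟨s, hs, rfl⟩ := hz
    refine ⟨t * s * L, ⟨by have := hs.1; positivity, ?_⟩, ?_⟩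
    · have : t * s * L ≤ t * 1 * L :=
        mul_le_mul_of_nonneg_right (mul_le_mul_of_nonneg_left hs.2 ht) hL.le
      linarith
    · have h2 := seg_F_add a b x (y - t * s * L) (t * s * L)
      rw [sub_add_cancel] at h2
      have h3 : q + (t * s * L) • (!₂[-b, a] : E) = seg_F a b (x, y) := by
        rw [← hqr]
        simp only [smul_zero, zero_add]
        rw [hJ, smul_smul, smul_smul]
      rw [h2] at h3
      rw [← add_right_cancel h3]
      exact hq
  · rintro ⟨s, hs, hq⟩
    rcases eq_or_lt_of_le ht with h | h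
    · have hs0 : s = 0 := le_antisymm (by have := hs.2; rw [← h, zero_mul] at this; exact this) hs.1
      rw [hs0, sub_zero] at hq
      refine ⟨_, hq, 0, ⟨0, left_mem_segment ℝ _ _, by simp⟩, by simp⟩
    · refine ⟨_, hq, t • ((s / (t * L)) • J w), ⟨(s / (t * L)) • J w, ?_, rfl⟩, ?_⟩
      · rw [segment_eq_image]
        refine ⟨s / (t * L), ⟨div_nonneg hs.1 (by positivity), ?_⟩, by simp⟩
        exact (div_le_one (by positivity)).2 hs.2
      · have h2 := seg_F_add a b x (y - s) s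
        rw [sub_add_cancel] at h2
        show seg_F a b (x, y - s) + t • ((s / (t * L)) • J w) = seg_F a b (x, y)
        rw [h2, hJ, smul_smul, smul_smul]
        congr 2
        field_simp

lemma seg_sec_add (a b L t x : ℝ) (h : a ^ 2 + b ^ 2 = 1) (hL : 0 < L) (ht : 0 ≤ t) (w : E)
    (h0 : w 0 = L * a) (h1 : w 1 = L * b) {Q : Set E} (hQ : Body Q) :
    volume {y : ℝ | seg_F a b (x, y) ∈ Q + t • segment ℝ 0 (J w)} =
      volume {y : ℝ | seg_F a b (x, y) ∈ Q} +
        ({x : ℝ | {y : ℝ | seg_F a b (x, y) ∈ Q}.Nonempty}).indicator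
          (fun _ => ENNReal.ofReal (t * L)) x := by
  have htL : 0 ≤ t * L := by positivity
  by_cases hne : {y : ℝ | seg_F a b (x, y) ∈ Q}.Nonempty
  · rw [indicator_of_mem (show x ∈ {x : ℝ | {y : ℝ | seg_F a b (x, y) ∈ Q}.Nonempty} from hne)]
    have hc := seg_sec_compact h hQ.2.1 x
    have hconn : IsConnected {y : ℝ | seg_F a b (x, y) ∈ Q} :=
      ⟨hne, (seg_sec_convex a b hQ.1 x).isPreconnected⟩
    have he := eq_Icc_of_connected_compact hconn hc
    set α := sInf {y : ℝ | seg_F a b (x, y) ∈ Q} with hα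
    set β := sSup {y : ℝ | seg_F a b (x, y) ∈ Q} with hβ
    have hαβ : α ≤ β := by
      rw [he] at hne
      exact nonempty_Icc.1 hne
    have he2 : {y : ℝ | seg_F a b (x, y) ∈ Q + t • segment ℝ 0 (J w)} = Icc α (β + t * L) := by
      ext y
      rw [mem_ofPred_eq, seg_mem_add a b L t x y hL ht w h0 h1]
      have hmem : ∀ z : ℝ, seg_F a b (x, z) ∈ Q ↔ z ∈ Icc α β := fun z => by
        rw [← he]; rfl
      constructor
      · rintro ⟨s, hs, hq⟩
        rw [hmem] at hq
        exact ⟨by linarith [hq.1, hs.1], by linarith [hq.2, hs.2]⟩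
      · intro hy
        by_cases hyβ : y ≤ β
        · exact ⟨0, ⟨le_refl 0, htL⟩, by rw [sub_zero, hmem]; exact ⟨hy.1, hyβ⟩⟩
        · push Not at hyβ
          refine ⟨y - β, ⟨by linarith, by linarith [hy.2]⟩, ?_⟩
          rw [hmem]
          exact ⟨by linarith, by linarith⟩
    rw [he2, he, Real.volume_Icc, Real.volume_Icc, ← ENNReal.ofReal_add (by linarith) htL]
    congr 1
    ring
  · rw [indicator_of_notMem (show x ∉ {x : ℝ | {y : ℝ | seg_F a b (x, y) ∈ Q}.Nonempty} from hne)]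
    have h2 : {y : ℝ | seg_F a b (x, y) ∈ Q + t • segment ℝ 0 (J w)} = ∅ := by
      rw [eq_empty_iff_forall_notMem]
      intro y hy
      rw [mem_ofPred_eq, seg_mem_add a b L t x y hL ht w h0 h1] at hy
      obtain ⟨s, -, hq⟩ := hy
      exact hne ⟨y - s, hq⟩
    rw [h2, not_nonempty_iff_eq_empty.1 hne]
    simp

lemma seg_proj (a b L : ℝ) (h : a ^ 2 + b ^ 2 = 1) (hL : 0 < L) (w : E)
    (h0 : w 0 = L * a) (h1 : w 1 = L * b) {Q : Set E} (hQ : Body Q) :
    {x : ℝ | {y : ℝ | seg_F a b (x, y) ∈ Q}.Nonempty} =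
      Icc (-(hs Q (-w)) / L) (hs Q w / L) := by
  have himg : (fun p : E => ⟪w, p⟫) '' Q = Icc (-(hs Q (-w))) (hs Q w) := by
    have hc : IsCompact ((fun p : E => ⟪w, p⟫) '' Q) := hQ.2.1.image (by fun_prop)
    have hconn : IsConnected ((fun p : E => ⟪w, p⟫) '' Q) :=
      (show IsConnected Q from ⟨hQ.2.2, hQ.1.isPreconnected⟩).image _
        (Continuous.continuousOn (by fun_prop))
    rw [eq_Icc_of_connected_compact hconn hc]
    congr 1
    have h2 : hs Q (-w) = sSup (-((fun p : E => ⟪w, p⟫) '' Q)) := by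
      unfold hs
      congr 1
      ext r
      constructor
      · rintro ⟨p, hp, rfl⟩
        refine ⟨p, hp, ?_⟩
        simp
      · rintro ⟨p, hp, hr⟩
        refine ⟨p, hp, ?_⟩
        simp only [inner_neg_left]
        have hr' : ⟪w, p⟫ = -r := hr
        rw [hr', neg_neg]
    rw [h2, Real.sInf_def]
  ext x
  constructor
  · rintro ⟨y, hy⟩
    have h3 : ⟪w, seg_F a b (x, y)⟫ ∈ (fun p : E => ⟪w, p⟫) '' Q := ⟨_, hy, rfl⟩
    rw [himg, seg_inner a b x y L h w h0 h1] at h3
    constructor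
    · rw [div_le_iff₀ hL]; linarith [h3.1]
    · rw [le_div_iff₀ hL]; linarith [h3.2]
  · rintro ⟨hx1, hx2⟩
    rw [div_le_iff₀ hL] at hx1
    rw [le_div_iff₀ hL] at hx2
    have h3 : L * x ∈ Icc (-(hs Q (-w))) (hs Q w) := ⟨by linarith, by linarith⟩
    rw [← himg] at h3
    obtain ⟨p, hp, hpx⟩ := h3
    refine ⟨-(p 0) * b + p 1 * a, ?_⟩
    have h4 := seg_surj a b h p
    have h5 : p 0 * a + p 1 * b = x := by
      have h6 : ⟪w, p⟫ = L * (p 0 * a + p 1 * b) := by
        conv_lhs => rw [h4]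
        exact seg_inner a b _ _ L h w h0 h1
      have h7 : L * (p 0 * a + p 1 * b) = L * x := by rw [← h6]; exact hpx
      exact mul_left_cancel₀ hL.ne' h7
    rw [h5] at h4
    show seg_F a b (x, -(p 0) * b + p 1 * a) ∈ Q
    rw [← h4]
    exact hp

/-- Steiner formula for a segment: area (Q + t [0, J w]) = area Q + t (hs Q w + hs Q (-w)).
Proof. w = 0 trivial. Otherwise use the orthonormal coordinates x = ⟪w, p⟫ / |w|,
y = ⟪J w, p⟫ / |w| (a measure preserving linear map E → ℝ × ℝ, or first E → E by a linear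
isometry and then to ℝ × ℝ). In these coordinates the segment is {0} × [0, t |w|]; for x in the
compact interval I = projection of Q (length (hs Q w + hs Q (-w)) / |w|) the vertical section of
Q at x is a compact interval [α, β] and that of Q + t seg is [α, β + t |w|], other sections are
empty. Integrate the section lengths (Fubini). -/
theorem steiner_seg (w : E) : Stein (ι := Fin 2) ![w, -w] (segment ℝ 0 (J w)) := by
  intro Q hQ t ht
  rw [seg_area, mul_zero, add_zero]
  have hY : Y (ι := Fin 2) ![w, -w] Q = hs Q w + hs Q (-w) := by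
    simp [Y, Fin.sum_univ_two]
  rw [hY]
  by_cases hw : w = 0
  · subst hw
    have hJ0 : J 0 = 0 := by
      ext i
      fin_cases i <;> simp [J]
    rw [neg_zero, hs_zero_dir, add_zero, mul_zero, add_zero, hJ0, segment_same, smul_set_singleton,
      smul_zero, add_singleton]
    simp
  · set L : ℝ := ‖w‖ with hLdef
    have hL : 0 < L := norm_pos_iff.2 hw
    have hL2 : L ^ 2 = w 0 ^ 2 + w 1 ^ 2 := by
      rw [hLdef, EuclideanSpace.norm_sq_eq, Fin.sum_univ_two]
      simp
    have h : (w 0 / L) ^ 2 + (w 1 / L) ^ 2 = 1 := by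
      rw [div_pow, div_pow, ← add_div, ← hL2]
      exact div_self (by positivity)
    have h0 : w 0 = L * (w 0 / L) := by field_simp
    have h1 : w 1 = L * (w 1 / L) := by field_simp
    have hB : Body (Q + t • segment ℝ 0 (J w)) := hQ.add ((seg_body w).smul t)
    have hv : volume (Q + t • segment ℝ 0 (J w)) =
        volume Q + ENNReal.ofReal (t * (hs Q w + hs Q (-w))) := by
      rw [seg_vol h hB.2.1, seg_vol h hQ.2.1]
      have h2 : ∀ x : ℝ, volume {y : ℝ | seg_F (w 0 / L) (w 1 / L) (x, y) ∈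
          Q + t • segment ℝ 0 (J w)} = _ := fun x =>
        seg_sec_add (w 0 / L) (w 1 / L) L t x h hL ht w h0 h1 hQ
      rw [lintegral_congr h2, lintegral_add_left (seg_meas h hQ.2.1),
        seg_proj (w 0 / L) (w 1 / L) L h hL w h0 h1 hQ, lintegral_indicator measurableSet_Icc,
        lintegral_const, Measure.restrict_apply MeasurableSet.univ, univ_inter, Real.volume_Icc,
        ← ENNReal.ofReal_mul (by positivity)]
      congr 2
      field_simp
      ring
    unfold area
    have hnn : 0 ≤ t * (hs Q w + hs Q (-w)) :=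
      mul_nonneg ht (hs_neg_add_nonneg hQ.2.1 hQ.2.2 w)
    rw [hv, ENNReal.toReal_add (vol_lt_top hQ.2.1).ne ENNReal.ofReal_ne_top,
      ENNReal.toReal_ofReal hnn]

end FB88
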