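import Pool.Agent.W_fa9b59_h88.TriArea

set_option autoImplicit false

open MeasureTheory Metric Set
open scoped Pointwise RealInnerProductSpace

namespace FB88

/-- the set Q plus the cone at the vertex i -/
def ConeS (n : Fin 3 → E) (Q : Set E) (i : Fin 3) : Set E :=
  {p | ∃ q ∈ Q, ∀ j, j ≠ i → ⟪n j, p⟫ ≤ ⟪n j, q⟫}

/-- every vector is a nonnegative combination of the normals, one coefficient being zero -/
lemma TriDecomp_span (n : Fin 3 → E) (hn : ∑ i, n i = 0)
    (hli : LinearIndependent ℝ ![n 0, n 1]) (u : E) :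
    ∃ (i : Fin 3) (c : Fin 3 → ℝ), c i = 0 ∧ (∀ j, 0 ≤ c j) ∧ u = ∑ j, c j • n j := by
  have hspan := hli.span_eq_top_of_card_eq_finrank (by simp)
  have hu : u ∈ Submodule.span ℝ (Set.range ![n 0, n 1]) := by
    rw [hspan]
    exact Submodule.mem_top
  have hr : Set.range ![n 0, n 1] = {n 0, n 1} := by
    simp only [Matrix.range_cons, Matrix.range_empty, Set.union_empty]
    rfl
  rw [hr, Submodule.mem_span_pair] at hu
  obtain ⟨a, b, hab⟩ := hu
  rw [Fin.sum_univ_three] at hn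
  have key : ∀ m : ℝ, u = ∑ j, (![a - m, b - m, -m] : Fin 3 → ℝ) j • n j := by
    intro m
    rw [Fin.sum_univ_three]
    simp only [Matrix.cons_val_zero, Matrix.cons_val_one, Matrix.cons_val]
    rw [← hab]
    have h0 : m • (n 0 + n 1 + n 2) = 0 := by rw [hn, smul_zero]
    rw [smul_add, smul_add] at h0
    calc a • n 0 + b • n 1 = a • n 0 + b • n 1 - (m • n 0 + m • n 1 + m • n 2) := by
          rw [h0, sub_zero]
      _ = (a - m) • n 0 + (b - m) • n 1 + (-m) • n 2 := by module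
  rcases le_total a 0 with ha | ha
  · rcases le_total a b with hb | hb
    · refine ⟨0, ![a - a, b - a, -a], by simp, ?_, key a⟩
      intro j
      fin_cases j <;> simp <;> linarith
    · refine ⟨1, ![a - b, b - b, -b], by simp, ?_, key b⟩
      intro j
      fin_cases j <;> simp <;> linarith
  · rcases le_total b 0 with hb | hb
    · refine ⟨1, ![a - b, b - b, -b], by simp, ?_, key b⟩
      intro j
      fin_cases j <;> simp <;> linarith
    · refine ⟨2, ![a - 0, b - 0, -0], by simp, ?_, key 0⟩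
      intro j
      fin_cases j <;> simp <;> linarith

lemma TriDecomp_inner_le {n : Fin 3 → E} {i : Fin 3} {c : Fin 3 → ℝ} (hc : c i = 0)
    (hc0 : ∀ j, 0 ≤ c j) {p q : E} (h : ∀ j, j ≠ i → ⟪n j, p⟫ ≤ ⟪n j, q⟫) :
    ⟪∑ j, c j • n j, p⟫ ≤ ⟪∑ j, c j • n j, q⟫ := by
  rw [sum_inner, sum_inner]
  refine Finset.sum_le_sum fun j _ => ?_
  rw [real_inner_smul_left, real_inner_smul_left]
  by_cases hj : j = i
  · rw [hj, hc, zero_mul, zero_mul]
  · exact mul_le_mul_of_nonneg_left (h j hj) (hc0 j)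

/-- (1) Q is the intersection of the three ConeS n Q i. Proof: if p ∉ Q there is u with
hs Q u < ⟪u, p⟫; since the n i sum to 0 and span the plane, u = α n j + β n k with α, β ≥ 0 for
some j ≠ k; let i be the third index and q ∈ Q the point from p ∈ ConeS n Q i; then
⟪u, p⟫ ≤ ⟪u, q⟫ ≤ hs Q u, a contradiction. -/
lemma cone_inter (n : Fin 3 → E) (hn : ∑ i, n i = 0)
    (hli : LinearIndependent ℝ ![n 0, n 1]) {Q : Set E} (hQ : Body Q) {p : E}
    (hp : ∀ i, p ∈ ConeS n Q i) : p ∈ Q := by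
  by_contra hcon
  obtain ⟨u, hu⟩ := exists_sep hQ hcon
  obtain ⟨i, c, hc, hc0, rfl⟩ := TriDecomp_span n hn hli u
  obtain ⟨q, hq, hqp⟩ := hp i
  have h1 := TriDecomp_inner_le hc hc0 hqp
  have h2 := le_hs hQ.2.1 hq (∑ j, c j • n j)
  linarith

lemma TriDecomp_idx : ∀ i j k l : Fin 3, i ≠ j → i ≠ k → j ≠ k → l ≠ i → l = j ∨ l = k := by
  decide

/-- (2) Let i be an index, j ≠ k the two others. If ⟪n j, p⟫ ≤ hs Q (n j),
⟪n k, p⟫ ≤ hs Q (n k) and p ∉ ConeS n Q i, then there is q ∈ Q with ⟪n j, q⟫ = ⟪n j, p⟫ and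
⟪n k, q⟫ < ⟪n k, p⟫ (hence ⟪n i, p⟫ < ⟪n i, q⟫ as the three values sum to 0).
Proof: let a ∈ Q have ⟪n j, a⟫ = hs Q (n j), b ∈ Q have ⟪n k, b⟫ = hs Q (n k). As p is not in
ConeS n Q i, ⟪n k, a⟫ < ⟪n k, p⟫ and ⟪n j, b⟫ < ⟪n j, p⟫ ≤ ⟪n j, a⟫; on the segment [b, a] ⊆ Q there
is a point q with ⟪n j, q⟫ = ⟪n j, p⟫ and then ⟪n k, q⟫ < ⟪n k, p⟫ since p ∉ ConeS n Q i. -/
lemma cone_cross (n : Fin 3 → E) {Q : Set E} (hQ : Body Q) {p : E} {i j k : Fin 3}
    (hij : i ≠ j) (hik : i ≠ k) (hjk : j ≠ k) (hj : ⟪n j, p⟫ ≤ hs Q (n j))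
    (hk : ⟪n k, p⟫ ≤ hs Q (n k)) (hp : p ∉ ConeS n Q i) :
    ∃ q ∈ Q, ⟪n j, q⟫ = ⟪n j, p⟫ ∧ ⟪n k, q⟫ < ⟪n k, p⟫ := by
  have hthird : ∀ l : Fin 3, l ≠ i → l = j ∨ l = k := fun l hl =>
    TriDecomp_idx i j k l hij hik hjk hl
  have hnot : ∀ q ∈ Q, ⟪n j, q⟫ < ⟪n j, p⟫ ∨ ⟪n k, q⟫ < ⟪n k, p⟫ := by
    intro q hq
    by_contra hcon
    push Not at hcon
    refine hp ⟨q, hq, fun l hl => ?_⟩
    rcases hthird l hl with rfl | rfl
    · exact hcon.1
    · exact hcon.2
  obtain ⟨a, ha, hae⟩ := exists_hs hQ.2.1 hQ.2.2 (n j)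
  obtain ⟨b, hb, hbe⟩ := exists_hs hQ.2.1 hQ.2.2 (n k)
  have ha2 : ⟪n j, p⟫ ≤ ⟪n j, a⟫ := by rw [hae]; exact hj
  have hb2 : ⟪n k, p⟫ ≤ ⟪n k, b⟫ := by rw [hbe]; exact hk
  have hb3 : ⟪n j, b⟫ < ⟪n j, p⟫ := by
    rcases hnot b hb with h | h
    · exact h
    · exact absurd h (not_lt.2 hb2)
  have hden : 0 < ⟪n j, a⟫ - ⟪n j, b⟫ := by linarith
  set t : ℝ := (⟪n j, p⟫ - ⟪n j, b⟫) / (⟪n j, a⟫ - ⟪n j, b⟫) with ht
  have ht0 : 0 ≤ t := div_nonneg (by linarith) hden.le
  have ht1 : t ≤ 1 := by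
    rw [ht, div_le_one hden]
    linarith
  have hq : (1 - t) • b + t • a ∈ Q := hQ.1 hb ha (by linarith) ht0 (by ring)
  have hqj : ⟪n j, (1 - t) • b + t • a⟫ = ⟪n j, p⟫ := by
    rw [inner_add_right, inner_smul_right, inner_smul_right]
    have : t * (⟪n j, a⟫ - ⟪n j, b⟫) = ⟪n j, p⟫ - ⟪n j, b⟫ := by
      rw [ht]
      field_simp
    linarith
  refine ⟨_, hq, hqj, ?_⟩
  rcases hnot _ hq with h | h
  · rw [hqj] at h
    exact absurd h (lt_irrefl _)
  · exact h

lemma TriDecomp_closed (n : Fin 3 → E) {Q : Set E} (hQ : Body Q) (i : Fin 3) :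
    IsClosed (ConeS n Q i) := by
  have h1 : IsClosed {x : E | ∀ j, j ≠ i → ⟪n j, x⟫ ≤ 0} := by
    have : {x : E | ∀ j, j ≠ i → ⟪n j, x⟫ ≤ 0} = ⋂ j, ⋂ (_ : j ≠ i), {x : E | ⟪n j, x⟫ ≤ 0} := by
      ext x
      simp
    rw [this]
    exact isClosed_iInter fun j => isClosed_iInter fun _ =>
      isClosed_le (by fun_prop) continuous_const
  have h2 : ConeS n Q i = Q + {x : E | ∀ j, j ≠ i → ⟪n j, x⟫ ≤ 0} := by
    ext p
    constructor
    · rintro ⟨q, hq, h⟩
      refine ⟨q, hq, p - q, fun j hj => ?_, by simp⟩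
      rw [inner_sub_right]
      linarith [h j hj]
    · rintro ⟨q, hq, x, hx, rfl⟩
      refine ⟨q, hq, fun j hj => ?_⟩
      simp only [inner_add_right]
      linarith [hx j hj]
  rw [h2]
  exact h1.add_left_of_isCompact hQ.2.1

lemma TriDecomp_sum {n : Fin 3 → E} (hn : ∑ i, n i = 0) {i j k : Fin 3}
    (hij : i ≠ j) (hik : i ≠ k) (hjk : j ≠ k) (x : E) :
    ⟪n i, x⟫ + ⟪n j, x⟫ + ⟪n k, x⟫ = 0 := by
  have h0 : ∑ l, ⟪n l, x⟫ = 0 := by
    rw [← sum_inner, hn, inner_zero_left]
  rw [Fin.sum_univ_three] at h0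
  fin_cases i <;> fin_cases j <;> fin_cases k <;> simp at hij hik hjk ⊢ <;> linarith

lemma TriDecomp_others (i : Fin 3) : ∃ j k : Fin 3, i ≠ j ∧ i ≠ k ∧ j ≠ k := by
  revert i
  decide

lemma TriDecomp_third (i k : Fin 3) (h : i ≠ k) : ∃ j : Fin 3, i ≠ j ∧ j ≠ k := by
  revert i k
  decide

lemma TriDecomp_vol (v : E) (C : Set E) : volume (tr v C) = volume C := by
  have h : tr v C = (fun x => x + (-v)) ⁻¹' C := by
    ext x; simp [tr, sub_eq_add_neg]
  rw [h, measure_preimage_add_right]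

/-- (3) Decomposition. Put M_Q i = hs Q (n i), D = TriS n M_Q, D' = TriS n (M_Q + M),
T = TriS n M, v i the vertex of T with ⟪n j, v i⟫ = M j for j ≠ i (⟪n i, v i⟫ = M i - ∑ M ≤ M i, so
v i ∈ T). Then
D is the disjoint union of Q and the three sets D \ ConeS n Q i ((1) and: if p is in two of them,
for i and k, (2) for i with q as there, j the third index, gives q ∈ Q with ⟪n j, q⟫ = ⟪n j, p⟫,
⟪n i, q⟫ > ⟪n i, p⟫, so p ∈ ConeS n Q k, contradiction);
Q + T = intersection of the tr (v i) (ConeS n Q i) (same proof as (1) with the support function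
of Q + T: hs T u = ⟪u, v i⟫ for u a nonnegative combination of the n j, j ≠ i);
D' \ tr (v i) (ConeS n Q i) = tr (v i) (D \ ConeS n Q i): if p' = p - v i satisfies
⟪n j, p'⟫ ≤ M_Q j for j ≠ i and p' ∉ ConeS n Q i then (2) gives ⟪n i, p'⟫ < ⟪n i, q⟫ ≤ M_Q i, so
p' ∈ D; conversely clear. Hence D' is the disjoint union of Q + T and translates of the
same three sets, and the areas (all sets measurable and bounded) give the statement. -/
theorem tri_decomp (n : Fin 3 → E) (hn : ∑ i, n i = 0)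
    (hli : LinearIndependent ℝ ![n 0, n 1]) {Q : Set E} (hQ : Body Q) (M : Fin 3 → ℝ)
    (hM : 0 ≤ ∑ i, M i) :
    area (TriS n (fun i => hs Q (n i) + M i)) - area (Q + TriS n M)
      = area (TriS n (fun i => hs Q (n i))) - area Q := by
  set MQ : Fin 3 → ℝ := fun i => hs Q (n i) with hMQ
  set S : ℝ := ∑ i, M i with hS
  obtain ⟨c, hc, hTri⟩ := tri_area n hn hli
  have hT : Body (TriS n M) := (hTri M hM).1
  have hMQ0 : 0 ≤ ∑ i, MQ i := Y_nonneg n hn hQ
  have hD : Body (TriS n MQ) := (hTri MQ hMQ0).1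
  have hD' : Body (TriS n (fun i => MQ i + M i)) := by
    refine (hTri _ ?_).1
    rw [Finset.sum_add_distrib]
    exact add_nonneg hMQ0 hM
  have hQT : Body (Q + TriS n M) := hQ.add hT
  -- the vertices
  have hvert : ∀ i : Fin 3, ∃ v : E, ⟪n i, v⟫ = M i - S ∧ ∀ j, j ≠ i → ⟪n j, v⟫ = M j := by
    intro i
    obtain ⟨p, hp⟩ := triS_exists_tr n hn hli M (fun l => if l = i then S else 0) (by simp [hS])
    refine ⟨p, ?_, fun j hj => ?_⟩
    · have := hp i
      rw [if_pos rfl] at this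
      linarith
    · have := hp j
      rw [if_neg hj] at this
      linarith
  choose v hvi hvj using hvert
  have hvT : ∀ i, v i ∈ TriS n M := by
    intro i j
    by_cases h : j = i
    · rw [h, hvi]
      linarith
    · rw [hvj i j h]
  have hQD : Q ⊆ TriS n MQ := fun x hx i => le_hs hQ.2.1 hx (n i)
  have hQTD : Q + TriS n M ⊆ TriS n (fun i => MQ i + M i) := by
    rintro _ ⟨q, hq, t, ht, rfl⟩ i
    simp only [inner_add_right]
    exact add_le_add (le_hs hQ.2.1 hq (n i)) (ht i)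
  -- the corner regions
  set F : Fin 3 → Set E := fun i => TriS n MQ \ ConeS n Q i with hF
  set F' : Fin 3 → Set E := fun i => tr (v i) (F i) with hF'
  have hFm : ∀ i, MeasurableSet (F i) := fun i =>
    hD.2.1.measurableSet.diff (TriDecomp_closed n hQ i).measurableSet
  have hF'm : ∀ i, MeasurableSet (F' i) := by
    intro i
    have h : tr (v i) (F i) = (fun x => x - v i) ⁻¹' (F i) := rfl
    rw [hF']
    change MeasurableSet (tr (v i) (F i))
    rw [h]
    exact (hFm i).preimage (by fun_prop)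
  -- the common part of the disjointness proofs
  have hcross : ∀ i k : Fin 3, i ≠ k → ∀ p p' : E, p ∈ F i → p' ∈ F k →
      (∀ j, j ≠ i → j ≠ k → ⟪n j, p⟫ = ⟪n j, p'⟫) → ⟪n k, p⟫ ≤ ⟪n k, p'⟫ → False := by
    intro i k hik p p' hp hp' hj hk
    obtain ⟨j, hij, hjk⟩ := TriDecomp_third i k hik
    obtain ⟨q, hq, hqj, hqk⟩ := cone_cross n hQ hij hik hjk (hp.1 j) (hp.1 k) hp.2
    refine hp'.2 ⟨q, hq, fun l hl => ?_⟩
    have h1 := TriDecomp_sum hn hij hik hjk q
    have h2 := TriDecomp_sum hn hij hik hjk p'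
    have h3 := hj j (Ne.symm hij) hjk
    have hl' : l = i ∨ l = j := by
      revert hij hik hjk hl
      clear * -
      revert i j k l
      decide
    rcases hl' with rfl | rfl
    · linarith
    · linarith
  have hFd : Pairwise (Function.onFun Disjoint F) := by
    intro i k hik
    rw [Function.onFun, Set.disjoint_left]
    intro p hp hp'
    exact hcross i k hik p p hp hp' (fun _ _ _ => rfl) le_rfl
  have hF'd : Pairwise (Function.onFun Disjoint F') := by
    intro i k hik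
    rw [Function.onFun, Set.disjoint_left]
    intro p hp hp'
    refine hcross i k hik (p - v i) (p - v k) hp hp' (fun j hji hjk => ?_) ?_
    · rw [inner_sub_right, inner_sub_right, hvj i j hji, hvj k j hjk]
    · rw [inner_sub_right, inner_sub_right, hvj i k (Ne.symm hik), hvi k]
      linarith
  have hU : TriS n MQ \ Q = ⋃ i, F i := by
    ext p
    simp only [Set.mem_diff, Set.mem_iUnion, hF]
    constructor
    · rintro ⟨h1, h2⟩
      by_contra hcon
      push Not at hcon
      refine h2 (cone_inter n hn hli hQ fun i => ?_)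
      by_contra h3
      exact h3 (hcon i h1)
    · rintro ⟨i, h1, h2⟩
      exact ⟨h1, fun h3 => h2 ⟨p, h3, fun _ _ => le_rfl⟩⟩
  have hU' : TriS n (fun i => MQ i + M i) \ (Q + TriS n M) = ⋃ i, F' i := by
    ext p
    simp only [Set.mem_diff, Set.mem_iUnion, hF', hF]
    constructor
    · rintro ⟨h1, h2⟩
      by_contra hcon
      push Not at hcon
      refine h2 ?_
      -- `p - v i` is in all cones
      have hcone : ∀ i, p - v i ∈ ConeS n Q i := by
        intro i
        by_contra h3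
        refine hcon i ⟨?_, h3⟩
        obtain ⟨j, k, hij, hik, hjk⟩ := TriDecomp_others i
        have hj : ⟪n j, p - v i⟫ ≤ hs Q (n j) := by
          rw [inner_sub_right, hvj i j (Ne.symm hij)]
          have := h1 j
          simp only [hMQ] at this
          linarith
        have hk : ⟪n k, p - v i⟫ ≤ hs Q (n k) := by
          rw [inner_sub_right, hvj i k (Ne.symm hik)]
          have := h1 k
          simp only [hMQ] at this
          linarith
        obtain ⟨q, hq, hqj, hqk⟩ := cone_cross n hQ hij hik hjk hj hk h3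
        have h4 := TriDecomp_sum hn hij hik hjk q
        have h5 := TriDecomp_sum hn hij hik hjk (p - v i)
        have h6 := le_hs hQ.2.1 hq (n i)
        intro l
        have hl' : l = i ∨ l = j ∨ l = k := by
          revert hij hik hjk
          clear * -
          revert i j k l
          decide
        rcases hl' with rfl | rfl | rfl
        · simp only [hMQ]
          linarith
        · exact hj
        · exact hk
      by_contra hcon2
      obtain ⟨u, hu⟩ := exists_sep hQT hcon2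
      obtain ⟨i, c, hc, hc0, rfl⟩ := TriDecomp_span n hn hli u
      obtain ⟨q, hq, hqp⟩ := hcone i
      have h3 := TriDecomp_inner_le hc hc0 hqp
      have h4 := le_hs hQT.2.1 (add_mem_add hq (hvT i)) (∑ j, c j • n j)
      rw [inner_add_right] at h4
      rw [inner_sub_right] at h3
      linarith
    · rintro ⟨i, h1, h2⟩
      refine ⟨fun j => ?_, ?_⟩
      · have h3 := h1 j
        rw [inner_sub_right] at h3
        by_cases h : j = i
        · rw [h] at h3 ⊢
          rw [hvi] at h3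
          linarith
        · rw [hvj i j h] at h3
          linarith
      · rintro ⟨q, hq, t, ht, hqt⟩
        refine h2 ⟨q, hq, fun j hj => ?_⟩
        rw [← hqt]
        simp only [inner_sub_right, inner_add_right]
        rw [hvj i j hj]
        have := ht j
        linarith
  have hvol : volume (TriS n (fun i => MQ i + M i) \ (Q + TriS n M)) =
      volume (TriS n MQ \ Q) := by
    rw [hU, hU', measure_iUnion hFd hFm, measure_iUnion hF'd hF'm]
    exact tsum_congr fun i => TriDecomp_vol (v i) (F i)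
  rw [measure_diff hQTD hQT.2.1.measurableSet.nullMeasurableSet (vol_lt_top hQT.2.1).ne,
    measure_diff hQD hQ.2.1.measurableSet.nullMeasurableSet (vol_lt_top hQ.2.1).ne] at hvol
  have h7 := congrArg ENNReal.toReal hvol
  rw [ENNReal.toReal_sub_of_le (measure_mono hQTD) (vol_lt_top hD'.2.1).ne,
    ENNReal.toReal_sub_of_le (measure_mono hQD) (vol_lt_top hD.2.1).ne] at h7
  exact h7

end FB88
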