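import Pool.Agent.W_fa9b59_h88.TriArea
import Pool.Agent.W_fa9b59_h88.TriDecomp

set_option autoImplicit false

open MeasureTheory Metric Set
open scoped Pointwise RealInnerProductSpace

namespace FB88

/-- scaling of the triangle -/
lemma triS_smul (n : Fin 3 → E) (M : Fin 3 → ℝ) {t : ℝ} (ht : 0 < t) :
    t • TriS n M = TriS n (fun i => t * M i) := by
  ext x
  rw [mem_smul_set_iff_inv_smul_mem₀ ht.ne']
  simp only [TriS, mem_setOf_eq, inner_smul_right]
  refine forall_congr' fun i => ?_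
  rw [inv_mul_le_iff₀ ht]

/-- Steiner formula for triangles. Take c from `tri_area`, S = 1 / (2 c) and
T = TriS n (S/3, S/3, S/3). For t > 0, t • T = TriS n (t S/3, ...) and by `tri_decomp`, `tri_area`
area (Q + t T) - area Q = c ((Y n Q + t S) ^ 2 - (Y n Q) ^ 2) = 2 c S t Y n Q + t ^ 2 c S ^ 2 and
2 c S = 1, c S ^ 2 = area T. (Y n Q ≥ 0 by `Y_nonneg`.) t = 0 is trivial: Q + 0 • T = Q. -/
theorem tri_stein (n : Fin 3 → E) (hn : ∑ i, n i = 0)
    (hli : LinearIndependent ℝ ![n 0, n 1]) : ∃ T, Body T ∧ Stein n T := by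
  obtain ⟨c, hc, hA⟩ := tri_area n hn hli
  set S : ℝ := 1 / (2 * c) with hS
  have hSpos : 0 < S := by positivity
  have hsum : ∀ a : ℝ, ∑ _i : Fin 3, a / 3 = a := by
    intro a
    simp [Fin.sum_univ_three]
    ring
  have hT := hA (fun _ => S / 3) (by rw [hsum]; exact hSpos.le)
  refine ⟨TriS n (fun _ => S / 3), hT.1, ?_⟩
  intro Q hQ t ht
  rcases ht.eq_or_lt with rfl | htp
  · have : (0 : ℝ) • TriS n (fun _ => S / 3) = {0} := zero_smul_set hT.1.2.2
    rw [this]
    simp
  · have hYn := Y_nonneg n hn hQ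
    rw [triS_smul n _ htp]
    have hdec := tri_decomp n hn hli hQ (fun _ => t * (S / 3)) (by
      have : ∑ _i : Fin 3, t * (S / 3) = t * S := by
        rw [← Finset.mul_sum, hsum]
      rw [this]; positivity)
    have h1 := (hA (fun i => hs Q (n i) + t * (S / 3)) (by
      rw [Finset.sum_add_distrib, ← Finset.mul_sum, hsum]
      have : 0 ≤ t * S := by positivity
      unfold Y at hYn
      linarith)).2
    have h2 := (hA (fun i => hs Q (n i)) hYn).2
    rw [Finset.sum_add_distrib, ← Finset.mul_sum, hsum] at h1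
    rw [h1, h2] at hdec
    have h3 := hT.2
    rw [hsum] at h3
    rw [h3]
    have hcS : c * S = 1 / 2 := by
      rw [hS]; field_simp
    have hYd : Y n Q = ∑ i, hs Q (n i) := rfl
    rw [hYd]
    have hgoal : area (Q + TriS n fun _ => t * (S / 3)) =
        area Q + c * (∑ i, hs Q (n i) + t * S) ^ 2 - c * (∑ i, hs Q (n i)) ^ 2 := by
      linarith
    rw [hgoal]
    have e : c * (∑ i, hs Q (n i) + t * S) ^ 2 - c * (∑ i, hs Q (n i)) ^ 2 =
        2 * (c * S) * t * (∑ i, hs Q (n i)) + t ^ 2 * (c * S ^ 2) := by ring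
    rw [add_sub_assoc, e, hcS]
    ring

end FB88
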