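import Pool.Agent.W_fa9b59_h88.PolA
import Pool.Agent.W_fa9b59_h88.Seg
import Pool.Agent.W_fa9b59_h88.TriSt

set_option autoImplicit false

open MeasureTheory Metric Set
open scoped Pointwise RealInnerProductSpace

namespace FB88

lemma polb_hs_smul {Q : Set E} (hQ : Body Q) (c : ℝ) (e : E) :
    hs Q (c • e) = max c 0 * hs Q e + max (-c) 0 * hs Q (-e) := by
  rcases le_total 0 c with h | h
  · rw [hs_dir_smul hQ.2.1 hQ.2.2 h, max_eq_left h, max_eq_right (neg_nonpos.2 h)]
    ring
  · have h1 : c • e = (-c) • (-e) := by rw [smul_neg, neg_smul, neg_neg]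
    rw [h1, hs_dir_smul hQ.2.1 hQ.2.2 (neg_nonneg.2 h), max_eq_right h,
      max_eq_left (neg_nonneg.2 h)]
    ring

/-- multiples of one vector -/
lemma polb_line (c : Fin 3 → ℝ) (hc : ∑ i, c i = 0) (e : E) :
    ∃ T, Body T ∧ Stein (fun i => c i • e) T := by
  set C := ∑ i, max (c i) 0 with hC
  have hC0 : 0 ≤ C := Finset.sum_nonneg fun i _ => le_max_right _ _
  have hC' : ∑ i, max (-(c i)) 0 = C := by
    have h1 : ∀ i, max (-(c i)) 0 = max (c i) 0 - c i := by
      intro i
      rcases le_total 0 (c i) with h | h
      · rw [max_eq_left h, max_eq_right (neg_nonpos.2 h)]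
        ring
      · rw [max_eq_right h, max_eq_left (neg_nonneg.2 h)]
        ring
    rw [Finset.sum_congr rfl fun i _ => h1 i, Finset.sum_sub_distrib, hc, sub_zero]
  refine ⟨segment ℝ 0 (J (C • e)), seg_body _, stein_congr ?_ (steiner_seg (C • e))⟩
  intro Q hQ
  have h1 : Y ![C • e, -(C • e)] Q = C * hs Q e + C * hs Q (-e) := by
    rw [Y, Fin.sum_univ_two]
    simp only [Matrix.cons_val_zero, Matrix.cons_val_one]
    rw [← smul_neg, hs_dir_smul hQ.2.1 hQ.2.2 hC0, hs_dir_smul hQ.2.1 hQ.2.2 hC0]
  rw [h1, Y, Finset.sum_congr rfl fun i _ => polb_hs_smul hQ (c i) e, Finset.sum_add_distrib,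
    ← Finset.sum_mul, ← Finset.sum_mul, hC']

/-- three vectors with sum 0: if p 0, p 1 are independent use `tri_stein`; otherwise all p i are
multiples c i • e of one vector e with ∑ c i = 0; then Y p Q = C (hs Q e + hs Q (-e)) where C is
the sum of the positive c i, and T = segment 0 (J (C • e)) works by `steiner_seg`
and `hs_dir_smul`. -/
lemma stein_three (p : Fin 3 → E) (hp : ∑ i, p i = 0) : ∃ T, Body T ∧ Stein p T := by
  by_cases hli : LinearIndependent ℝ ![p 0, p 1]
  · exact tri_stein p hp hli
  have hp' : p 2 = -(p 0) - p 1 := by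
    rw [Fin.sum_univ_three] at hp
    have : p 2 = -(p 0 + p 1) := by
      rw [eq_neg_iff_add_eq_zero, add_comm]
      exact hp
    rw [this]
    abel
  have key : ∀ (c : Fin 3 → ℝ) (e : E), ∑ i, c i = 0 → (∀ i, p i = c i • e) →
      ∃ T, Body T ∧ Stein p T := by
    intro c e hc he
    have h1 : p = fun i => c i • e := funext he
    rw [h1]
    exact polb_line c hc e
  by_cases h0 : p 0 = 0
  · refine key ![0, 1, -1] (p 1) (by simp [Fin.sum_univ_three]) ?_
    intro i
    fin_cases i
    · simp [h0]
    · simp
    · simp [hp', h0]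
  · rw [LinearIndependent.pair_iff' h0] at hli
    push Not at hli
    obtain ⟨a, ha⟩ := hli
    refine key ![1, a, -1 - a] (p 0) (by simp [Fin.sum_univ_three]) ?_
    intro i
    fin_cases i
    · simp
    · simp [ha]
    · simp [hp', ← ha, sub_smul]

/-- the family α i • w i with α supported on {a, b, c}: its functional Y equals that of three
vectors (group equal indices), so `stein_three` applies. -/
lemma stein_supported {ι : Type} [Fintype ι] [DecidableEq ι] (w : ι → E) (a b c : ι)
    (hw : ∑ i, w i = 0) (hsup : ∀ i, i ≠ a → i ≠ b → i ≠ c → w i = 0) :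
    ∃ T, Body T ∧ Stein w T := by
  set p : Fin 3 → E := ![w a, if b = a then 0 else w b, if c = a ∨ c = b then 0 else w c] with hp
  have key : ∀ {F : Type} [AddCommMonoid F] (g : E → F), g 0 = 0 →
      ∑ i, g (w i) = ∑ i, g (p i) := by
    intro F _ g hg
    have h1 : ∑ i, g (w i) = ∑ i ∈ ({a, b, c} : Finset ι), g (w i) := by
      refine (Finset.sum_subset (Finset.subset_univ _) fun i _ hi => ?_).symm
      simp only [Finset.mem_insert, Finset.mem_singleton, not_or] at hi
      rw [hsup i hi.1 hi.2.1 hi.2.2, hg]
    rw [h1, Fin.sum_univ_three]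
    simp only [hp, Matrix.cons_val_zero, Matrix.cons_val_one, Matrix.cons_val]
    by_cases h2 : b = a
    · subst h2
      by_cases h3 : c = b
      · subst h3
        simp [hg]
      · have h3' : b ≠ c := fun h => h3 h.symm
        rw [Finset.insert_eq_of_mem (Finset.mem_insert_self _ _), Finset.sum_pair h3']
        simp [h3, hg]
    · by_cases h3 : c = a
      · subst h3
        have h4 : ({c, b, c} : Finset ι) = {c, b} := by
          ext i
          simp only [Finset.mem_insert, Finset.mem_singleton]
          tauto
        rw [h4, Finset.sum_pair (fun h => h2 h.symm)]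
        simp [h2, hg]
      · by_cases h4 : c = b
        · subst h4
          have h5 : ({a, c, c} : Finset ι) = {a, c} := by simp
          rw [h5, Finset.sum_pair (fun h => h2 h.symm)]
          simp [h2, hg]
        · have h5 : a ∉ ({b, c} : Finset ι) := by
            simp only [Finset.mem_insert, Finset.mem_singleton, not_or]
            exact ⟨fun h => h2 h.symm, fun h => h3 h.symm⟩
          rw [Finset.sum_insert h5, Finset.sum_pair (fun h => h4 h.symm)]
          simp [h2, h3, h4, add_assoc]
  have hp0 : ∑ i, p i = 0 := by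
    have := key (fun x : E => x) rfl
    rw [hw] at this
    exact this.symm
  obtain ⟨T, hT, hSt⟩ := stein_three p hp0
  refine ⟨T, hT, stein_congr (fun Q _ => ?_) hSt⟩
  exact (key (fun x => hs Q x) (hs_zero_dir Q)).symm

/-- Minkowski existence theorem in the plane: every finite family with sum 0 is the family of
edge normals of a body T for which the Steiner formula holds.
Proof by strong induction on the number of i with w i ≠ 0. If it is 0: `stein_zero`. Otherwise
take α from `caratheodory_step`; w i = α i • w i + (1 - α i) • w i; the first family is handled by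
`stein_supported`, the second has fewer nonzero members (it vanishes at j) and sum 0;
`stein_add`, `stein_congr` with Y w Q = Y (α w) Q + Y ((1-α) w) Q from `hs_dir_smul`. -/
theorem exists_pol {ι : Type} [Fintype ι] (w : ι → E) (hw : ∑ i, w i = 0) :
    ∃ T, Body T ∧ Stein w T := by
  classical
  generalize hn : (Finset.univ.filter fun i => w i ≠ 0).card = n
  induction n using Nat.strong_induction_on generalizing w with
  | _ n ih =>
    by_cases hne : ∃ i, w i ≠ 0
    · obtain ⟨a, b, c, α, h1, h2, h3, j, hj, hj1⟩ := caratheodory_step w hw hne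
      obtain ⟨T₁, hT₁, hS₁⟩ := stein_supported (fun i => α i • w i) a b c h3
        (fun i ha hb hc => by simp only [h2 i ha hb hc, zero_smul])
      have hw2 : ∑ i, (1 - α i) • w i = 0 := by
        have : ∑ i, (1 - α i) • w i = ∑ i, w i - ∑ i, α i • w i := by
          rw [← Finset.sum_sub_distrib]
          refine Finset.sum_congr rfl fun i _ => ?_
          rw [sub_smul, one_smul]
        rw [this, hw, h3, sub_zero]
      have hcard : (Finset.univ.filter fun i => (1 - α i) • w i ≠ 0).card < n := by
        rw [← hn]
        apply Finset.card_lt_card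
        rw [Finset.ssubset_iff_of_subset]
        · refine ⟨j, by simp [hj], ?_⟩
          simp [hj1]
        · intro i hi
          rw [Finset.mem_filter] at hi ⊢
          exact ⟨hi.1, fun h0 => hi.2 (by rw [h0, smul_zero])⟩
      obtain ⟨T₂, hT₂, hS₂⟩ := ih _ hcard (fun i => (1 - α i) • w i) hw2 rfl
      refine ⟨T₁ + T₂, hT₁.add hT₂, stein_congr (fun Q hQ => ?_) (stein_add hT₁ hT₂ hS₁ hS₂)⟩
      rw [Y, Y, Fintype.sum_sum_type]
      simp only [Sum.elim_inl, Sum.elim_inr]
      rw [← Finset.sum_add_distrib]
      refine Finset.sum_congr rfl fun i _ => ?_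
      rw [hs_dir_smul hQ.2.1 hQ.2.2 (h1 i).1, hs_dir_smul hQ.2.1 hQ.2.2 (by linarith [(h1 i).2])]
      ring
    · push Not at hne
      have : w = fun _ => 0 := funext hne
      rw [this]
      exact ⟨{0}, Body.singleton 0, stein_zero⟩

end FB88
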