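import Pool.Agent.W_fa9b59_h88.Dual
import Pool.Agent.W_fa9b59_h88.PolB
import Pool.Agent.W_fa9b59_h88.Mix

set_option autoImplicit false

open MeasureTheory Metric Set
open scoped Pointwise RealInnerProductSpace

namespace FB88

/-- s > 0: K contains a ball -/
lemma s_pos {K : Set E} (hKi : (interior K).Nonempty) {s : ℝ}
    (hS : ∀ S ⊆ K, Convex ℝ S → (∃ c : E, ∀ x ∈ S, c - x ∈ S) → area S ≤ s) : 0 < s := by
  obtain ⟨x, hx⟩ := hKi
  obtain ⟨ε, hε, hb⟩ := Metric.isOpen_iff.1 isOpen_interior x hx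
  have h := hS (ball x ε) (hb.trans interior_subset) (convex_ball x ε) ⟨x + x, fun y hy => by
    rw [mem_ball, dist_eq_norm] at hy ⊢
    rwa [show x + x - y - x = -(y - x) by abel, norm_neg]⟩
  exact (ENNReal.toReal_pos (measure_ball_pos volume x hε).ne' measure_ball_lt_top.ne).trans_le h

/-- if √(area Q) ≤ C (Y w Q + Y w (-Q)) for all bodies Q then T - T has positive area.
Proof: X = T - T satisfies area (Q + X) = area Q + Y w Q + Y w (-Q) + area X. If area X = 0 then
X, being convex with empty interior and symmetric, lies in a line ℝ e. Let I = segment 0 e'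
(e' a nonzero multiple of e): area (I + X) = 0 (contained in the line) so Y w I + Y w (-I) = 0 and
Y w (B + λ I) + Y w (-(B + λ I)) does not depend on λ ≥ 0, B the unit ball, while
area (B + λ I) → ∞ (it contains translates of B along I, or use `steiner_seg`). -/
lemma diff_pos {ι : Type} [Fintype ι] {w : ι → E} (hw : ∑ i, w i = 0) {T : Set E}
    (hT : Body T) (hSt : Stein w T) {C : ℝ}
    (h : ∀ Q, Body Q → √(area Q) ≤ C * (Y w Q + Y w (-Q))) : 0 < area (T + -T) := by
  by_contra hcon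
  have hX0 : area (T + -T) = 0 := le_antisymm (not_lt.1 hcon) (area_nonneg _)
  set X := T + -T with hXdef
  have hX : Body X := hT.add hT.neg
  have e1 : area X = area T + Y w (-T) + area T := by
    have := stein_neg hSt hT zero_le_one
    rw [one_smul] at this
    rw [hXdef, this]
    ring
  have hadd : ∀ Q, Body Q → area (Q + X) = area Q + (Y w Q + Y w (-Q)) := by
    intro Q hQ
    have h1 : Q + X = (Q + T) + (1 : ℝ) • (-T) := by
      rw [one_smul, hXdef, add_assoc]
    have h2 := stein_neg hSt (hQ.add hT) zero_le_one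
    have h3 := hSt Q hQ 1 zero_le_one
    rw [one_smul] at h3
    rw [h1, h2, h3, neg_add, Y_add w hQ.neg hT.neg]
    linarith
  have hXX : Y w X + Y w (-X) = 0 := by
    have h1 := hadd X hX
    have h2 : X + X = (2 : ℝ) • X := by
      have := hX.1.add_smul (p := 1) (q := 1) zero_le_one zero_le_one
      rw [one_smul] at this
      rw [← this]
      norm_num
    rw [h2, area_smul, hX0] at h1
    linarith
  have hB : Body (closedBall (0 : E) 1) :=
    ⟨convex_closedBall _ _, isCompact_closedBall _ _, ⟨0, by simp⟩⟩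
  set c₀ := Y w (closedBall (0 : E) 1) + Y w (-(closedBall (0 : E) 1)) with hc₀
  have hc0 : 0 ≤ c₀ := add_nonneg (Y_nonneg w hw hB) (Y_nonneg w hw hB.neg)
  have hareaB : 0 < area (closedBall (0 : E) 1) :=
    ENNReal.toReal_pos (measure_closedBall_pos volume _ one_pos).ne'
      measure_closedBall_lt_top.ne
  have hc1 : 0 < c₀ := by
    refine lt_of_le_of_ne hc0 fun h0 => ?_
    have h1 := h _ hB
    rw [← hc₀, ← h0, mul_zero] at h1
    have h2 := Real.sqrt_pos.2 hareaB
    linarith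
  have hQn : ∀ n : ℕ, Body (closedBall (0 : E) 1 + (n : ℝ) • X) := fun n => hB.add (hX.smul _)
  have hYn : ∀ n : ℕ, Y w (closedBall (0 : E) 1 + (n : ℝ) • X) +
      Y w (-(closedBall (0 : E) 1 + (n : ℝ) • X)) = c₀ := by
    intro n
    have h1 : -(closedBall (0 : E) 1 + (n : ℝ) • X) =
        -(closedBall (0 : E) 1) + (n : ℝ) • (-X) := by
      rw [neg_add, ← Set.smul_set_neg]
    rw [h1, Y_add w hB (hX.smul _), Y_add w hB.neg (hX.neg.smul _),
      Y_smul w hX (Nat.cast_nonneg n), Y_smul w hX.neg (Nat.cast_nonneg n), hc₀]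
    linear_combination (n : ℝ) * hXX
  have harea : ∀ n : ℕ, area (closedBall (0 : E) 1 + (n : ℝ) • X) =
      area (closedBall (0 : E) 1) + n * c₀ := by
    intro n
    induction n with
    | zero =>
      have h1 : ((0 : ℕ) : ℝ) • X = {0} := by
        rw [Nat.cast_zero]
        exact Set.zero_smul_set hX.2.2
      rw [h1, Nat.cast_zero, zero_mul, add_zero]
      simp
    | succ n ih =>
      have h1 : closedBall (0 : E) 1 + ((n + 1 : ℕ) : ℝ) • X =
          (closedBall (0 : E) 1 + (n : ℝ) • X) + X := by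
        have h2 := hX.1.add_smul (p := (n : ℝ)) (q := 1) (Nat.cast_nonneg n) zero_le_one
        rw [one_smul] at h2
        rw [Nat.cast_add, Nat.cast_one, h2, add_assoc]
      rw [h1, hadd _ (hQn n), ih, hYn n]
      push_cast
      ring
  have hbound : ∀ n : ℕ, area (closedBall (0 : E) 1) + n * c₀ ≤ (C * c₀) ^ 2 := by
    intro n
    have h1 := h _ (hQn n)
    rw [hYn n] at h1
    rw [← harea n]
    calc area (closedBall (0 : E) 1 + (n : ℝ) • X)
        = √(area (closedBall (0 : E) 1 + (n : ℝ) • X)) ^ 2 :=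
          (Real.sq_sqrt (area_nonneg _)).symm
      _ ≤ (C * c₀) ^ 2 := pow_le_pow_left₀ (Real.sqrt_nonneg _) h1 2
  obtain ⟨n, hn⟩ := exists_nat_gt ((C * c₀) ^ 2 / c₀)
  have h1 := hbound n
  rw [div_lt_iff₀ hc1] at hn
  linarith

/-- Certificate. With μ from `dual`, w i = (2 √s μ i) • u i, T from `exists_pol`, X = T - T:
√(area Q) ≤ (Y w Q + Y w (-Q)) / (2 √s) for all bodies; Y w K = 2 √s ∑ μ i hs K (u i)
≤ 2 √s ∑ μ i k i ≤ s; area X = Y w X = Y w (-X) (X = -X) and area X > 0 (`diff_pos`), so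
√(area X) ≤ area X / √s, i.e. area X ≥ s. For a body Q ⊆ K: `mix` gives
area Q s ≤ area Q area X ≤ Y w Q Y w (-Q) ≤ Y w K Y w (-Q) ≤ s Y w (-Q). -/
theorem cert {ι : Type} [Fintype ι] (u : ι → E) (hu : ∀ i, u i ≠ 0) (k : ι → ℝ) {K : Set E}
    (hK : Body K) (hKi : (interior K).Nonempty) (hKe : K = {x | ∀ i, ⟪u i, x⟫ ≤ k i}) {s : ℝ}
    (hS : ∀ S ⊆ K, Convex ℝ S → (∃ c : E, ∀ x ∈ S, c - x ∈ S) → area S ≤ s) :
    ∃ w : ι → E, ∑ i, w i = 0 ∧ (∀ Q, Body Q → Q ⊆ K → area Q ≤ Y w (-Q)) ∧ Y w K ≤ s := by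
  have hspos : 0 < s := s_pos hKi hS
  have hss : 0 < √s := Real.sqrt_pos.2 hspos
  obtain ⟨μ, hμ0, hμu, hμQ, hμk⟩ := dual u hu k hK hKi hKe hS
  set w : ι → E := fun i => (2 * √s * μ i) • u i with hwdef
  have hnn : ∀ i, 0 ≤ 2 * √s * μ i := fun i => mul_nonneg (by positivity) (hμ0 i)
  have hw : ∑ i, w i = 0 := by
    have : ∑ i, w i = (2 * √s) • ∑ i, μ i • u i := by
      rw [Finset.smul_sum]
      refine Finset.sum_congr rfl fun i _ => ?_
      rw [hwdef, smul_smul]
    rw [this, hμu, smul_zero]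
  have hY : ∀ Q, Body Q → Y w Q = 2 * √s * ∑ i, μ i * hs Q (u i) := by
    intro Q hQ
    rw [Y, Finset.mul_sum]
    refine Finset.sum_congr rfl fun i _ => ?_
    rw [hwdef]
    simp only
    rw [hs_dir_smul hQ.2.1 hQ.2.2 (hnn i)]
    ring
  have hY' : ∀ Q, Body Q → Y w (-Q) = 2 * √s * ∑ i, μ i * hs Q (-(u i)) := by
    intro Q hQ
    rw [hY (-Q) hQ.neg]
    simp only [hs_neg]
  have hsum : ∀ Q, Body Q → √(area Q) ≤ 1 / (2 * √s) * (Y w Q + Y w (-Q)) := by
    intro Q hQ
    refine (hμQ Q hQ).trans (le_of_eq ?_)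
    rw [hY Q hQ, hY' Q hQ, ← mul_add, ← Finset.sum_add_distrib, ← mul_assoc,
      one_div_mul_cancel (by positivity), one_mul]
    refine Finset.sum_congr rfl fun i _ => ?_
    ring
  obtain ⟨T, hT, hSt⟩ := exists_pol w hw
  have hX : Body (T + -T) := hT.add hT.neg
  have hXpos : 0 < area (T + -T) := diff_pos hw hT hSt hsum
  have hXY : area (T + -T) = Y w (T + -T) := area_diff hT hSt
  have hXneg : -(T + -T) = T + -T := by
    rw [neg_add, neg_neg, add_comm]
  have hXs : s ≤ area (T + -T) := by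
    have h1 := hsum _ hX
    rw [hXneg, ← hXY] at h1
    have h2 : 1 / (2 * √s) * (area (T + -T) + area (T + -T)) = area (T + -T) / √s := by
      field_simp
      ring
    rw [h2, le_div_iff₀ hss] at h1
    have h3 : 0 < √(area (T + -T)) := Real.sqrt_pos.2 hXpos
    have h4 : √(area (T + -T)) * √s ≤ √(area (T + -T)) * √(area (T + -T)) := by
      rw [Real.mul_self_sqrt hXpos.le]
      exact h1
    have h5 : √s ≤ √(area (T + -T)) := le_of_mul_le_mul_left h4 h3
    exact (Real.sqrt_le_sqrt_iff hXpos.le).1 h5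
  have hYK : Y w K ≤ s := by
    rw [hY K hK]
    have h1 : ∑ i, μ i * hs K (u i) ≤ ∑ i, μ i * k i := by
      refine Finset.sum_le_sum fun i _ => mul_le_mul_of_nonneg_left ?_ (hμ0 i)
      refine hs_le hK.2.2 fun x hx => ?_
      rw [hKe] at hx
      exact hx i
    calc 2 * √s * ∑ i, μ i * hs K (u i) ≤ 2 * √s * ∑ i, μ i * k i :=
          mul_le_mul_of_nonneg_left h1 (by positivity)
      _ = √s * (2 * ∑ i, μ i * k i) := by ring
      _ ≤ √s * √s := mul_le_mul_of_nonneg_left hμk hss.le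
      _ = s := Real.mul_self_sqrt hspos.le
  refine ⟨w, hw, ?_, hYK⟩
  intro Q hQ hQK
  have h1 := mix hw hT hSt hQ
  have h2 : 0 ≤ Y w (-Q) := Y_nonneg w hw hQ.neg
  have h3 : Y w Q ≤ s := (Y_mono w hQK hQ hK).trans hYK
  have h4 : area Q * s ≤ area Q * area (T + -T) :=
    mul_le_mul_of_nonneg_left hXs (area_nonneg Q)
  have h5 : Y w Q * Y w (-Q) ≤ s * Y w (-Q) := mul_le_mul_of_nonneg_right h3 h2
  have h6 : s * area Q ≤ s * Y w (-Q) := by linarith
  exact le_of_mul_le_mul_left h6 hspos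

end FB88
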