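import Pool.Agent.W_fa9b59_h88.Basic

set_option autoImplicit false

open MeasureTheory Metric Set
open scoped Pointwise RealInnerProductSpace

namespace FB88

/-- a crossing quadruple of A and B -/
def CrossQ (A B : Set E) : Prop :=
  ∃ a₁ ∈ A \ B, ∃ a₂ ∈ A \ B, ∃ b₁ ∈ B \ A, ∃ b₂ ∈ B \ A,
    (segment ℝ a₁ a₂ ∩ segment ℝ b₁ b₂).Nonempty

lemma CrossQ.symm {A B : Set E} (h : CrossQ A B) : CrossQ B A := by
  obtain ⟨a₁, ha₁, a₂, ha₂, b₁, hb₁, b₂, hb₂, h⟩ := h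
  exact ⟨b₁, hb₁, b₂, hb₂, a₁, ha₁, a₂, ha₂, by rwa [inter_comm]⟩

end FB88
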