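import Pool.Agent.W_fa9b59_h88.CrossDef

set_option autoImplicit false

open MeasureTheory Metric Set
open scoped Pointwise RealInnerProductSpace

namespace FB88

/-- two finite sets with at most four points whose hulls meet -/
theorem CrossFin_small {A B : Set E} (hA : Convex ℝ A) (hB : Convex ℝ B) (FA FB : Finset E)
    (hFA : (FA : Set E) ⊆ A \ B) (hFB : (FB : Set E) ⊆ B \ A) (hc : FA.card + FB.card ≤ 4)
    {z : E} (hz1 : z ∈ convexHull ℝ (FA : Set E)) (hz2 : z ∈ convexHull ℝ (FB : Set E)) :
    CrossQ A B := by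
  have key : ∀ (X Y : Set E) (F G : Finset E), Convex ℝ Y → (F : Set E) ⊆ X \ Y →
      (G : Set E) ⊆ Y \ X → z ∈ convexHull ℝ (F : Set E) → z ∈ convexHull ℝ (G : Set E) →
      2 ≤ F.card := by
    intro X Y F G hY hF hG h1 h2
    by_contra hlt
    have hzY : z ∈ Y := by
      have : convexHull ℝ (G : Set E) ⊆ Y := convexHull_min (hG.trans diff_subset) hY
      exact this h2
    have h01 : F.card = 0 ∨ F.card = 1 := by omega
    rcases h01 with h0 | h0
    · rw [Finset.card_eq_zero] at h0
      rw [h0, Finset.coe_empty, convexHull_empty] at h1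
      exact h1
    · rw [Finset.card_eq_one] at h0
      obtain ⟨x, hx⟩ := h0
      rw [hx, Finset.coe_singleton, convexHull_singleton, mem_singleton_iff] at h1
      have hxF : x ∈ (F : Set E) := by rw [hx]; simp
      exact (hF hxF).2 (h1 ▸ hzY)
  have k1 := key A B FA FB hB hFA hFB hz1 hz2
  have k2 := key B A FB FA hA hFB hFA hz2 hz1
  have c1 : FA.card = 2 := by omega
  have c2 : FB.card = 2 := by omega
  rw [Finset.card_eq_two] at c1 c2
  obtain ⟨a₁, a₂, _, ha⟩ := c1
  obtain ⟨b₁, b₂, _, hb⟩ := c2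
  rw [ha, Finset.coe_insert, Finset.coe_singleton] at hFA hz1
  rw [hb, Finset.coe_insert, Finset.coe_singleton] at hFB hz2
  rw [convexHull_pair] at hz1 hz2
  exact ⟨a₁, hFA (by simp), a₂, hFA (by simp), b₁, hFB (by simp), b₂, hFB (by simp), z, hz1, hz2⟩

/-- If the convex hulls of A \ B and B \ A meet then A, B have a crossing quadruple.
Proof. Let z be a common point. In E × ℝ (dimension 3) let
S = {(x, 1) | x ∈ A \ B} ∪ {(-y, -1) | y ∈ B \ A}; 0 = (z, 1)/2 + (-z, -1)/2 is in the convex hull
of S. By Caratheodory (`convexHull_eq_union`, `AffineIndependent.card_le_finrank_succ`) 0 is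
a convex combination of at most 4 points of S, with weights λ on points (x, 1) and μ on points
(-y, -1). The last coordinate gives ∑ λ = ∑ μ = 1/2, so z' = 2 ∑ λ x = 2 ∑ μ y is in the convex hull
of the used x and of the used y. If only one x is used then x = z' is in the convex hull of
B \ A, which is contained in B: contradiction; same for y. So exactly two x and two y
are used (a point used twice does not matter), which is a crossing quadruple. -/
theorem cross_of_hulls {A B : Set E} (hA : Convex ℝ A) (hB : Convex ℝ B)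
    (h : (convexHull ℝ (A \ B) ∩ convexHull ℝ (B \ A)).Nonempty) : CrossQ A B := by
  obtain ⟨z, hz1, hz2⟩ := h
  set S1 : Set (E × ℝ) := (A \ B) ×ˢ {(1 : ℝ)} with hS1
  set S2 : Set (E × ℝ) := (-(B \ A)) ×ˢ {(-1 : ℝ)} with hS2
  have m1 : (z, (1 : ℝ)) ∈ convexHull ℝ (S1 ∪ S2) := by
    apply convexHull_mono subset_union_left
    rw [hS1, convexHull_prod, convexHull_singleton]
    exact ⟨hz1, rfl⟩
  have m2 : (-z, (-1 : ℝ)) ∈ convexHull ℝ (S1 ∪ S2) := by
    apply convexHull_mono subset_union_right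
    rw [hS2, convexHull_prod, convexHull_singleton, convexHull_neg]
    refine ⟨?_, rfl⟩
    show - -z ∈ convexHull ℝ (B \ A)
    rw [neg_neg]
    exact hz2
  have m0 : (0 : E × ℝ) ∈ convexHull ℝ (S1 ∪ S2) := by
    have := (convex_convexHull ℝ (S1 ∪ S2)) m1 m2 (by norm_num : (0 : ℝ) ≤ 1 / 2)
      (by norm_num : (0 : ℝ) ≤ 1 / 2) (by norm_num)
    have e : (1 / 2 : ℝ) • (z, (1 : ℝ)) + (1 / 2 : ℝ) • (-z, (-1 : ℝ)) = 0 := by
      ext <;> simp
    rwa [e] at this
  rw [convexHull_eq_union] at m0
  simp only [mem_iUnion, exists_prop] at m0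
  obtain ⟨t, htS, hind, ht0⟩ := m0
  have hcard : t.card ≤ 4 := by
    have h1 := hind.card_le_finrank_succ
    have h2 : Module.finrank ℝ (E × ℝ) = 3 := by
      rw [Module.finrank_prod, Module.finrank_self, finrank_euclideanSpace_fin]
    have h3 := Submodule.finrank_le (vectorSpan ℝ (Set.range ((↑) : t → E × ℝ)))
    rw [h2] at h3
    rw [Fintype.card_coe] at h1
    omega
  classical
  set FA : Finset E := (t.filter (fun p => p.2 = 1)).image Prod.fst with hFAd
  set FB : Finset E := (t.filter (fun p => ¬ p.2 = 1)).image (fun p => -p.1) with hFBd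
  have hcc : FA.card + FB.card ≤ 4 := by
    have h1 : FA.card ≤ (t.filter (fun p => p.2 = 1)).card := Finset.card_image_le
    have h2 : FB.card ≤ (t.filter (fun p => ¬ p.2 = 1)).card := Finset.card_image_le
    have h3 := Finset.card_filter_add_card_filter_not (s := t) (fun p : E × ℝ => p.2 = 1)
    omega
  have hFA : (FA : Set E) ⊆ A \ B := by
    intro x hx
    rw [Finset.mem_coe, hFAd, Finset.mem_image] at hx
    obtain ⟨p, hp, rfl⟩ := hx
    rw [Finset.mem_filter] at hp
    rcases htS hp.1 with h | h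
    · exact h.1
    · exfalso
      have h2 : p.2 = -1 := h.2
      rw [hp.2] at h2
      norm_num at h2
  have hFB : (FB : Set E) ⊆ B \ A := by
    intro x hx
    rw [Finset.mem_coe, hFBd, Finset.mem_image] at hx
    obtain ⟨p, hp, rfl⟩ := hx
    rw [Finset.mem_filter] at hp
    rcases htS hp.1 with h | h
    · exact absurd h.2 hp.2
    · exact h.1
  have hsub : (t : Set (E × ℝ)) ⊆ (FA : Set E) ×ˢ {(1 : ℝ)} ∪ (-(FB : Set E)) ×ˢ {(-1 : ℝ)} := by
    intro p hp
    by_cases h1 : p.2 = 1
    · left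
      refine ⟨?_, h1⟩
      rw [Finset.mem_coe, hFAd, Finset.mem_image]
      exact ⟨p, Finset.mem_filter.2 ⟨hp, h1⟩, rfl⟩
    · right
      rcases htS hp with h | h
      · exact absurd h.2 h1
      · refine ⟨?_, h.2⟩
        rw [Set.mem_neg, Finset.mem_coe, hFBd, Finset.mem_image]
        exact ⟨p, Finset.mem_filter.2 ⟨hp, h1⟩, rfl⟩
  have h0 := convexHull_mono (𝕜 := ℝ) hsub ht0
  have hneA : FA.Nonempty := by
    by_contra hne
    rw [Finset.not_nonempty_iff_eq_empty] at hne
    rw [hne, Finset.coe_empty, empty_prod, empty_union, convexHull_prod, convexHull_singleton] at h0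
    have h2 : (0 : ℝ) = -1 := h0.2
    norm_num at h2
  have hneB : FB.Nonempty := by
    by_contra hne
    rw [Finset.not_nonempty_iff_eq_empty] at hne
    rw [hne, Finset.coe_empty, neg_empty, empty_prod, union_empty, convexHull_prod,
      convexHull_singleton] at h0
    have h2 : (0 : ℝ) = 1 := h0.2
    norm_num at h2
  have hn1 : ((FA : Set E) ×ˢ {(1 : ℝ)}).Nonempty := by
    obtain ⟨x, hx⟩ := hneA
    exact ⟨(x, 1), hx, rfl⟩
  have hn2 : ((-(FB : Set E)) ×ˢ {(-1 : ℝ)}).Nonempty := by
    obtain ⟨x, hx⟩ := hneB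
    refine ⟨(-x, -1), ?_, rfl⟩
    show - -x ∈ (FB : Set E)
    rw [neg_neg]
    exact hx
  rw [convexHull_union hn1 hn2, mem_convexJoin] at h0
  obtain ⟨p, hp, q, hq, hpq⟩ := h0
  rw [convexHull_prod, convexHull_singleton] at hp hq
  rw [convexHull_neg] at hq
  obtain ⟨a, b, ha, hb, hab, hpq⟩ := hpq
  have hp2 : p.2 = 1 := hp.2
  have hq2 : q.2 = -1 := hq.2
  have e2 : a * p.2 + b * q.2 = 0 := by
    have := congrArg Prod.snd hpq
    simpa using this
  have e1 : a • p.1 + b • q.1 = 0 := by
    have := congrArg Prod.fst hpq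
    simpa using this
  rw [hp2, hq2] at e2
  have ha' : a = 1 / 2 := by linarith
  have hb' : b = 1 / 2 := by linarith
  rw [ha', hb', ← smul_add] at e1
  have e3 : p.1 + q.1 = 0 := by
    rcases smul_eq_zero.1 e1 with h | h
    · norm_num at h
    · exact h
  have e4 : -q.1 = p.1 := by
    rw [neg_eq_iff_add_eq_zero]
    rw [add_comm]
    exact e3
  refine CrossFin_small hA hB FA FB hFA hFB hcc hp.1 ?_
  have h5 : -q.1 ∈ convexHull ℝ (FB : Set E) := hq.1
  rw [e4] at h5
  exact h5

end FB88
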