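import Mathlib

/-!
Definitions for MP_fa9b59_co (translative covering density of convex disks).
`Body`: nonempty compact convex set; `area`: Lebesgue measure as a real number;
`hs C u`: support function of C at u; `Y w Q`: sum of support numbers.
-/

set_option autoImplicit false

open MeasureTheory Metric Set
open scoped Pointwise RealInnerProductSpace

namespace FB88

/-- the euclidean plane -/
abbrev E := EuclideanSpace ℝ (Fin 2)

/-- nonempty compact convex subset of the plane -/
def Body (C : Set E) : Prop := Convex ℝ C ∧ IsCompact C ∧ C.Nonempty

/-- Lebesgue measure of a set as a real number -/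
noncomputable def area (C : Set E) : ℝ := (volume C).toReal

/-- support function of C in direction u -/
noncomputable def hs (C : Set E) (u : E) : ℝ := sSup ((fun x : E => ⟪u, x⟫) '' C)

/-- sum of the support numbers of Q in the directions of the family w -/
noncomputable def Y {ι : Type} [Fintype ι] (w : ι → E) (Q : Set E) : ℝ := ∑ i, hs Q (w i)

/-- the difference functional `Y w Q - Y w (-Q)` -/
noncomputable def Phi {ι : Type} [Fintype ι] (w : ι → E) (Q : Set E) : ℝ :=
  ∑ i, (hs Q (w i) - hs Q (-(w i)))

/-- rotation by a right angle -/
def J (v : E) : E := !₂[-(v 1), v 0]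

/-- `Stein w T`: the Steiner formula holds for T with the functional `Y w` -/
def Stein {ι : Type} [Fintype ι] (w : ι → E) (T : Set E) : Prop :=
  ∀ Q : Set E, Body Q → ∀ t : ℝ, 0 ≤ t →
    area (Q + t • T) = area Q + t * Y w Q + t ^ 2 * area T

/-- translate of K by v -/
def tr (v : E) (K : Set E) : Set E := {x | x - v ∈ K}

end FB88
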