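import Pool.Agent.W_fa9b59_h88.Basic
import Pool.Agent.W_fa9b59_h88.BM

set_option autoImplicit false

open MeasureTheory Metric Set
open scoped Pointwise RealInnerProductSpace

namespace FB88

lemma Dual_decomp {ι : Type} [Fintype ι] (f : ((ι → ℝ) × (ι → ℝ) × ℝ) →L[ℝ] ℝ) :
    ∃ (a b : ι → ℝ) (c : ℝ), ∀ y z t,
      f (y, z, t) = ∑ i, a i * y i + ∑ i, b i * z i + c * t := by
  classical
  refine ⟨fun i => f (fun j => if i = j then 1 else 0, 0, 0),
    fun i => f (0, fun j => if i = j then 1 else 0, 0), f (0, 0, 1), fun y z t => ?_⟩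
  have e1 : ((y, z, t) : (ι → ℝ) × (ι → ℝ) × ℝ) = (y, 0, 0) + (0, z, 0) + t • (0, 0, 1) := by
    simp
  have e2 : f (y, 0, 0) = ∑ i, f (fun j => if i = j then 1 else 0, 0, 0) * y i := by
    have h := LinearMap.pi_apply_eq_sum_univ
      ((f : ((ι → ℝ) × (ι → ℝ) × ℝ) →ₗ[ℝ] ℝ).comp
        (LinearMap.inl ℝ (ι → ℝ) ((ι → ℝ) × ℝ))) y
    have h' : f (y, 0) = ∑ i, y i • f (fun j => if i = j then 1 else 0, 0) := h
    refine h'.trans (Finset.sum_congr rfl fun i _ => ?_)
    rw [smul_eq_mul, mul_comm]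
    rfl
  have e3 : f (0, z, 0) = ∑ i, f (0, fun j => if i = j then 1 else 0, 0) * z i := by
    have h := LinearMap.pi_apply_eq_sum_univ
      (((f : ((ι → ℝ) × (ι → ℝ) × ℝ) →ₗ[ℝ] ℝ).comp
        (LinearMap.inr ℝ (ι → ℝ) ((ι → ℝ) × ℝ))).comp (LinearMap.inl ℝ (ι → ℝ) ℝ)) z
    have h' : f (0, z, 0) = ∑ i, z i • f (0, fun j => if i = j then 1 else 0, 0) := h
    refine h'.trans (Finset.sum_congr rfl fun i _ => ?_)
    rw [smul_eq_mul, mul_comm]
  rw [e1, map_add, map_add, map_smul, e2, e3, smul_eq_mul, mul_comm t]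

lemma Dual_nonpos {ι : Type} [Fintype ι] (a : ι → ℝ) (M : ℝ)
    (h : ∀ y : ι → ℝ, (∀ i, 0 < y i) → ∑ i, a i * y i ≤ M) (i : ι) : a i ≤ 0 := by
  classical
  by_contra hc
  push Not at hc
  have hr : 0 ≤ (|M| + |∑ j, a j| + 1) / a i := by positivity
  have h1 := h (fun j => 1 + (|M| + |∑ j, a j| + 1) / a i * (if j = i then 1 else 0)) (by
    intro j
    have : 0 ≤ (|M| + |∑ j, a j| + 1) / a i * (if j = i then 1 else 0) :=
      mul_nonneg hr (by split_ifs <;> norm_num)
    show 0 < 1 + (|M| + |∑ j, a j| + 1) / a i * (if j = i then (1 : ℝ) else 0)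
    linarith)
  have h2 : ∑ j, a j * (1 + (|M| + |∑ j, a j| + 1) / a i * (if j = i then 1 else 0)) =
      (∑ j, a j) + (|M| + |∑ j, a j| + 1) := by
    have h3 : ∀ j, a j * (1 + (|M| + |∑ j, a j| + 1) / a i * (if j = i then 1 else 0)) =
        a j + (if j = i then (|M| + |∑ j, a j| + 1) else 0) := by
      intro j
      split_ifs with hj
      · subst hj
        field_simp
      · ring
    simp_rw [h3]
    rw [Finset.sum_add_distrib, Finset.sum_ite_eq' Finset.univ i, if_pos (Finset.mem_univ i)]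
  rw [h2] at h1
  have h4 := le_abs_self M
  have h5 := neg_abs_le (∑ j, a j)
  linarith

lemma Dual_lim {X Y : ℝ} (h : ∀ δ : ℝ, 0 < δ → X + δ * Y ≤ 0) : X ≤ 0 := by
  by_contra hc
  push Not at hc
  have hY : 0 < |Y| + 1 := by positivity
  have h1 := h (X / (2 * (|Y| + 1))) (by positivity)
  have h2 := neg_abs_le Y
  have h3 : X / (2 * (|Y| + 1)) * Y ≥ -(X / 2) := by
    have h4 : X / (2 * (|Y| + 1)) * (-(|Y| + 1)) = -(X / 2) := by
      field_simp
    rw [← h4]
    exact mul_le_mul_of_nonneg_left (by linarith) (by positivity)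
  linarith

lemma Dual_zero {v : E} {M : ℝ} (h : ∀ o : E, ⟪v, o⟫ ≤ M) : v = 0 := by
  by_contra hc
  have hv : 0 < ‖v‖ ^ 2 := by positivity
  have h1 := h (((|M| + 1) / ‖v‖ ^ 2) • v)
  rw [inner_smul_right, real_inner_self_eq_norm_sq, div_mul_cancel₀ _ hv.ne'] at h1
  have h2 := le_abs_self M
  linarith

/-- the strict inequalities -/
def Dual_in {ι : Type} (u : ι → E) (Q : Set E) (y z : ι → ℝ) (t : ℝ) : Prop :=
  Body Q ∧ (∀ i, hs Q (u i) < y i) ∧ (∀ i, hs (-Q) (u i) < z i) ∧ t < √(area Q)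

lemma Dual_comb {x y x' y' a b : ℝ} (h : x < y) (h' : x' < y') (ha : 0 ≤ a) (hb : 0 ≤ b)
    (hab : a + b = 1) : a * x + b * x' < a * y + b * y' := by
  rcases ha.eq_or_lt with h0 | h0
  · have : b = 1 := by linarith
    subst this
    rw [← h0]
    linarith
  · have h1 : a * x < a * y := mul_lt_mul_of_pos_left h h0
    have h2 : b * x' ≤ b * y' := mul_le_mul_of_nonneg_left h'.le hb
    linarith

lemma Dual_convex {ι : Type} (u : ι → E) :
    Convex ℝ {p : (ι → ℝ) × (ι → ℝ) × ℝ | ∃ Q, Dual_in u Q p.1 p.2.1 p.2.2} := by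
  rintro ⟨y, z, t⟩ ⟨Q, hQ, hy, hz, ht⟩ ⟨y', z', t'⟩ ⟨Q', hQ', hy', hz', ht'⟩ a b ha hb hab
  have hn : -(a • Q + b • Q') = a • (-Q) + b • (-Q') := by
    rw [neg_add, Set.smul_set_neg, Set.smul_set_neg]
  refine ⟨a • Q + b • Q', (hQ.smul a).add (hQ'.smul b), fun i => ?_, fun i => ?_, ?_⟩
  · rw [hs_add (hQ.smul a).2.1 (hQ.smul a).2.2 (hQ'.smul b).2.1 (hQ'.smul b).2.2,
      hs_smul hQ.2.1 hQ.2.2 ha, hs_smul hQ'.2.1 hQ'.2.2 hb]
    exact Dual_comb (hy i) (hy' i) ha hb hab
  · rw [hn, hs_add (hQ.neg.smul a).2.1 (hQ.neg.smul a).2.2 (hQ'.neg.smul b).2.1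
      (hQ'.neg.smul b).2.2, hs_smul hQ.neg.2.1 hQ.neg.2.2 ha,
      hs_smul hQ'.neg.2.1 hQ'.neg.2.2 hb]
    exact Dual_comb (hz i) (hz' i) ha hb hab
  · have h1 := bm (hQ.smul a) (hQ'.smul b)
    rw [area_smul, area_smul, Real.sqrt_mul (sq_nonneg a), Real.sqrt_mul (sq_nonneg b),
      Real.sqrt_sq ha, Real.sqrt_sq hb] at h1
    exact (Dual_comb ht ht' ha hb hab).trans_le h1

lemma Dual_open {ι : Type} [Fintype ι] (u : ι → E) :
    IsOpen {p : (ι → ℝ) × (ι → ℝ) × ℝ | ∃ Q, Dual_in u Q p.1 p.2.1 p.2.2} := by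
  have h : {p : (ι → ℝ) × (ι → ℝ) × ℝ | ∃ Q, Dual_in u Q p.1 p.2.1 p.2.2} =
      ⋃ Q : {Q : Set E // Body Q}, ({y : ι → ℝ | ∀ i, hs Q.1 (u i) < y i} ×ˢ
        ({z : ι → ℝ | ∀ i, hs (-Q.1) (u i) < z i} ×ˢ Set.Iio (√(area Q.1)))) := by
    ext ⟨y, z, t⟩
    simp only [Set.mem_ofPred_eq, Set.mem_iUnion, Set.mem_prod, Set.mem_Iio]
    constructor
    · rintro ⟨Q, hQ, h1, h2, h3⟩
      exact ⟨⟨Q, hQ⟩, h1, h2, h3⟩
    · rintro ⟨⟨Q, hQ⟩, h1, h2, h3⟩
      exact ⟨Q, hQ, h1, h2, h3⟩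
  rw [h]
  refine isOpen_iUnion fun Q => ?_
  have ho : ∀ g : ι → ℝ, IsOpen {y : ι → ℝ | ∀ i, g i < y i} := by
    intro g
    have : {y : ι → ℝ | ∀ i, g i < y i} = ⋂ i, {y : ι → ℝ | g i < y i} := by
      ext y
      simp
    rw [this]
    exact isOpen_iInter_of_finite fun i => isOpen_lt continuous_const (continuous_apply i)
  exact (ho _).prod ((ho _).prod isOpen_Iio)

/-- the separation -/
lemma Dual_sep {ι : Type} [Fintype ι] (u : ι → E) (k : ι → ℝ) {K : Set E}
    (hK : Body K) (hKe : K = {x | ∀ i, ⟪u i, x⟫ ≤ k i}) {s : ℝ}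
    (hS : ∀ S ⊆ K, Convex ℝ S → (∃ c : E, ∀ x ∈ S, c - x ∈ S) → area S ≤ s) :
    ∃ (a b : ι → ℝ) (c γ : ℝ),
      (∀ Q y z t, Dual_in u Q y z t → ∑ i, a i * y i + ∑ i, b i * z i + c * t < γ) ∧
      ∀ o : E, γ ≤ ∑ i, a i * k i + ∑ i, b i * (k i - ⟪u i, o⟫) + c * √s := by
  obtain ⟨f, γ, h1, h2⟩ := geometric_hahn_banach_open
    (t := {p : (ι → ℝ) × (ι → ℝ) × ℝ | ∃ o : E, p = (k, fun i => k i - ⟪u i, o⟫, √s)})
    (Dual_convex u) (Dual_open u)
    (by
      rintro _ ⟨o, rfl⟩ _ ⟨o', rfl⟩ a b ha hb hab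
      refine ⟨a • o + b • o', ?_⟩
      have hb' : b = 1 - a := by linarith
      subst hb'
      refine Prod.ext ?_ (Prod.ext ?_ ?_)
      · funext i
        simp only [Prod.fst_add, Prod.smul_fst, Pi.add_apply, Pi.smul_apply, smul_eq_mul]
        ring
      · funext i
        simp only [Prod.snd_add, Prod.smul_snd, Prod.fst_add, Prod.smul_fst, Pi.add_apply,
          Pi.smul_apply, smul_eq_mul, inner_add_right, inner_smul_right]
        ring
      · simp only [Prod.snd_add, Prod.smul_snd, smul_eq_mul]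
        ring)
    (by
      rw [Set.disjoint_left]
      rintro _ ⟨Q, hQ, hy, hz, ht⟩ ⟨o, rfl⟩
      simp only at hy hz ht
      have hmem : ∀ x, (∀ i, ⟪u i, x⟫ ≤ k i) → x ∈ K := fun x hx => by
        rw [hKe]
        exact hx
      have hQS : Q ⊆ K ∩ {x | o - x ∈ K} := by
        intro x hx
        refine ⟨hmem x fun i => (le_hs hQ.2.1 hx _).trans (hy i).le, hmem (o - x) fun i => ?_⟩
        have h3 : ⟪u i, -x⟫ ≤ hs (-Q) (u i) := le_hs hQ.neg.2.1 (Set.neg_mem_neg.2 hx) _
        have h4 := hz i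
        rw [inner_sub_right]
        rw [inner_neg_right] at h3
        linarith
      have hconv : Convex ℝ (K ∩ {x | o - x ∈ K}) := by
        refine hK.1.inter ?_
        intro x hx y hy a b ha hb hab
        have h3 := hK.1 hx hy ha hb hab
        have h4 : o - (a • x + b • y) = a • (o - x) + b • (o - y) := by
          have hb' : b = 1 - a := by linarith
          subst hb'
          module
        show o - (a • x + b • y) ∈ K
        rw [h4]
        exact h3
      have hcomp : IsCompact (K ∩ {x | o - x ∈ K}) :=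
        hK.2.1.inter_right (hK.2.1.isClosed.preimage (continuous_const.sub continuous_id))
      have h5 := hS (K ∩ {x | o - x ∈ K}) Set.inter_subset_left hconv ⟨o, fun x hx =>
        ⟨hx.2, by
          show o - (o - x) ∈ K
          rw [sub_sub_cancel]
          exact hx.1⟩⟩
      have h6 := area_mono hQS hcomp
      have h7 := Real.sqrt_le_sqrt (h6.trans h5)
      linarith)
  obtain ⟨a, b, c, hf⟩ := Dual_decomp f
  refine ⟨a, b, c, γ, fun Q y z t h => ?_, fun o => ?_⟩
  · rw [← hf]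
    exact h1 (y, z, t) ⟨Q, h⟩
  · rw [← hf]
    exact h2 _ ⟨o, rfl⟩

/-- Lagrange multipliers for the largest centrally symmetric subset of a polygon.
Proof. Let V = (ι → ℝ) × (ι → ℝ) × ℝ, and
W = {(y, z, t) | ∃ Q, Body Q ∧ (∀ i, hs Q (u i) < y i) ∧ (∀ i, hs (-Q) (u i) < z i) ∧ t < √(area Q)},
B = {(k, k - ⟪u, o⟫, √s) | o ∈ E}. W is open, and convex by `bm` (use a Q1 + b Q2). W and B are
disjoint: for Q as above with y = k, z = k - ⟪u, o⟫ we get Q ⊆ K ∩ {x | o - x ∈ K} =: S, and S is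
convex with o - x ∈ S for x ∈ S, so area Q ≤ area S ≤ s, contradicting √s < √(area Q).
`geometric_hahn_banach_open` gives a linear functional
f (y, z, t) = c t - ∑ μ i y i - ∑ ν i z i and γ with f < γ on W and f ≥ γ on B. Since W is stable
under increasing y, z and decreasing t: μ, ν, c ≥ 0. Since W is a cone (λ > 0): γ ≥ 0, f ≤ 0 on W.
From B: c √s - ∑ (μ + ν) k + ∑ ν i ⟪u i, o⟫ ≥ 0 for all o, so ∑ ν i • u i = 0 and
∑ (μ i + ν i) k i ≤ c √s. Letting the strict inequalities tend to equality: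
c √(area Q) ≤ ∑ μ i hs Q (u i) + ∑ ν i hs (-Q) (u i) for every body Q; replacing Q by its
translates, ∑ (μ i - ν i) ⟪u i, p⟫ is bounded below in p, so ∑ μ i • u i = 0 too.
c > 0: otherwise with a ball of radius r about p inside K, k i - ⟪u i, p⟫ ≥ r ‖u i‖ and
0 ≥ ∑ (μ i + ν i) (k i - ⟪u i, p⟫) ≥ r ∑ (μ i + ν i) ‖u i‖, so μ = ν = 0, f = 0, which is impossible.
Divide by c and replace μ by (μ + ν) / 2 (use area (-Q) = area Q for the symmetrization). -/
theorem dual {ι : Type} [Fintype ι] (u : ι → E) (hu : ∀ i, u i ≠ 0) (k : ι → ℝ) {K : Set E}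
    (hK : Body K) (hKi : (interior K).Nonempty) (hKe : K = {x | ∀ i, ⟪u i, x⟫ ≤ k i}) {s : ℝ}
    (hS : ∀ S ⊆ K, Convex ℝ S → (∃ c : E, ∀ x ∈ S, c - x ∈ S) → area S ≤ s) :
    ∃ μ : ι → ℝ, (∀ i, 0 ≤ μ i) ∧ ∑ i, μ i • u i = 0 ∧
      (∀ Q, Body Q → √(area Q) ≤ ∑ i, μ i * (hs Q (u i) + hs Q (-(u i)))) ∧
      2 * ∑ i, μ i * k i ≤ √s := by
  obtain ⟨a, b, c, γ, hW, hB⟩ := Dual_sep u k hK hKe hS
  -- the cone property
  have hcone : ∀ Q y z t, Dual_in u Q y z t → ∀ l : ℝ, 0 < l →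
      l * (∑ i, a i * y i + ∑ i, b i * z i + c * t) < γ := by
    rintro Q y z t ⟨hQ, hy, hz, ht⟩ l hl
    have h1 := hW (l • Q) (fun i => l * y i) (fun i => l * z i) (l * t) ⟨hQ.smul l,
      fun i => by
        rw [hs_smul hQ.2.1 hQ.2.2 hl.le]
        exact mul_lt_mul_of_pos_left (hy i) hl,
      fun i => by
        rw [← Set.smul_set_neg, hs_smul hQ.neg.2.1 hQ.neg.2.2 hl.le]
        exact mul_lt_mul_of_pos_left (hz i) hl,
      by
        rw [area_smul, Real.sqrt_mul (sq_nonneg l), Real.sqrt_sq hl.le]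
        exact mul_lt_mul_of_pos_left ht hl⟩
    have h2 : l * (∑ i, a i * y i + ∑ i, b i * z i + c * t) =
        ∑ i, a i * (l * y i) + ∑ i, b i * (l * z i) + c * (l * t) := by
      rw [mul_add, mul_add, Finset.mul_sum, Finset.mul_sum]
      congr 1
      · congr 1
        · exact Finset.sum_congr rfl fun i _ => by ring
        · exact Finset.sum_congr rfl fun i _ => by ring
      · ring
    rw [h2]
    exact h1
  have hF : ∀ Q y z t, Dual_in u Q y z t →
      ∑ i, a i * y i + ∑ i, b i * z i + c * t ≤ 0 := by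
    intro Q y z t h
    by_contra hc
    push Not at hc
    have h1 := hcone Q y z t h ((|γ| + 1) / (∑ i, a i * y i + ∑ i, b i * z i + c * t))
      (by positivity)
    rw [div_mul_cancel₀ _ hc.ne'] at h1
    have h2 := le_abs_self γ
    linarith
  have hb0 : Body ({0} : Set E) := Body.singleton 0
  have hin0 : ∀ y z : ι → ℝ, ∀ t : ℝ, (∀ i, 0 < y i) → (∀ i, 0 < z i) → t < 0 →
      Dual_in u {0} y z t := by
    intro y z t hy hz ht
    refine ⟨hb0, fun i => ?_, fun i => ?_, ?_⟩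
    · rw [hs_singleton, inner_zero_right]
      exact hy i
    · rw [hs_neg, hs_singleton, inner_zero_right]
      exact hz i
    · rw [area_singleton, Real.sqrt_zero]
      exact ht
  have hγ : 0 ≤ γ := by
    by_contra hc
    push Not at hc
    have h0 := hin0 (fun _ => 1) (fun _ => 1) (-1) (fun _ => one_pos) (fun _ => one_pos)
      (by norm_num)
    set X := ∑ i, a i * (1 : ℝ) + ∑ i, b i * (1 : ℝ) + c * (-1) with hX
    have h1 := hcone _ _ _ _ h0 (-γ / (2 * (|X| + 1)))
      (div_pos (by linarith) (by positivity))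
    have h2 : -γ / (2 * (|X| + 1)) * X ≥ γ / 2 := by
      have h4 : -γ / (2 * (|X| + 1)) * (-(|X| + 1)) = γ / 2 := by
        have : |X| + 1 ≠ 0 := by positivity
        field_simp
      rw [← h4]
      refine mul_le_mul_of_nonneg_left ?_ (div_nonneg (by linarith) (by positivity))
      have := neg_abs_le X
      linarith
    linarith
  -- signs
  have ha : ∀ i, a i ≤ 0 := by
    refine Dual_nonpos a (-(∑ i, b i * 1 + c * (-1))) fun y hy => ?_
    have h1 := hF _ y (fun _ => 1) (-1) (hin0 y (fun _ => 1) (-1) hy (fun _ => one_pos)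
      (by norm_num))
    linarith
  have hbn : ∀ i, b i ≤ 0 := by
    refine Dual_nonpos b (-(∑ i, a i * 1 + c * (-1))) fun z hz => ?_
    have h1 := hF _ (fun _ => 1) z (-1) (hin0 (fun _ => 1) z (-1) (fun _ => one_pos) hz
      (by norm_num))
    linarith
  have hc0 : 0 ≤ c := by
    by_contra hc
    push Not at hc
    set X := ∑ i, a i * (1 : ℝ) + ∑ i, b i * (1 : ℝ) with hX
    have h1 := hF _ (fun _ => 1) (fun _ => 1) (-((|X| + 1) / (-c)))
      (hin0 _ _ _ (fun _ => one_pos) (fun _ => one_pos)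
        (neg_neg_of_pos (div_pos (by positivity) (by linarith))))
    have h2 : c * (-((|X| + 1) / (-c))) = |X| + 1 := by
      have : c ≠ 0 := hc.ne
      field_simp
    have h3 := neg_abs_le X
    linarith
  -- the inequality for bodies
  have hD : ∀ Q, Body Q → c * √(area Q) + (∑ i, a i * hs Q (u i) + ∑ i, b i * hs (-Q) (u i)) ≤
      0 := by
    intro Q hQ
    refine Dual_lim (Y := ∑ i, a i + ∑ i, b i - c) fun δ hδ => ?_
    have h1 := hF Q (fun i => hs Q (u i) + δ) (fun i => hs (-Q) (u i) + δ) (√(area Q) - δ)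
      ⟨hQ, fun i => by linarith, fun i => by linarith, by linarith⟩
    have h2 : ∑ i, a i * (hs Q (u i) + δ) = ∑ i, a i * hs Q (u i) + δ * ∑ i, a i := by
      rw [Finset.mul_sum, ← Finset.sum_add_distrib]
      exact Finset.sum_congr rfl fun i _ => by ring
    have h3 : ∑ i, b i * (hs (-Q) (u i) + δ) = ∑ i, b i * hs (-Q) (u i) + δ * ∑ i, b i := by
      rw [Finset.mul_sum, ← Finset.sum_add_distrib]
      exact Finset.sum_congr rfl fun i _ => by ring
    rw [h2, h3] at h1
    linarith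
  -- the sum of `b i • u i` vanishes
  have hinner : ∀ (g : ι → ℝ) (o : E), ∑ i, g i * ⟪u i, o⟫ = ⟪∑ i, g i • u i, o⟫ := by
    intro g o
    rw [sum_inner]
    exact Finset.sum_congr rfl fun i _ => by rw [real_inner_smul_left]
  have hBo : ∀ o : E, ∑ i, b i * (k i - ⟪u i, o⟫) = ∑ i, b i * k i - ⟪∑ i, b i • u i, o⟫ := by
    intro o
    rw [← hinner, ← Finset.sum_sub_distrib]
    exact Finset.sum_congr rfl fun i _ => by ring
  have hbu : ∑ i, b i • u i = 0 := by
    refine Dual_zero (M := ∑ i, a i * k i + ∑ i, b i * k i + c * √s) fun o => ?_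
    have h1 := hB o
    rw [hBo] at h1
    linarith
  have hsk : 0 ≤ ∑ i, a i * k i + ∑ i, b i * k i + c * √s := by
    have h1 := hB 0
    rw [hBo, hbu, inner_zero_left] at h1
    linarith
  -- the sum of `a i • u i` vanishes
  have hau : ∑ i, a i • u i = 0 := by
    refine Dual_zero (M := 0) fun o => ?_
    have h1 := hD {o} (Body.singleton o)
    have h2 : ∑ i, a i * hs {o} (u i) = ⟪∑ i, a i • u i, o⟫ := by
      rw [← hinner]
      exact Finset.sum_congr rfl fun i _ => by rw [hs_singleton]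
    have h3 : ∑ i, b i * hs (-{o}) (u i) = 0 := by
      have h4 : ∑ i, b i * hs (-{o}) (u i) = -∑ i, b i * ⟪u i, o⟫ := by
        rw [← Finset.sum_neg_distrib]
        refine Finset.sum_congr rfl fun i _ => ?_
        rw [hs_neg, hs_singleton, inner_neg_left]
        ring
      rw [h4, hinner, hbu, inner_zero_left, neg_zero]
    rw [area_singleton, Real.sqrt_zero, h2, h3] at h1
    linarith
  -- `c` is positive
  have hcpos : 0 < c := by
    refine lt_of_le_of_ne hc0 fun hc => ?_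
    obtain ⟨p, hp⟩ := hKi
    obtain ⟨r, hr, hball⟩ := Metric.isOpen_iff.1 isOpen_interior p hp
    have hki : ∀ i, r / 2 * ‖u i‖ ≤ k i - ⟪u i, p⟫ := by
      intro i
      have hun : 0 < ‖u i‖ := norm_pos_iff.2 (hu i)
      have hx : p + (r / 2 / ‖u i‖) • u i ∈ K := by
        refine interior_subset (hball ?_)
        rw [Metric.mem_ball, dist_eq_norm, add_sub_cancel_left, norm_smul, Real.norm_eq_abs,
          abs_of_pos (by positivity), div_mul_cancel₀ _ hun.ne']
        linarith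
      rw [hKe] at hx
      have h1 := hx i
      rw [inner_add_right, inner_smul_right, real_inner_self_eq_norm_sq] at h1
      have h2 : r / 2 / ‖u i‖ * ‖u i‖ ^ 2 = r / 2 * ‖u i‖ := by
        field_simp
      linarith
    have hsum : ∑ i, (a i + b i) * (k i - ⟪u i, p⟫) = ∑ i, a i * k i + ∑ i, b i * k i := by
      have h1 : ∑ i, (a i + b i) * (k i - ⟪u i, p⟫) = ∑ i, a i * k i + ∑ i, b i * k i -
          (∑ i, a i * ⟪u i, p⟫ + ∑ i, b i * ⟪u i, p⟫) := by
        rw [← Finset.sum_add_distrib, ← Finset.sum_add_distrib, ← Finset.sum_sub_distrib]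
        exact Finset.sum_congr rfl fun i _ => by ring
      rw [h1, hinner, hinner, hau, hbu, inner_zero_left]
      ring
    have hle : ∀ i ∈ Finset.univ, (a i + b i) * (k i - ⟪u i, p⟫) ≤ 0 := by
      intro i _
      have h1 := ha i
      have h2 := hbn i
      have h3 : 0 ≤ k i - ⟪u i, p⟫ := le_trans (by positivity) (hki i)
      exact mul_nonpos_of_nonpos_of_nonneg (by linarith) h3
    have hsum0 : ∑ i, (a i + b i) * (k i - ⟪u i, p⟫) = 0 := by
      refine le_antisymm (Finset.sum_nonpos hle) ?_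
      rw [hsum]
      rw [← hc, zero_mul, add_zero] at hsk
      exact hsk
    have hz := (Finset.sum_eq_zero_iff_of_nonpos hle).1 hsum0
    have hab : ∀ i, a i = 0 ∧ b i = 0 := by
      intro i
      have h1 := hz i (Finset.mem_univ i)
      have hun : 0 < ‖u i‖ := norm_pos_iff.2 (hu i)
      have h3 : 0 < k i - ⟪u i, p⟫ := lt_of_lt_of_le (by positivity) (hki i)
      have h4 : a i + b i = 0 := (mul_eq_zero.1 h1).resolve_right h3.ne'
      have h5 := ha i
      have h6 := hbn i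
      constructor <;> linarith
    have h1 := hW _ _ _ _ (hin0 (fun _ => 1) (fun _ => 1) (-1) (fun _ => one_pos)
      (fun _ => one_pos) (by norm_num))
    have h2 := hB 0
    simp only [fun i => (hab i).1, fun i => (hab i).2, zero_mul, Finset.sum_const_zero,
      ← hc] at h1 h2
    linarith
  -- conclusion
  refine ⟨fun i => -(a i + b i) / (2 * c), fun i => ?_, ?_, fun Q hQ => ?_, ?_⟩
  · have h1 := ha i
    have h2 := hbn i
    exact div_nonneg (by linarith) (by linarith)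
  · have h1 : ∀ i, (-(a i + b i) / (2 * c)) • u i =
        (-(1 / (2 * c))) • (a i • u i + b i • u i) := by
      intro i
      rw [← add_smul, smul_smul]
      congr 1
      ring
    simp_rw [h1]
    rw [← Finset.smul_sum, Finset.sum_add_distrib, hau, hbu, add_zero, smul_zero]
  · have h1 := hD Q hQ
    have h2 := hD (-Q) hQ.neg
    rw [area_neg, neg_neg] at h2
    have h3 : ∑ i, -(a i + b i) / (2 * c) * (hs Q (u i) + hs Q (-(u i))) =
        (-(∑ i, a i * hs Q (u i) + ∑ i, b i * hs (-Q) (u i)) +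
          -(∑ i, a i * hs (-Q) (u i) + ∑ i, b i * hs Q (u i))) / (2 * c) := by
      rw [← Finset.sum_add_distrib, ← Finset.sum_add_distrib, ← Finset.sum_neg_distrib,
        ← Finset.sum_neg_distrib, ← Finset.sum_add_distrib, Finset.sum_div]
      refine Finset.sum_congr rfl fun i _ => ?_
      rw [hs_neg]
      ring
    rw [h3, le_div_iff₀ (by linarith)]
    linarith
  · have h1 : 2 * ∑ i, -(a i + b i) / (2 * c) * k i =
        -(∑ i, a i * k i + ∑ i, b i * k i) / c := by
      rw [← Finset.sum_add_distrib, ← Finset.sum_neg_distrib, Finset.sum_div, Finset.mul_sum]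
      refine Finset.sum_congr rfl fun i _ => ?_
      field_simp
    rw [h1, div_le_iff₀ hcpos]
    linarith

end FB88
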