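import Pool.Agent.W_fa9b59_h88.Basic

set_option autoImplicit false

open MeasureTheory Metric Set
open scoped Pointwise RealInnerProductSpace

namespace FB88

/-- cap of a body cut off by a line -/
lemma Body.cap_le {A : Set E} (hA : Body A) {f : E} {c : ℝ} {a : E} (ha : a ∈ A)
    (hac : ⟪f, a⟫ ≤ c) : Body (A ∩ {x | ⟪f, x⟫ ≤ c}) := by
  refine ⟨hA.1.inter (convex_halfSpace_le (innerSL ℝ f).isLinear _), ?_, ⟨a, ha, hac⟩⟩
  exact hA.2.1.inter_right (isClosed_le (by fun_prop) continuous_const)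

lemma Body.cap_ge {A : Set E} (hA : Body A) {f : E} {c : ℝ} {a : E} (ha : a ∈ A)
    (hac : c ≤ ⟪f, a⟫) : Body (A ∩ {x | c ≤ ⟪f, x⟫}) := by
  refine ⟨hA.1.inter (convex_halfSpace_ge (innerSL ℝ f).isLinear _), ?_, ⟨a, ha, hac⟩⟩
  exact hA.2.1.inter_right (isClosed_le continuous_const (by fun_prop))

lemma Exch_min {A : Set E} (hA : Body A) {f : E} {c : ℝ} {a : E} (ha : a ∈ A)
    (hac : c ≤ ⟪f, a⟫) {a' : E} (ha' : a' ∈ A) (hac' : ⟪f, a'⟫ ≤ c) (u : E) :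
    ∃ z ∈ A, ⟪f, z⟫ = c ∧
      min (hs (A ∩ {x | ⟪f, x⟫ ≤ c}) u) (hs (A ∩ {x | c ≤ ⟪f, x⟫}) u) ≤ ⟪u, z⟫ := by
  have hA' := hA.cap_le ha' hac'
  have hX := hA.cap_ge ha hac
  obtain ⟨p, hp, hpe⟩ := exists_hs hA'.2.1 hA'.2.2 u
  obtain ⟨q, hq, hqe⟩ := exists_hs hX.2.1 hX.2.2 u
  have hp2 : ⟪f, p⟫ ≤ c := hp.2
  have hq2 : c ≤ ⟪f, q⟫ := hq.2
  have ht : ∃ t : ℝ, 0 ≤ t ∧ t ≤ 1 ∧ (1 - t) * ⟪f, p⟫ + t * ⟪f, q⟫ = c := by
    rcases eq_or_lt_of_le (hp2.trans hq2) with h | h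
    · refine ⟨0, le_refl _, zero_le_one, ?_⟩
      have h1 : ⟪f, p⟫ = c := le_antisymm hp2 (by rw [h]; exact hq2)
      rw [h1]
      ring
    · have h0 : 0 < ⟪f, q⟫ - ⟪f, p⟫ := sub_pos.2 h
      refine ⟨(c - ⟪f, p⟫) / (⟪f, q⟫ - ⟪f, p⟫), ?_, ?_, ?_⟩
      · exact div_nonneg (sub_nonneg.2 hp2) h0.le
      · rw [div_le_one h0]
        linarith
      · field_simp
        ring
  obtain ⟨t, ht0, ht1, htc⟩ := ht
  refine ⟨(1 - t) • p + t • q, hA.1 hp.1 hq.1 (by linarith) ht0 (by ring), ?_, ?_⟩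
  · rw [inner_add_right, inner_smul_right, inner_smul_right]
    exact htc
  · rw [inner_add_right, inner_smul_right, inner_smul_right, hpe, hqe]
    have h1 := min_le_left (hs (A ∩ {x | ⟪f, x⟫ ≤ c}) u) (hs (A ∩ {x | c ≤ ⟪f, x⟫}) u)
    have h2 := min_le_right (hs (A ∩ {x | ⟪f, x⟫ ≤ c}) u) (hs (A ∩ {x | c ≤ ⟪f, x⟫}) u)
    have h3 := mul_le_mul_of_nonneg_left h1 (show 0 ≤ 1 - t by linarith)
    have h4 := mul_le_mul_of_nonneg_left h2 ht0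
    linarith

lemma Exch_dir {B : Set E} (hB : Body B) {a b₁ b₂ : E} (ha : a ∉ B) (hb : b₁ ≠ b₂) :
    ∃ u : E, hs B u < ⟪u, a⟫ ∧ ⟪u, b₁⟫ ≠ ⟪u, b₂⟫ := by
  obtain ⟨u₀, hu₀⟩ := exists_sep hB ha
  by_cases h : ⟪u₀, b₁⟫ = ⟪u₀, b₂⟫
  · have hc1 : Continuous fun ε : ℝ => hs B (u₀ + ε • (b₂ - b₁)) :=
      (hs_continuous hB.2.1 hB.2.2).comp (by fun_prop)
    have hc2 : Continuous fun ε : ℝ => (⟪u₀ + ε • (b₂ - b₁), a⟫ : ℝ) := by fun_prop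
    have hopen : IsOpen {ε : ℝ | hs B (u₀ + ε • (b₂ - b₁)) < ⟪u₀ + ε • (b₂ - b₁), a⟫} :=
      isOpen_lt hc1 hc2
    have h0 : (0 : ℝ) ∈ {ε : ℝ | hs B (u₀ + ε • (b₂ - b₁)) < ⟪u₀ + ε • (b₂ - b₁), a⟫} := by
      simpa using hu₀
    obtain ⟨δ, hδ, hball⟩ := Metric.isOpen_iff.1 hopen 0 h0
    have hmem : δ / 2 ∈ Metric.ball (0 : ℝ) δ := by
      rw [Metric.mem_ball, Real.dist_eq, sub_zero, abs_of_pos (half_pos hδ)]
      exact half_lt_self hδ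
    refine ⟨u₀ + (δ / 2) • (b₂ - b₁), hball hmem, ?_⟩
    intro heq
    have h1 : ⟪u₀ + (δ / 2) • (b₂ - b₁), b₂ - b₁⟫ = 0 := by
      rw [inner_sub_right, heq, sub_self]
    rw [inner_add_left, inner_sub_right, h, sub_self, zero_add, real_inner_smul_left,
      real_inner_self_eq_norm_sq] at h1
    have h2 : 0 < ‖b₂ - b₁‖ := norm_pos_iff.2 (sub_ne_zero.2 hb.symm)
    have h3 : 0 < δ / 2 * ‖b₂ - b₁‖ ^ 2 := by positivity
    linarith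
  · exact ⟨u₀, hu₀, h⟩

/-- The exchange. L = {⟪f, x⟫ = c} is the line through b₁, b₂ ∈ B \ A and A ∩ L lies in the open
segment (b₁, b₂). Move the cap X = A ∩ {c ≤ ⟪f, x⟫}, which contains a point a ∉ B, to B: the sum of
the support functions does not grow, and decreases for some direction.
Proof. Let A' = A ∩ {⟪f, x⟫ ≤ c}. hs B' u = max (hs B u) (hs X u) (`hs_hull`), and
hs A u = max (hs A' u) (hs X u). If hs X u ≤ hs B u: clear from hs A' u ≤ hs A u. Otherwise the sum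
on the left is hs A' u + hs X u, and min (hs A' u) (hs X u) ≤ ⟪u, z⟫ for some z ∈ A ∩ L (on the
segment between maximizers in A' and X), z in the open segment (b₁, b₂), so ⟪u, z⟫ ≤ hs B u, with
strict inequality when ⟪u, b₁⟫ ≠ ⟪u, b₂⟫. Strictness: choose u₀ with hs B u₀ < ⟪u₀, a⟫ (`exists_sep`);
u = u₀ + ε (b₂ - b₁) with small ε > 0 satisfies hs B u < ⟪u, a⟫ ≤ hs X u and ⟪u, b₁⟫ ≠ ⟪u, b₂⟫
(`hs_continuous`). -/
theorem exch {A B : Set E} (hA : Body A) (hB : Body B) {b₁ b₂ : E} (hb₁ : b₁ ∈ B \ A)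
    (hb₂ : b₂ ∈ B \ A) (hb : b₁ ≠ b₂) {f : E} {c : ℝ}
    (hAL : ∀ x ∈ A, ⟪f, x⟫ = c → x ∈ openSegment ℝ b₁ b₂) {a : E} (ha : a ∈ A \ B)
    (hac : c ≤ ⟪f, a⟫) {a' : E} (ha' : a' ∈ A) (hac' : ⟪f, a'⟫ ≤ c) :
    (∀ u, hs (A ∩ {x | ⟪f, x⟫ ≤ c}) u + hs (convexHull ℝ (B ∪ (A ∩ {x | c ≤ ⟪f, x⟫}))) u
      ≤ hs A u + hs B u) ∧
    ∃ u, hs (A ∩ {x | ⟪f, x⟫ ≤ c}) u + hs (convexHull ℝ (B ∪ (A ∩ {x | c ≤ ⟪f, x⟫}))) u
      < hs A u + hs B u := by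
  have hA' := hA.cap_le ha' hac'
  have hX := hA.cap_ge ha.1 hac
  have hsub1 : ∀ u, hs (A ∩ {x | ⟪f, x⟫ ≤ c}) u ≤ hs A u := fun u =>
    hs_mono inter_subset_left hA'.2.2 hA.2.1 u
  have hsub2 : ∀ u, hs (A ∩ {x | c ≤ ⟪f, x⟫}) u ≤ hs A u := fun u =>
    hs_mono inter_subset_left hX.2.2 hA.2.1 u
  constructor
  · intro u
    rw [hs_hull hB hX]
    rcases le_total (hs (A ∩ {x | c ≤ ⟪f, x⟫}) u) (hs B u) with h | h
    · rw [max_eq_left h]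
      have h1 := hsub1 u
      linarith
    · rw [max_eq_right h]
      obtain ⟨z, hzA, hzc, hz⟩ := Exch_min hA ha.1 hac ha' hac' u
      have hzB : z ∈ B := hB.1.openSegment_subset hb₁.1 hb₂.1 (hAL z hzA hzc)
      have h1 := le_hs hB.2.1 hzB u
      have h2 := hsub1 u
      have h3 := hsub2 u
      rcases min_choice (hs (A ∩ {x | ⟪f, x⟫ ≤ c}) u) (hs (A ∩ {x | c ≤ ⟪f, x⟫}) u) with h4 | h4
      · rw [h4] at hz
        linarith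
      · rw [h4] at hz
        linarith
  · obtain ⟨u, hu1, hu2⟩ := Exch_dir hB ha.2 hb
    refine ⟨u, ?_⟩
    have hXu : hs B u < hs (A ∩ {x | c ≤ ⟪f, x⟫}) u :=
      hu1.trans_le (le_hs hX.2.1 ⟨ha.1, hac⟩ u)
    rw [hs_hull hB hX, max_eq_right hXu.le]
    obtain ⟨z, hzA, hzc, hz⟩ := Exch_min hA ha.1 hac ha' hac' u
    obtain ⟨s, t, hs0, ht0, hst, hzz⟩ := hAL z hzA hzc
    have h1 := le_hs hB.2.1 hb₁.1 u
    have h2 := le_hs hB.2.1 hb₂.1 u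
    have h3 : ⟪u, z⟫ < hs B u := by
      rw [← hzz, inner_add_right, inner_smul_right, inner_smul_right]
      rcases lt_or_gt_of_ne hu2 with h | h
      · have h5 : s * ⟪u, b₁⟫ < s * hs B u := mul_lt_mul_of_pos_left (h.trans_le h2) hs0
        have h6 : t * ⟪u, b₂⟫ ≤ t * hs B u := mul_le_mul_of_nonneg_left h2 ht0.le
        have h7 : s * hs B u + t * hs B u = hs B u := by rw [← add_mul, hst, one_mul]
        linarith
      · have h5 : t * ⟪u, b₂⟫ < t * hs B u := mul_lt_mul_of_pos_left (h.trans_le h1) ht0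
        have h6 : s * ⟪u, b₁⟫ ≤ s * hs B u := mul_le_mul_of_nonneg_left h1 hs0.le
        have h7 : s * hs B u + t * hs B u = hs B u := by rw [← add_mul, hst, one_mul]
        linarith
    have h8 := hsub1 u
    have h9 := hsub2 u
    rcases min_choice (hs (A ∩ {x | ⟪f, x⟫ ≤ c}) u) (hs (A ∩ {x | c ≤ ⟪f, x⟫}) u) with h4 | h4
    · rw [h4] at hz
      linarith
    · rw [h4] at hz
      linarith

end FB88
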