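import Pool.Agent.W_fa9b59_h88.Basic

set_option autoImplicit false

open MeasureTheory Metric Set
open scoped Pointwise RealInnerProductSpace

namespace FB88

/-- Outer polygonal approximation. Proof: the frontier F of (1 + δ) • K is compact and disjoint
from K (0 ∈ interior K gives K ⊆ interior ((1 + δ) • K)). For x ∈ F there are u, k with
hs K u ≤ k < ⟪u, x⟫ (`exists_sep`); the open half-planes {⟪u, y⟫ > k} cover F, take a finite subcover
u i, k i = hs K (u i) (u i ≠ 0 as 0 ≤ hs K 0 = 0 is not < 0). P = {x | ∀ i, ⟪u i, x⟫ ≤ k i} is convex, contains K, hence 0,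
and does not meet F, so P ⊆ (1 + δ) • K (a point of P outside would be joined to 0 by
a segment in P meeting F). F is nonempty. -/
theorem poly_approx {K : Set E} (hK : Body K) (h0 : (0 : E) ∈ interior K) {δ : ℝ} (hδ : 0 < δ) :
    ∃ (n : ℕ) (u : Fin n → E) (k : Fin n → ℝ), (∀ i, u i ≠ 0) ∧
      K ⊆ {x | ∀ i, ⟪u i, x⟫ ≤ k i} ∧ {x | ∀ i, ⟪u i, x⟫ ≤ k i} ⊆ (1 + δ) • K := by
  have h1δ : (0 : ℝ) < 1 + δ := by linarith
  have hD : Body ((1 + δ) • K) := hK.smul (1 + δ)
  have hDcl : IsClosed ((1 + δ) • K) := hD.2.1.isClosed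
  have hKint : K ⊆ interior ((1 + δ) • K) := by
    intro x hx
    rw [interior_smul₀ h1δ.ne']
    have h2 : (δ / (1 + δ)) • (0 : E) + (1 / (1 + δ)) • x ∈ interior K :=
      hK.1.combo_interior_self_mem_interior h0 hx (div_pos hδ h1δ)
        (by positivity) (by field_simp; ring)
    rw [smul_zero, zero_add] at h2
    refine Set.mem_smul_set.mpr ⟨_, h2, ?_⟩
    rw [smul_smul, mul_one_div_cancel h1δ.ne', one_smul]
  have hFc : IsCompact (frontier ((1 + δ) • K)) :=
    hD.2.1.of_isClosed_subset isClosed_frontier hDcl.frontier_subset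
  have hdir : ∀ x ∈ frontier ((1 + δ) • K), ∃ u : {u : E // u ≠ 0}, hs K u.1 < ⟪u.1, x⟫ := by
    intro x hx
    have hxK : x ∉ K := fun h => hx.2 (hKint h)
    obtain ⟨u, hu⟩ := exists_sep hK hxK
    refine ⟨⟨u, ?_⟩, hu⟩
    rintro rfl
    rw [hs_zero_dir, inner_zero_left] at hu
    exact lt_irrefl _ hu
  obtain ⟨t, ht⟩ := hFc.elim_finite_subcover
    (fun u : {u : E // u ≠ 0} => {y : E | hs K u.1 < ⟪u.1, y⟫})
    (fun u => isOpen_lt continuous_const (continuous_const.inner continuous_id))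
    (fun x hx => by
      obtain ⟨u, hu⟩ := hdir x hx
      exact Set.mem_iUnion.mpr ⟨u, hu⟩)
  refine ⟨t.card, fun i => (t.equivFin.symm i).1.1, fun i => hs K (t.equivFin.symm i).1.1,
    fun i => (t.equivFin.symm i).1.2, ?_, ?_⟩
  · intro x hx i
    exact le_hs hK.2.1 hx _
  · intro x hx
    by_contra hxD
    have hPconv : Convex ℝ {x : E | ∀ i : Fin t.card, ⟪(t.equivFin.symm i).1.1, x⟫ ≤
        hs K (t.equivFin.symm i).1.1} := by
      intro a ha b hb r s hr hs' hrs i
      have h1 := ha i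
      have h2 := hb i
      rw [inner_add_right, real_inner_smul_right, real_inner_smul_right]
      calc r * ⟪(t.equivFin.symm i).1.1, a⟫ + s * ⟪(t.equivFin.symm i).1.1, b⟫
          ≤ r * hs K (t.equivFin.symm i).1.1 + s * hs K (t.equivFin.symm i).1.1 :=
            add_le_add (mul_le_mul_of_nonneg_left h1 hr) (mul_le_mul_of_nonneg_left h2 hs')
        _ = hs K (t.equivFin.symm i).1.1 := by rw [← add_mul, hrs, one_mul]
    have h0K : (0 : E) ∈ K := interior_subset h0
    have hpre := hPconv.isPreconnected (interior ((1 + δ) • K)) ((1 + δ) • K)ᶜ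
      isOpen_interior hDcl.isOpen_compl ?_ ?_ ?_
    · obtain ⟨y, -, hy1, hy2⟩ := hpre
      exact hy2 (interior_subset hy1)
    · intro y hy
      by_contra hcon
      rw [Set.mem_union, not_or] at hcon
      have hyD : y ∈ (1 + δ) • K := not_not.mp hcon.2
      have hyF : y ∈ frontier ((1 + δ) • K) := ⟨subset_closure hyD, hcon.1⟩
      obtain ⟨u, hut, hu⟩ := Set.mem_iUnion₂.mp (ht hyF)
      have h3 := hy (t.equivFin ⟨u, hut⟩)
      simp only [Equiv.symm_apply_apply] at h3
      exact absurd hu (not_lt.mpr h3)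
    · exact ⟨0, fun i => le_hs hK.2.1 h0K _, hKint h0K⟩
    · exact ⟨x, hx, hxD⟩

end FB88
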