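import Pool.Agent.W_fa9b59_h88.FinPoly
import Pool.Agent.W_fa9b59_h88.PolyApprox

set_option autoImplicit false

open MeasureTheory Metric Set
open scoped Pointwise RealInnerProductSpace

namespace FB88

/-- the case 0 ∈ interior K -/
lemma fin_cover_aux {K : Set E} (hK : Body K) (h0 : (0 : E) ∈ interior K) {s : ℝ}
    (hS : ∀ S ⊆ K, Convex ℝ S → (∃ c : E, ∀ x ∈ S, c - x ∈ S) → area S ≤ s)
    {κ : Type} [Fintype κ] (v : κ → E) {R : Set E} (hR : Body R) (hRs : ∀ x ∈ R, -x ∈ R)
    (hcov : R ⊆ ⋃ i, tr (v i) K) : area R ≤ Fintype.card κ * s := by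
  have key : ∀ δ : ℝ, 0 < δ → area R ≤ Fintype.card κ * ((1 + δ) ^ 2 * s) := by
    intro δ hδ
    obtain ⟨n, u, k, hu, hKP, hPK⟩ := poly_approx hK h0 hδ
    have hpos : (0 : ℝ) < 1 + δ := by linarith
    have hP : Body {x : E | ∀ i, ⟪u i, x⟫ ≤ k i} := by
      refine ⟨?_, ?_, hK.2.2.mono hKP⟩
      · have : {x : E | ∀ i, ⟪u i, x⟫ ≤ k i} = ⋂ i, {x : E | ⟪u i, x⟫ ≤ k i} := by
          ext x; simp
        rw [this]
        exact convex_iInter fun i => convex_halfSpace_le (innerSL ℝ (u i)).isLinear _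
      · refine IsCompact.of_isClosed_subset (hK.2.1.smul (1 + δ)) ?_ hPK
        have : {x : E | ∀ i, ⟪u i, x⟫ ≤ k i} = ⋂ i, {x : E | ⟪u i, x⟫ ≤ k i} := by
          ext x; simp
        rw [this]
        exact isClosed_iInter fun i => isClosed_le (by fun_prop) continuous_const
    refine fin_poly u hu k hP ⟨0, interior_mono hKP h0⟩ rfl ?_ v hR hRs
      (hcov.trans (iUnion_mono fun i => fun x hx => hKP hx))
    intro S hSP hSc ⟨c, hc⟩
    have hsub : (1 + δ)⁻¹ • S ⊆ K := by
      rintro _ ⟨x, hx, rfl⟩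
      obtain ⟨y, hy, hyx⟩ := hPK (hSP hx)
      have : (1 + δ)⁻¹ • x = y := by
        rw [← hyx]
        simp only [smul_smul]
        rw [inv_mul_cancel₀ hpos.ne', one_smul]
      show (1 + δ)⁻¹ • x ∈ K
      rwa [this]
    have h1 := hS _ hsub (hSc.smul _) ⟨(1 + δ)⁻¹ • c, ?_⟩
    · rw [area_smul] at h1
      have h2 : area S = (1 + δ) ^ 2 * (((1 + δ)⁻¹) ^ 2 * area S) := by
        field_simp
      rw [h2]
      exact mul_le_mul_of_nonneg_left h1 (by positivity)
    · rintro _ ⟨x, hx, rfl⟩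
      exact ⟨c - x, hc x hx, by simp [smul_sub]⟩
  -- let δ tend to 0
  have hlim : Filter.Tendsto (fun δ : ℝ => (Fintype.card κ : ℝ) * ((1 + δ) ^ 2 * s))
      (nhdsWithin 0 (Set.Ioi 0)) (nhds ((Fintype.card κ : ℝ) * s)) := by
    have hcont : Continuous fun δ : ℝ => (Fintype.card κ : ℝ) * ((1 + δ) ^ 2 * s) := by
      fun_prop
    have := hcont.tendsto 0
    simp only [add_zero, one_pow, one_mul] at this
    exact this.mono_left nhdsWithin_le_nhds
  refine ge_of_tendsto hlim ?_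
  filter_upwards [self_mem_nhdsWithin] with δ hδ
  exact key δ hδ

/-- Finite theorem: if N translates of a convex disk K cover a closed disc (or any body
R = -R) then area R ≤ N s, s any bound for the areas of the centrally symmetric convex
subsets of K. Proof: translate K so that 0 ∈ interior K (tr (-p) K; the translation vectors change by p).
For δ > 0 let P be the polygon of `poly_approx`, R ⊆ ∪ tr (v i) P; if S ⊆ P is convex with
c - x ∈ S for x ∈ S then (1 + δ)⁻¹ • S ⊆ K has the same property with (1+δ)⁻¹ • c, so area S ≤ (1 + δ)^2 s;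
`fin_poly` gives area R ≤ N (1 + δ)^2 s; let δ → 0. -/
theorem fin_cover {K : Set E} (hK : Body K) (hKi : (interior K).Nonempty) {s : ℝ}
    (hS : ∀ S ⊆ K, Convex ℝ S → (∃ c : E, ∀ x ∈ S, c - x ∈ S) → area S ≤ s)
    {κ : Type} [Fintype κ] (v : κ → E) {R : Set E} (hR : Body R) (hRs : ∀ x ∈ R, -x ∈ R)
    (hcov : R ⊆ ⋃ i, tr (v i) K) : area R ≤ Fintype.card κ * s := by
  obtain ⟨p, hp⟩ := hKi
  have h0 : (0 : E) ∈ interior (tr (-p) K) := by
    rw [mem_interior] at hp ⊢
    obtain ⟨U, hU, hUo, hpU⟩ := hp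
    refine ⟨(fun x => x + p) ⁻¹' U, ?_, hUo.preimage (by fun_prop), by simpa using hpU⟩
    intro x hx
    show x - -p ∈ K
    rw [sub_neg_eq_add]
    exact hU hx
  have htr : ∀ i, tr (v i + p) (tr (-p) K) = tr (v i) K := by
    intro i
    rw [tr_tr]
    congr 1
    abel
  refine fin_cover_aux (hK.tr (-p)) h0 (s := s) ?_ (fun i => v i + p) hR hRs
    (by simpa only [htr] using hcov)
  intro S hSK hSc ⟨c, hc⟩
  rw [← area_tr p S]
  refine hS _ ?_ ?_ ⟨c + p + p, ?_⟩
  · intro x hx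
    have h1 : x - p - -p ∈ K := hSK hx
    simpa using h1
  · rw [tr_eq_add]
    exact (convex_singleton p).add hSc
  · intro x hx
    have h1 : x - p ∈ S := hx
    show c + p + p - x - p ∈ S
    have h2 := hc _ h1
    rwa [show c + p + p - x - p = c - (x - p) by abel]

end FB88
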