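import Pool.Agent.W_fa9b59_h88.Cells
import Pool.Agent.W_fa9b59_h88.Add
import Pool.Agent.W_fa9b59_h88.Cert

set_option autoImplicit false

open MeasureTheory Metric Set
open scoped Pointwise RealInnerProductSpace

namespace FB88

/-- translation invariance of Y when the directions sum to zero -/
lemma Y_tr {ι : Type} [Fintype ι] (w : ι → E) (hw : ∑ i, w i = 0) {C : Set E} (hC : Body C)
    (v : E) : Y w (tr v C) = Y w C := by
  unfold Y
  have : ∀ i, hs (tr v C) (w i) = ⟪w i, v⟫ + hs C (w i) := fun i => hs_tr hC.2.1 hC.2.2 v (w i)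
  simp only [this, Finset.sum_add_distrib]
  rw [← sum_inner, hw, inner_zero_left, zero_add]

lemma neg_tr (v : E) (C : Set E) : -(tr v C) = tr (-v) (-C) := by
  ext x
  simp only [tr, Set.mem_neg, Set.mem_ofPred_eq]
  constructor <;> intro h
  · simpa [sub_eq_add_neg, add_comm] using h
  · simpa [sub_eq_add_neg, add_comm] using h

lemma tr_tr (a b : E) (C : Set E) : tr a (tr b C) = tr (a + b) C := by
  ext x
  simp only [tr, Set.mem_ofPred_eq]
  rw [sub_sub]

lemma tr_zero (C : Set E) : tr 0 C = C := by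
  ext x; simp [tr]

/-- Finite theorem for polygons. Discard the translates which do not meet R (the bound gets
better as s > 0). Take cells C i from `cells` and w from `cert`. With Q i = tr (-(v i)) (C i) ⊆ K:
area (C i) = area (Q i) ≤ Y w (-(Q i)) = Y w (-(C i)) (translation invariance, ∑ w = 0)
= Y w (C i) - Phi w (C i) (`Phi_eq`), Y w (C i) = Y w (Q i) ≤ Y w K ≤ s, and
∑ Phi w (C i) = Phi w R = 0 by `phi_add` and R = -R. Also area R ≤ ∑ area (C i). -/
theorem fin_poly {ι : Type} [Fintype ι] (u : ι → E) (hu : ∀ i, u i ≠ 0) (k : ι → ℝ) {K : Set E}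
    (hK : Body K) (hKi : (interior K).Nonempty) (hKe : K = {x | ∀ i, ⟪u i, x⟫ ≤ k i}) {s : ℝ}
    (hS : ∀ S ⊆ K, Convex ℝ S → (∃ c : E, ∀ x ∈ S, c - x ∈ S) → area S ≤ s)
    {κ : Type} [Fintype κ] (v : κ → E) {R : Set E} (hR : Body R) (hRs : ∀ x ∈ R, -x ∈ R)
    (hcov : R ⊆ ⋃ i, tr (v i) K) : area R ≤ Fintype.card κ * s := by
  classical
  have hs0 : 0 < s := s_pos hKi hS
  obtain ⟨w, hw, hcert, hYK⟩ := cert u hu k hK hKi hKe hS
  -- restrict to the translates meeting R
  let κ' := {i : κ // (tr (v i) K ∩ R).Nonempty}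
  have hcov' : R ⊆ ⋃ i : κ', tr (v i.1) K := by
    intro x hx
    obtain ⟨i, hi⟩ := mem_iUnion.1 (hcov hx)
    exact mem_iUnion.2 ⟨⟨i, ⟨x, hi, hx⟩⟩, hi⟩
  obtain ⟨C, hC, hCcov, hCdis⟩ := cells hK (fun i : κ' => v i.1) hR (fun i => i.2) hcov'
  have hRneg : -R = R := by
    ext x
    constructor
    · intro hx
      have := hRs (-x) hx
      rwa [neg_neg] at this
    · intro hx
      exact hRs x hx
  have hPhiR : Phi w R = 0 := by
    rw [Phi_eq, hRneg, sub_self]
  have hsum := phi_add w hw (Finset.univ : Finset κ') C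
    (fun i _ => ⟨(hC i).1.1, (hC i).1.2.1⟩) (fun i _ j _ hij => hCdis i j hij) hR.1 hR.2.1
    (by simpa using hCcov)
  rw [hPhiR] at hsum
  have hsum' : ∑ i : κ', Phi w (C i) = 0 := by
    rw [← hsum]
    refine Finset.sum_congr rfl fun i _ => ?_
    congr 1
    exact (inter_eq_left.2 ((hC i).2.trans inter_subset_right)).symm
  have hCK : ∀ i : κ', tr (-(v i.1)) (C i) ⊆ K := by
    intro i x hx
    have h1 : x - -(v i.1) ∈ C i := hx
    have h2 : x - -(v i.1) - v i.1 ∈ K := ((hC i).2 h1).1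
    simpa using h2
  have hcell : ∀ i : κ', area (C i) ≤ s - Phi w (C i) := by
    intro i
    have hQ : Body (tr (-(v i.1)) (C i)) := (hC i).1.tr _
    have h1 := hcert _ hQ (hCK i)
    rw [area_tr, neg_tr, neg_neg, Y_tr w hw (hC i).1.neg] at h1
    have h2 : Y w (C i) ≤ s := by
      rw [← Y_tr w hw (hC i).1 (-(v i.1))]
      exact (Y_mono w (hCK i) hQ hK).trans hYK
    have h3 := Phi_eq w (C i)
    linarith
  have harea : area R ≤ ∑ i : κ', area (C i) := by
    have h1 : volume R ≤ ∑ i : κ', volume (C i) := by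
      refine (measure_mono hCcov).trans ?_
      exact (measure_iUnion_le _).trans (by rw [tsum_fintype])
    have hfin : ∀ i : κ', volume (C i) ≠ ⊤ := fun i => (vol_lt_top (hC i).1.2.1).ne
    have h2 : (∑ i : κ', volume (C i)).toReal = ∑ i : κ', area (C i) := by
      rw [ENNReal.toReal_sum fun i _ => hfin i]
      rfl
    rw [← h2]
    exact ENNReal.toReal_mono (ENNReal.sum_ne_top.2 fun i _ => hfin i) h1
  have h4 : ∑ i : κ', area (C i) ≤ Fintype.card κ' * s := by
    calc ∑ i : κ', area (C i) ≤ ∑ i : κ', (s - Phi w (C i)) := Finset.sum_le_sum fun i _ => hcell i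
      _ = Fintype.card κ' * s := by
        rw [Finset.sum_sub_distrib, hsum', sub_zero]
        simp
  have h5 : (Fintype.card κ' : ℝ) * s ≤ Fintype.card κ * s := by
    have : Fintype.card κ' ≤ Fintype.card κ := Fintype.card_subtype_le _
    exact mul_le_mul_of_nonneg_right (by exact_mod_cast this) hs0.le
  linarith

end FB88
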