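import Pool.Agent.W_fa9b59_h88.HexDef

set_option autoImplicit false

open MeasureTheory Metric Set
open scoped Pointwise RealInnerProductSpace

namespace FB88

/-- a point of a triangle (barycentric coordinates `mu`) and an arbitrary point (`la`):
the first lies on a segment from the second to an edge of the triangle -/
lemma hex_cov_aux (mu la : Fin 3 → ℝ) (hmu : ∀ i, 0 ≤ mu i)
    (hlas : ∑ i, la i = 1) :
    ∃ τ : ℝ, 0 ≤ τ ∧ ∃ i, mu i = τ * la i ∧ ∀ j, τ * la j ≤ mu j := by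
  have hne : (Finset.univ.filter fun i => 0 < la i).Nonempty := by
    by_contra h
    rw [Finset.not_nonempty_iff_eq_empty, Finset.filter_eq_empty_iff] at h
    have h2 : ∑ i, la i ≤ 0 :=
      Finset.sum_nonpos fun i _ => not_lt.1 (h (Finset.mem_univ i))
    linarith
  obtain ⟨i, hi, hmin⟩ := Finset.exists_min_image _ (fun i => mu i / la i) hne
  rw [Finset.mem_filter] at hi
  refine ⟨mu i / la i, div_nonneg (hmu i) hi.2.le, i, ?_, fun j => ?_⟩
  · field_simp [hi.2.ne']
  · rcases lt_or_ge 0 (la j) with hj | hj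
    · have h3 := hmin j (Finset.mem_filter.2 ⟨Finset.mem_univ j, hj⟩)
      have h4 : mu i / la i * la j ≤ mu j / la j * la j :=
        mul_le_mul_of_nonneg_right h3 hj.le
      rwa [div_mul_cancel₀ _ hj.ne'] at h4
    · exact (mul_nonpos_of_nonneg_of_nonpos (div_nonneg (hmu i) hi.2.le) hj).trans (hmu j)

lemma hex_cov_mem3 {H : Set E} (hH : Convex ℝ H) {u v w : E} (hu : u ∈ H) (hv : v ∈ H)
    (hw : w ∈ H) {α β γ : ℝ} (hα : 0 ≤ α) (hβ : 0 ≤ β) (hγ : 0 ≤ γ) (hs : α + β + γ = 1) :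
    α • u + β • v + γ • w ∈ H := by
  have h := hH.sum_mem (t := Finset.univ) (w := ![α, β, γ]) (z := ![u, v, w])
    (by intro i _; fin_cases i <;> simpa) (by simp [Fin.sum_univ_three, hs])
    (by intro i _; fin_cases i <;> simpa)
  simpa [Fin.sum_univ_three] using h

/-- A centrally symmetric hexagon is a lattice tile (covering part). The hexagon with vertices
p₁, p₂, p₃, -p₁, -p₂, -p₃ in this order; lattice generated by a = p₁ + p₂, b = p₂ + p₃.
Proof: write p₁ = α a + β b (a, b independent since det2 a b is the sum of the three determinants).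
The hypotheses say β ≤ 0, α ≤ 1, 0 ≤ α + β. The triangle D = (p₁, p₃, -p₂) has edges
p₃ - p₁ = b - a, -p₂ - p₃ = -b, p₁ + p₂ = a, so D and D' = (p₁, p₃, q), q = p₁ + p₂ + p₃ (a parallelogram
with edges in the lattice basis) cover the plane modulo the lattice. D is in the hull. The point
p₂ is in D' (barycentric coordinates are the three determinants divided by their sum), so D' is the
union of the triangles (p₁, p₃, p₂), (p₃, q, p₂), (q, p₁, p₂); the first is in the hull, the second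
minus (p₂ + p₃) is (-p₂, p₁, -p₃), the third minus (p₁ + p₂) is (p₃, -p₂, -p₁), also in the hull. -/
theorem hex_cov (p₁ p₂ p₃ : E) (h₁₂ : 0 ≤ det2 p₁ p₂) (h₂₃ : 0 ≤ det2 p₂ p₃)
    (h₁₃ : 0 ≤ det2 p₁ p₃) (hpos : 0 < det2 p₁ p₂ + det2 p₂ p₃ + det2 p₁ p₃) (x : E) :
    ∃ m n : ℤ, x - ((m : ℝ) • (p₁ + p₂) + (n : ℝ) • (p₂ + p₃)) ∈
      convexHull ℝ {p₁, p₂, p₃, -p₁, -p₂, -p₃} := by
  have hdet : det2 (p₁ + p₂) (p₂ + p₃) ≠ 0 := by
    have : det2 (p₁ + p₂) (p₂ + p₃) = det2 p₁ p₂ + det2 p₂ p₃ + det2 p₁ p₃ := by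
      simp only [det2, PiLp.add_apply]; ring
    rw [this]; exact hpos.ne'
  have coord : ∀ y : E, ∃ s t : ℝ, y = s • (p₁ + p₂) + t • (p₂ + p₃) := by
    intro y
    refine ⟨det2 y (p₂ + p₃) / det2 (p₁ + p₂) (p₂ + p₃),
      det2 (p₁ + p₂) y / det2 (p₁ + p₂) (p₂ + p₃), ?_⟩
    set d := det2 (p₁ + p₂) (p₂ + p₃) with hd
    have hd' := hd
    simp only [det2, PiLp.add_apply] at hd'
    ext i
    fin_cases i
    · simp only [det2, PiLp.add_apply, PiLp.smul_apply, smul_eq_mul, Fin.zero_eta]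
      rw [div_mul_eq_mul_div, div_mul_eq_mul_div, ← add_div, eq_div_iff hdet, hd']
      ring
    · simp only [det2, PiLp.add_apply, PiLp.smul_apply, smul_eq_mul, Fin.mk_one]
      rw [div_mul_eq_mul_div, div_mul_eq_mul_div, ← add_div, eq_div_iff hdet, hd']
      ring
  obtain ⟨s, t, hst⟩ := coord (x + p₂)
  obtain ⟨s₂, t₂, h2⟩ := coord (p₂ + p₂)
  have h2' : ∀ i : Fin 2, p₂ i + p₂ i = s₂ * (p₁ i + p₂ i) + t₂ * (p₂ i + p₃ i) := by
    intro i
    have := congrArg (fun y : E => y i) h2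
    simpa only [PiLp.add_apply, PiLp.smul_apply, smul_eq_mul] using this
  have hx : ∀ i : Fin 2, x i = (⌊s⌋ : ℝ) * (p₁ i + p₂ i) + (⌊t⌋ : ℝ) * (p₂ i + p₃ i)
      + (-(p₂ i) + Int.fract s * (p₁ i + p₂ i) + Int.fract t * (p₂ i + p₃ i)) := by
    intro i
    have h := congrArg (fun y : E => y i) hst
    simp only [PiLp.add_apply, PiLp.smul_apply, smul_eq_mul] at h
    have hs := Int.floor_add_fract s
    have ht := Int.floor_add_fract t
    linear_combination h - (p₁ i + p₂ i) * hs - (p₂ i + p₃ i) * ht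
  have hs0 := Int.fract_nonneg s
  have ht0 := Int.fract_nonneg t
  have hs1 := (Int.fract_lt_one s).le
  have ht1 := (Int.fract_lt_one t).le
  generalize Int.fract s = s' at *
  generalize Int.fract t = t' at *
  generalize (⌊s⌋ : ℤ) = m at *
  generalize (⌊t⌋ : ℤ) = n at *
  have hH : Convex ℝ (convexHull ℝ ({p₁, p₂, p₃, -p₁, -p₂, -p₃} : Set E)) :=
    convex_convexHull ℝ _
  have m1 : p₁ ∈ convexHull ℝ ({p₁, p₂, p₃, -p₁, -p₂, -p₃} : Set E) :=
    subset_convexHull ℝ _ (by simp)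
  have m2 : p₂ ∈ convexHull ℝ ({p₁, p₂, p₃, -p₁, -p₂, -p₃} : Set E) :=
    subset_convexHull ℝ _ (by simp)
  have m3 : p₃ ∈ convexHull ℝ ({p₁, p₂, p₃, -p₁, -p₂, -p₃} : Set E) :=
    subset_convexHull ℝ _ (by simp)
  have m4 : -p₁ ∈ convexHull ℝ ({p₁, p₂, p₃, -p₁, -p₂, -p₃} : Set E) :=
    subset_convexHull ℝ _ (by simp)
  have m5 : -p₂ ∈ convexHull ℝ ({p₁, p₂, p₃, -p₁, -p₂, -p₃} : Set E) :=
    subset_convexHull ℝ _ (by simp)
  have m6 : -p₃ ∈ convexHull ℝ ({p₁, p₂, p₃, -p₁, -p₂, -p₃} : Set E) :=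
    subset_convexHull ℝ _ (by simp)
  generalize convexHull ℝ ({p₁, p₂, p₃, -p₁, -p₂, -p₃} : Set E) = H at *
  rcases le_or_gt (s' + t') 1 with hle | hgt
  · refine ⟨m, n, ?_⟩
    have h := hex_cov_mem3 hH m5 m1 m3 (α := 1 - s' - t') (β := s') (γ := t')
      (by linarith) hs0 ht0 (by ring)
    convert h using 1
    ext i
    simp only [PiLp.add_apply, PiLp.sub_apply, PiLp.neg_apply, PiLp.smul_apply, smul_eq_mul]
    linear_combination hx i
  · obtain ⟨τ, hτ, k, hk, hall⟩ := hex_cov_aux ![1 - t', 1 - s', s' + t' - 1]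
      ![1 - t₂, 1 - s₂, s₂ + t₂ - 1]
      (by intro i; fin_cases i <;> simp <;> linarith)
      (by simp [Fin.sum_univ_three]; ring)
    have a0 := hall 0
    have a1 := hall 1
    have a2 := hall 2
    simp at a0 a1 a2
    fin_cases k
    · simp at hk
      refine ⟨m, n + 1, ?_⟩
      have h := hex_cov_mem3 hH m6 m5 m1 (α := τ) (β := (1 - s') - τ * (1 - s₂))
        (γ := (s' + t' - 1) - τ * (s₂ + t₂ - 1))
        hτ (by linarith) (by linarith) (by linear_combination -hk)
      convert h using 1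
      ext i
      simp only [PiLp.add_apply, PiLp.sub_apply, PiLp.neg_apply, PiLp.smul_apply, smul_eq_mul]
      push_cast
      linear_combination hx i - τ * h2' i + (p₁ i - p₂ i - p₃ i) * hk
    · simp at hk
      refine ⟨m + 1, n, ?_⟩
      have h := hex_cov_mem3 hH m4 m5 m3 (α := τ) (β := (1 - t') - τ * (1 - t₂))
        (γ := (s' + t' - 1) - τ * (s₂ + t₂ - 1))
        hτ (by linarith) (by linarith) (by linear_combination -hk)
      convert h using 1
      ext i
      simp only [PiLp.add_apply, PiLp.sub_apply, PiLp.neg_apply, PiLp.smul_apply, smul_eq_mul]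
      push_cast
      linear_combination hx i - τ * h2' i + (p₃ i - p₂ i - p₁ i) * hk
    · simp at hk
      refine ⟨m, n, ?_⟩
      have h := hex_cov_mem3 hH m2 m1 m3 (α := τ) (β := (1 - t') - τ * (1 - t₂))
        (γ := (1 - s') - τ * (1 - s₂))
        hτ (by linarith) (by linarith) (by linear_combination -hk)
      convert h using 1
      ext i
      simp only [PiLp.add_apply, PiLp.sub_apply, PiLp.smul_apply, smul_eq_mul]
      linear_combination hx i - τ * h2' i + (p₁ i + p₂ i + p₃ i) * hk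

end FB88
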