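import Pool.Agent.W_fa9b59_h88.Basic

set_option autoImplicit false

open MeasureTheory Metric Set
open scoped Pointwise RealInnerProductSpace

namespace FB88

/-- determinant of two vectors of the plane -/
def det2 (a b : E) : ℝ := a 0 * b 1 - a 1 * b 0

end FB88
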