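import Pool.Agent.W_fa9b59_h88.Basic

set_option autoImplicit false

open MeasureTheory Metric Set
open scoped Pointwise RealInnerProductSpace

namespace FB88

lemma stein_congr {ι κ : Type} [Fintype ι] [Fintype κ] {w : ι → E} {w' : κ → E} {T : Set E}
    (h : ∀ Q, Body Q → Y w Q = Y w' Q) (hw : Stein w T) : Stein w' T := by
  intro Q hQ t ht
  rw [← h Q hQ]
  exact hw Q hQ t ht

/-- area (Q + t T1 + t T2) by two applications (use also t = 1, Q = T1 for area (T1 + T2)),
and Y w2 (Q + t T1) = Y w2 Q + t Y w2 T1. -/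
lemma stein_add {ι κ : Type} [Fintype ι] [Fintype κ] {w₁ : ι → E} {w₂ : κ → E} {T₁ T₂ : Set E}
    (h₁ : Body T₁) (h₂ : Body T₂) (hs₁ : Stein w₁ T₁) (hs₂ : Stein w₂ T₂) :
    Stein (Sum.elim w₁ w₂) (T₁ + T₂) := by
  intro Q hQ t ht
  have hT : t • (T₁ + T₂) = t • T₁ + t • T₂ := smul_add t T₁ T₂
  have h3 := hs₂ (Q + t • T₁) (hQ.add (h₁.smul t)) t ht
  have h4 := hs₁ Q hQ t ht
  have h5 := hs₂ T₁ h₁ 1 zero_le_one
  rw [one_smul] at h5
  have h6 : Y (Sum.elim w₁ w₂) Q = Y w₁ Q + Y w₂ Q := by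
    simp [Y]
  have h7 : Y w₂ (Q + t • T₁) = Y w₂ Q + t * Y w₂ T₁ := by
    rw [Y_add w₂ hQ (h₁.smul t), Y_smul w₂ h₁ ht]
  rw [hT, ← add_assoc, h3, h4, h5, h6, h7]
  ring

lemma stein_zero {ι : Type} [Fintype ι] : Stein (fun _ : ι => (0 : E)) {0} := by
  intro Q hQ t ht
  have h1 : t • ({0} : Set E) = {0} := by
    rw [Set.smul_set_singleton, smul_zero]
  have h2 : Q + ({0} : Set E) = Q := by
    rw [Set.add_singleton]
    simp
  have h3 : Y (fun _ : ι => (0 : E)) Q = 0 := by
    simp [Y, hs_zero_dir]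
  rw [h1, h2, h3, area_singleton]
  ring

lemma PolA_three {ι : Type} [DecidableEq ι] [Nonempty ι] (s : Finset ι) (h : s.card ≤ 3) :
    ∃ a b c : ι, ∀ i ∈ s, i = a ∨ i = b ∨ i = c := by
  rcases s.eq_empty_or_nonempty with rfl | ⟨a, ha⟩
  · obtain ⟨a⟩ := (inferInstance : Nonempty ι)
    exact ⟨a, a, a, by simp⟩
  have h1 : (s.erase a).card ≤ 2 := by
    rw [Finset.card_erase_of_mem ha]
    omega
  rcases (s.erase a).eq_empty_or_nonempty with h2 | ⟨b, hb⟩
  · refine ⟨a, a, a, fun i hi => Or.inl ?_⟩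
    by_contra hne
    have h3 : i ∈ s.erase a := Finset.mem_erase.2 ⟨hne, hi⟩
    rw [h2] at h3
    exact absurd h3 (Finset.notMem_empty i)
  have h3 : ((s.erase a).erase b).card ≤ 1 := by
    rw [Finset.card_erase_of_mem hb]
    omega
  rcases ((s.erase a).erase b).eq_empty_or_nonempty with h4 | ⟨c, hc⟩
  · refine ⟨a, b, b, fun i hi => ?_⟩
    by_contra hne
    push Not at hne
    have h5 : i ∈ (s.erase a).erase b :=
      Finset.mem_erase.2 ⟨hne.2.1, Finset.mem_erase.2 ⟨hne.1, hi⟩⟩
    rw [h4] at h5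
    exact absurd h5 (Finset.notMem_empty i)
  · refine ⟨a, b, c, fun i hi => ?_⟩
    by_contra hne
    push Not at hne
    have h5 : i ∈ (s.erase a).erase b :=
      Finset.mem_erase.2 ⟨hne.2.1, Finset.mem_erase.2 ⟨hne.1, hi⟩⟩
    exact hne.2.2 (Finset.card_le_one.1 h3 i h5 c hc)

/-- Caratheodory step: if the w i sum to 0 and not all vanish there are a, b, c in ι and
coefficients α with 0 ≤ α i ≤ 1, supported on {a, b, c}, with ∑ α i • w i = 0, and some j with
w j ≠ 0 and α j = 1. Proof: 0 lies in the convex hull of the nonzero w i, hence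
(`convexHull_eq_union`, dimension 2) in the convex hull of at most 3 of them; scale the weights so
that the largest is 1. -/
lemma caratheodory_step {ι : Type} [Fintype ι] [DecidableEq ι] (w : ι → E) (hw : ∑ i, w i = 0)
    (hne : ∃ i, w i ≠ 0) :
    ∃ (a b c : ι) (α : ι → ℝ), (∀ i, 0 ≤ α i ∧ α i ≤ 1) ∧ (∀ i, i ≠ a → i ≠ b → i ≠ c → α i = 0) ∧
      ∑ i, α i • w i = 0 ∧ ∃ j, w j ≠ 0 ∧ α j = 1 := by
  obtain ⟨i0, hi0⟩ := hne
  haveI : Nonempty ι := ⟨i0⟩
  have hsum : ∑ i ∈ Finset.univ.filter (fun i => w i ≠ 0), w i = 0 := by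
    rw [Finset.sum_filter_ne_zero]
    exact hw
  have hcard : 0 < ((Finset.univ.filter (fun i => w i ≠ 0)).card : ℝ) := by
    rw [Nat.cast_pos, Finset.card_pos]
    exact ⟨i0, Finset.mem_filter.2 ⟨Finset.mem_univ _, hi0⟩⟩
  have h0 : (0 : E) ∈ convexHull ℝ (w '' {i | w i ≠ 0}) := by
    have h1 := Finset.centerMass_mem_convexHull (R := ℝ) (s := w '' {i | w i ≠ 0})
      (Finset.univ.filter (fun i => w i ≠ 0)) (w := fun _ => (1 : ℝ)) (z := w)
      (fun _ _ => zero_le_one) (by simpa using hcard)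
      (fun i hi => ⟨i, (Finset.mem_filter.1 hi).2, rfl⟩)
    rw [Finset.centerMass] at h1
    simp only [one_smul, hsum, smul_zero] at h1
    exact h1
  obtain ⟨κ, hκ, z, wt, hz, haff, hwt, hwt1, hwt0⟩ := eq_pos_convex_span_of_mem_convexHull h0
  have hch : ∀ k, ∃ i, w i ≠ 0 ∧ w i = z k := by
    intro k
    obtain ⟨i, hi, hik⟩ := hz ⟨k, rfl⟩
    exact ⟨i, hi, hik⟩
  choose g hg0 hg using hch
  have hinj : Function.Injective g := by
    intro k l hkl
    apply haff.injective
    rw [← hg k, ← hg l, hkl]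
  haveI : Nonempty κ := by
    by_contra hcon
    rw [not_nonempty_iff] at hcon
    rw [Finset.univ_eq_empty, Finset.sum_empty] at hwt1
    exact zero_ne_one hwt1
  obtain ⟨k0, hk0⟩ := Finite.exists_max wt
  have hM : 0 < wt k0 := hwt k0
  classical
  have hα : ∀ k, ∑ l, (if g l = g k then wt l / wt k0 else 0) = wt k / wt k0 := by
    intro k
    rw [Finset.sum_eq_single k]
    · rw [if_pos rfl]
    · intro l _ hl
      rw [if_neg (fun h => hl (hinj h))]
    · intro h
      exact absurd (Finset.mem_univ k) h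
  have hcard3 : Fintype.card κ ≤ 3 := by
    have h1 := haff.card_le_finrank_succ
    have h2 : Module.finrank ℝ (vectorSpan ℝ (Set.range z)) ≤ 2 := by
      have h3 := Submodule.finrank_le (vectorSpan ℝ (Set.range z))
      rw [finrank_euclideanSpace, Fintype.card_fin] at h3
      exact h3
    omega
  obtain ⟨a, b, c, habc⟩ := PolA_three (Finset.univ.image g)
    (Finset.card_image_le.trans (by rw [Finset.card_univ]; exact hcard3))
  refine ⟨a, b, c, fun i => ∑ l, (if g l = i then wt l / wt k0 else 0), ?_, ?_, ?_, g k0, hg0 k0,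
    ?_⟩
  · intro i
    constructor
    · apply Finset.sum_nonneg
      intro l _
      split_ifs
      · exact div_nonneg (hwt l).le hM.le
      · exact le_rfl
    · by_cases hi : ∃ k, g k = i
      · obtain ⟨k, rfl⟩ := hi
        show ∑ l, (if g l = g k then wt l / wt k0 else 0) ≤ 1
        rw [hα, div_le_one hM]
        exact hk0 k
      · have h1 : ∑ l, (if g l = i then wt l / wt k0 else 0) = 0 := by
          apply Finset.sum_eq_zero
          intro l _
          rw [if_neg]
          exact fun h => hi ⟨l, h⟩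
        show ∑ l, (if g l = i then wt l / wt k0 else 0) ≤ 1
        rw [h1]
        exact zero_le_one
  · intro i h1 h2 h3
    apply Finset.sum_eq_zero
    intro l _
    rw [if_neg]
    rintro rfl
    rcases habc (g l) (Finset.mem_image_of_mem g (Finset.mem_univ l)) with h | h | h
    · exact h1 h
    · exact h2 h
    · exact h3 h
  · have h1 : ∀ i, (∑ l, (if g l = i then wt l / wt k0 else 0)) • w i =
        ∑ l, (if g l = i then (wt l / wt k0) • w i else 0) := by
      intro i
      rw [Finset.sum_smul]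
      refine Finset.sum_congr rfl fun l _ => ?_
      split_ifs
      · rfl
      · exact zero_smul ℝ _
    simp only [h1]
    rw [Finset.sum_comm]
    have h2 : ∀ l, ∑ i, (if g l = i then (wt l / wt k0) • w i else 0) =
        (wt k0)⁻¹ • (wt l • z l) := by
      intro l
      rw [Finset.sum_ite_eq, if_pos (Finset.mem_univ _), hg, smul_smul, div_eq_inv_mul]
    simp only [h2]
    rw [← Finset.smul_sum, hwt0, smul_zero]
  · show ∑ l, (if g l = g k0 then wt l / wt k0 else 0) = 1
    rw [hα, div_self hM.ne']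

end FB88
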