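import Pool.Agent.W_fa9b59_h88.Basic

set_option autoImplicit false

open MeasureTheory Metric Set
open scoped Pointwise RealInnerProductSpace

namespace FB88

/-- a strictly monotone functional on bodies: weighted sum of the widths in the directions of a
dense sequence -/
noncomputable def psi (C : Set E) : ℝ :=
  ∑' k : ℕ, (1 / 2 : ℝ) ^ k / (1 + ‖TopologicalSpace.denseSeq E k‖) *
    (hs C (TopologicalSpace.denseSeq E k) + hs C (-(TopologicalSpace.denseSeq E k)))

lemma Psi_abs {C : Set E} (hC : IsCompact C) (hC0 : C.Nonempty) {R : ℝ}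
    (hR : ∀ x ∈ C, ‖x‖ ≤ R) (u : E) : |hs C u| ≤ ‖u‖ * R := by
  have h := hs_lipschitz hC hC0 hR u 0
  rwa [hs_zero_dir, sub_zero, sub_zero] at h

lemma Psi_weight (u : E) (k : ℕ) : 0 < (1 / 2 : ℝ) ^ k / (1 + ‖u‖) := by positivity

lemma Psi_weight_le (u : E) (k : ℕ) {c : ℝ} (hc : 0 ≤ c) :
    (1 / 2 : ℝ) ^ k / (1 + ‖u‖) * (‖u‖ * c) ≤ (1 / 2 : ℝ) ^ k * c := by
  have h1 : 0 < 1 + ‖u‖ := by positivity
  have h2 : (0 : ℝ) ≤ (1 / 2 : ℝ) ^ k := by positivity
  rw [div_mul_eq_mul_div, div_le_iff₀ h1]
  have h3 : ‖u‖ * c ≤ c * (1 + ‖u‖) := by nlinarith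
  calc (1 / 2 : ℝ) ^ k * (‖u‖ * c) ≤ (1 / 2 : ℝ) ^ k * (c * (1 + ‖u‖)) :=
        mul_le_mul_of_nonneg_left h3 h2
    _ = (1 / 2 : ℝ) ^ k * c * (1 + ‖u‖) := by ring

lemma Psi_summable {C : Set E} (hC : IsCompact C) (hC0 : C.Nonempty) :
    Summable fun k : ℕ => (1 / 2 : ℝ) ^ k / (1 + ‖TopologicalSpace.denseSeq E k‖) *
      (hs C (TopologicalSpace.denseSeq E k) + hs C (-(TopologicalSpace.denseSeq E k))) := by
  obtain ⟨R, hR⟩ := hC.isBounded.exists_norm_le
  have hR0 : 0 ≤ R := by
    obtain ⟨x, hx⟩ := hC0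
    exact (norm_nonneg x).trans (hR x hx)
  refine Summable.of_nonneg_of_le (fun k => ?_) (fun k => ?_)
    (summable_geometric_two.mul_right (2 * R))
  · exact mul_nonneg (Psi_weight _ _).le (hs_neg_add_nonneg hC hC0 _)
  · set u := TopologicalSpace.denseSeq E k
    have h1 := Psi_abs hC hC0 hR u
    have h2 := Psi_abs hC hC0 hR (-u)
    rw [norm_neg] at h2
    rw [abs_le] at h1 h2
    have h3 : hs C u + hs C (-u) ≤ ‖u‖ * (2 * R) := by linarith [h1.2, h2.2]
    exact (mul_le_mul_of_nonneg_left h3 (Psi_weight _ _).le).trans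
      (Psi_weight_le u k (by positivity))

/-- the series of `psi` is summable: the width in direction u is between 0 and ‖u‖ diam C -/
lemma psi_summable {C : Set E} (hC : Body C) :
    Summable fun k : ℕ => (1 / 2 : ℝ) ^ k / (1 + ‖TopologicalSpace.denseSeq E k‖) *
      (hs C (TopologicalSpace.denseSeq E k) + hs C (-(TopologicalSpace.denseSeq E k))) :=
  Psi_summable hC.2.1 hC.2.2

/-- Termwise comparison; the strict inequality at one u holds on an open set by `hs_continuous`,
hence at some member of the dense sequence. -/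
theorem psi_pair_lt {A B A' B' : Set E} (hA : Body A) (hB : Body B) (hA' : Body A')
    (hB' : Body B') (hle : ∀ u, hs A' u + hs B' u ≤ hs A u + hs B u)
    (hlt : ∃ u, hs A' u + hs B' u < hs A u + hs B u) : psi A' + psi B' < psi A + psi B := by
  have hcont : ∀ {C : Set E}, Body C → Continuous (hs C) := fun hC =>
    hs_continuous hC.2.1 hC.2.2
  have hopen : IsOpen {u : E | hs A' u + hs B' u < hs A u + hs B u} :=
    isOpen_lt ((hcont hA').add (hcont hB')) ((hcont hA).add (hcont hB))
  obtain ⟨k, hk⟩ := (TopologicalSpace.denseRange_denseSeq E).exists_mem_open hopen hlt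
  unfold psi
  rw [← (psi_summable hA').tsum_add (psi_summable hB'),
    ← (psi_summable hA).tsum_add (psi_summable hB)]
  refine Summable.tsum_lt_tsum (i := k) (fun j => ?_) ?_
    ((psi_summable hA').add (psi_summable hB')) ((psi_summable hA).add (psi_summable hB))
  · rw [← mul_add, ← mul_add]
    refine mul_le_mul_of_nonneg_left ?_ (Psi_weight _ _).le
    have h1 := hle (TopologicalSpace.denseSeq E j)
    have h2 := hle (-(TopologicalSpace.denseSeq E j))
    linarith
  · rw [← mul_add, ← mul_add]
    refine mul_lt_mul_of_pos_left ?_ (Psi_weight _ _)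
    have h1 : hs A' (TopologicalSpace.denseSeq E k) + hs B' (TopologicalSpace.denseSeq E k) <
      hs A (TopologicalSpace.denseSeq E k) + hs B (TopologicalSpace.denseSeq E k) := hk
    have h2 := hle (-(TopologicalSpace.denseSeq E k))
    linarith

lemma psi_singleton (p : E) : psi {p} = 0 := by
  unfold psi
  have h : ∀ k : ℕ, (1 / 2 : ℝ) ^ k / (1 + ‖TopologicalSpace.denseSeq E k‖) *
      (hs {p} (TopologicalSpace.denseSeq E k) + hs {p} (-(TopologicalSpace.denseSeq E k))) =
      0 := by
    intro k
    rw [hs_singleton, hs_singleton, inner_neg_left, add_neg_cancel, mul_zero]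
  simp only [h, tsum_zero]

lemma psi_mono {A B : Set E} (hA : Body A) (hB : Body B) (h : A ⊆ B) : psi A ≤ psi B := by
  unfold psi
  refine Summable.tsum_le_tsum (fun k => ?_) (psi_summable hA) (psi_summable hB)
  exact mul_le_mul_of_nonneg_left (add_le_add (hs_mono h hA.2.2 hB.2.1 _)
    (hs_mono h hA.2.2 hB.2.1 _)) (Psi_weight _ _).le

/-- strict monotonicity: `exists_sep` for a point of B \ A -/
lemma psi_lt {A B : Set E} (hA : Body A) (hB : Body B) (h : A ⊆ B) (hne : (B \ A).Nonempty) :
    psi A < psi B := by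
  obtain ⟨x, hxB, hxA⟩ := hne
  obtain ⟨u, hu⟩ := exists_sep hA hxA
  have h1 := psi_pair_lt hB (Body.singleton 0) hA (Body.singleton 0)
    (fun u => add_le_add_left (hs_mono h hA.2.2 hB.2.1 u) _)
    ⟨u, add_lt_add_left (hu.trans_le (le_hs hB.2.1 hxB u)) _⟩
  rwa [psi_singleton, add_zero, add_zero] at h1

lemma Psi_dist (L L' : TopologicalSpace.NonemptyCompacts E) (u : E) :
    |hs (L : Set E) u - hs (L' : Set E) u| ≤ ‖u‖ * dist L L' := by
  have key : ∀ L L' : TopologicalSpace.NonemptyCompacts E,
      hs (L : Set E) u - hs (L' : Set E) u ≤ ‖u‖ * dist L L' := by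
    intro L L'
    obtain ⟨x, hx, hxe⟩ := exists_hs L.isCompact L.nonempty u
    obtain ⟨y, hy, hye⟩ := L'.isCompact.exists_infDist_eq_dist L'.nonempty x
    have h1 : infDist x (L' : Set E) ≤ hausdorffDist (L : Set E) (L' : Set E) :=
      infDist_le_hausdorffDist_of_mem hx
        (hausdorffEDist_ne_top_of_nonempty_of_bounded L.nonempty L'.nonempty
          L.isCompact.isBounded L'.isCompact.isBounded)
    have h2 : dist L L' = hausdorffDist (L : Set E) (L' : Set E) :=
      NonemptyCompacts.dist_eq
    rw [← h2, hye] at h1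
    have h3 := le_hs L'.isCompact hy u
    have h4 : ⟪u, x⟫ - ⟪u, y⟫ ≤ ‖u‖ * dist x y := by
      rw [← inner_sub_right, dist_eq_norm]
      exact real_inner_le_norm _ _
    have h5 : ‖u‖ * dist x y ≤ ‖u‖ * dist L L' :=
      mul_le_mul_of_nonneg_left h1 (norm_nonneg _)
    linarith
  rw [abs_le]
  constructor
  · have := key L' L
    rw [dist_comm] at this
    linarith
  · exact key L L'

/-- continuity for the Hausdorff distance: |hs L u - hs L' u| ≤ ‖u‖ dist L L' -/
theorem hs_continuous_nc (u : E) :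
    Continuous fun L : TopologicalSpace.NonemptyCompacts E => hs (L : Set E) u := by
  have h : LipschitzWith (Real.toNNReal ‖u‖)
      fun L : TopologicalSpace.NonemptyCompacts E => hs (L : Set E) u := by
    refine LipschitzWith.of_dist_le_mul fun L L' => ?_
    rw [Real.dist_eq, Real.coe_toNNReal _ (norm_nonneg u)]
    exact Psi_dist L L' u
  exact h.continuous

/-- psi is 4-Lipschitz for the Hausdorff distance (or: uniform limit of continuous functions on
the sets of L contained in a fixed compact set) -/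
theorem psi_continuousOn {R : Set E} (hR : IsCompact R) :
    ContinuousOn (fun L : TopologicalSpace.NonemptyCompacts E => psi (L : Set E))
      {L | (L : Set E) ⊆ R} := by
  have h : LipschitzWith 4
      fun L : TopologicalSpace.NonemptyCompacts E => psi (L : Set E) := by
    refine LipschitzWith.of_dist_le_mul fun L L' => ?_
    rw [Real.dist_eq]
    have e1 : psi (L : Set E) - psi (L' : Set E) = ∑' k : ℕ,
        ((1 / 2 : ℝ) ^ k / (1 + ‖TopologicalSpace.denseSeq E k‖) *
        (hs (L : Set E) (TopologicalSpace.denseSeq E k) +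
          hs (L : Set E) (-(TopologicalSpace.denseSeq E k))) -
        (1 / 2 : ℝ) ^ k / (1 + ‖TopologicalSpace.denseSeq E k‖) *
        (hs (L' : Set E) (TopologicalSpace.denseSeq E k) +
          hs (L' : Set E) (-(TopologicalSpace.denseSeq E k)))) := by
      rw [(Psi_summable L.isCompact L.nonempty).tsum_sub
        (Psi_summable L'.isCompact L'.nonempty)]
      rfl
    rw [e1, ← Real.norm_eq_abs]
    have hs2 : HasSum (fun k : ℕ => (1 / 2 : ℝ) ^ k * (2 * dist L L'))
        (2 * (2 * dist L L')) := hasSum_geometric_two.mul_right _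
    refine (tsum_of_norm_bounded hs2 fun k => ?_).trans (le_of_eq ?_)
    · set u := TopologicalSpace.denseSeq E k
      have h1 := Psi_dist L L' u
      have h2 := Psi_dist L L' (-u)
      rw [norm_neg] at h2
      rw [← mul_sub, norm_mul, Real.norm_eq_abs, Real.norm_eq_abs,
        abs_of_pos (Psi_weight u k)]
      have h3 : |hs (L : Set E) u + hs (L : Set E) (-u) -
          (hs (L' : Set E) u + hs (L' : Set E) (-u))| ≤ ‖u‖ * (2 * dist L L') := by
        rw [abs_le] at h1 h2 ⊢
        constructor <;> linarith [h1.1, h1.2, h2.1, h2.2]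
      exact (mul_le_mul_of_nonneg_left h3 (Psi_weight u k).le).trans
        (Psi_weight_le u k (by positivity))
    · push_cast
      ring
  exact h.continuous.continuousOn

end FB88
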