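import Pool.Agent.W_fa9b59_h88.CrossFin

set_option autoImplicit false

open MeasureTheory Metric Set
open scoped Pointwise RealInnerProductSpace

namespace FB88

/-- Without crossing quadruple, a line separates A \ B from B \ A.
Proof. G = (interior B) \ A is open, its convex hull is open (`IsOpen.convexHull`) and disjoint
from the convex hull of A \ B by `cross_of_hulls`. `geometric_hahn_banach_open` gives a functional
< c on G and ≥ c on A \ B. Every x ∈ B \ A is a limit of points of interior B (B convex with
interior) and A is closed, so x is a limit of points of G: functional ≤ c on B \ A. The functional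
is nonzero as both sets are nonempty (G is nonempty by the same density remark). -/
theorem sep_line {A B : Set E} (hA : Body A) (hB : Body B) (hBi : (interior B).Nonempty)
    (hne : (A \ B).Nonempty) (hne' : (B \ A).Nonempty) (hx : ¬ CrossQ A B) :
    ∃ (f : E) (c : ℝ), f ≠ 0 ∧ (∀ x ∈ A \ B, c ≤ ⟪f, x⟫) ∧ (∀ x ∈ B \ A, ⟪f, x⟫ ≤ c) := by
  have hAc : IsClosed A := hA.2.1.isClosed
  have hGo : IsOpen (interior B \ A) := isOpen_interior.sdiff hAc
  have hcl : B \ A ⊆ closure (interior B \ A) := by
    intro x hx'
    have h1 : x ∈ closure (interior B) := by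
      rw [hB.1.closure_interior_eq_closure_of_nonempty_interior hBi]
      exact subset_closure hx'.1
    have h2 := IsOpen.inter_closure (s := Aᶜ) (t := interior B) hAc.isOpen_compl ⟨hx'.2, h1⟩
    rw [inter_comm] at h2
    exact h2
  have hdisj : Disjoint (convexHull ℝ (interior B \ A)) (convexHull ℝ (A \ B)) := by
    rw [Set.disjoint_left]
    intro z hz1 hz2
    apply hx
    refine cross_of_hulls hA.1 hB.1 ⟨z, hz2, ?_⟩
    exact convexHull_mono (diff_subset_diff_left interior_subset) hz1
  obtain ⟨f, c, h1, h2⟩ := geometric_hahn_banach_open (convex_convexHull ℝ (interior B \ A))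
    hGo.convexHull (convex_convexHull ℝ (A \ B)) hdisj
  obtain ⟨u, hu⟩ := (InnerProductSpace.toDual ℝ E).surjective f
  have hfu : ∀ y, f y = ⟪u, y⟫ := fun y => by
    rw [← hu]; simp
  refine ⟨u, c, ?_, ?_, ?_⟩
  · rintro rfl
    obtain ⟨b, hb⟩ := hne'
    obtain ⟨g, hg⟩ : (interior B \ A).Nonempty := by
      rw [← closure_nonempty_iff]
      exact ⟨b, hcl hb⟩
    obtain ⟨a, ha⟩ := hne
    have h3 := h1 g (subset_convexHull ℝ _ hg)
    have h4 := h2 a (subset_convexHull ℝ _ ha)
    rw [hfu, inner_zero_left] at h3 h4
    linarith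
  · intro x hx'
    rw [← hfu]
    exact h2 x (subset_convexHull ℝ _ hx')
  · intro x hx'
    have hS : IsClosed {y : E | ⟪u, y⟫ ≤ c} :=
      isClosed_le (by fun_prop) continuous_const
    have hsub : interior B \ A ⊆ {y : E | ⟪u, y⟫ ≤ c} := by
      intro y hy
      have h3 := h1 y (subset_convexHull ℝ _ hy)
      rw [hfu] at h3
      exact h3.le
    exact closure_minimal hsub hS (hcl hx')

end FB88
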