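import Pool.Agent.W_fa9b59_h88.SepLine
import Pool.Agent.W_fa9b59_h88.Psi
import Pool.Agent.W_fa9b59_h88.Exch

set_option autoImplicit false

open MeasureTheory Metric Set
open scoped Pointwise RealInnerProductSpace

namespace FB88

/-- a nonempty open set contains a point different from p -/
lemma stepa_exists_ne {U : Set E} (hU : IsOpen U) {p : E} (hp : p ∈ U) : ∃ q ∈ U, q ≠ p := by
  obtain ⟨ε, hε, hb⟩ := Metric.isOpen_iff.1 hU p hp
  obtain ⟨w, hw⟩ := exists_ne (0 : E)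
  have hw0 : 0 < ‖w‖ := norm_pos_iff.2 hw
  refine ⟨p + (ε / (2 * ‖w‖)) • w, hb ?_, ?_⟩
  · rw [mem_ball, dist_eq_norm, add_sub_cancel_left, norm_smul, Real.norm_eq_abs,
      abs_of_pos (by positivity)]
    field_simp
    linarith
  · intro h
    rw [add_eq_left, smul_eq_zero] at h
    rcases h with h | h
    · have : 0 < ε / (2 * ‖w‖) := by positivity
      exact this.ne' h
    · exact hw h

/-- a nonempty open set contains a point off the line -/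
lemma stepa_exists_off {U : Set E} (hU : IsOpen U) (hne : U.Nonempty) {f : E} (hf : f ≠ 0)
    (c : ℝ) : ∃ z ∈ U, ⟪f, z⟫ ≠ c := by
  obtain ⟨p, hp⟩ := hne
  by_cases hc : ⟪f, p⟫ = c
  · obtain ⟨ε, hε, hb⟩ := Metric.isOpen_iff.1 hU p hp
    have hf0 : 0 < ‖f‖ := norm_pos_iff.2 hf
    refine ⟨p + (ε / (2 * ‖f‖)) • f, hb ?_, ?_⟩
    · rw [mem_ball, dist_eq_norm, add_sub_cancel_left, norm_smul, Real.norm_eq_abs,
        abs_of_pos (by positivity)]
      field_simp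
      linarith
    · rw [inner_add_right, inner_smul_right, real_inner_self_eq_norm_sq, hc]
      have : 0 < ε / (2 * ‖f‖) * ‖f‖ ^ 2 := by positivity
      linarith
  · exact ⟨p, hp, hc⟩

/-- Case without crossing quadruple for (A, B). If A ⊆ B: replace A by a singleton {p}, p ∈ A ∩ B
(A has interior so psi A > 0 by `psi_lt`). Same if B ⊆ A. Otherwise take f, c from `sep_line` and
A' = A ∩ {c ≤ ⟪f, x⟫}, B' = B ∩ {⟪f, x⟫ ≤ c}: they cover A ∪ B, and both are nonempty (they contain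
A \ B, B \ A); interior (A ∩ B) contains a point with ⟪f, x⟫ ≠ c, so A' ≠ A or B' ≠ B and
`psi_mono`, `psi_lt` give the claim. -/
theorem step_noncross {A B : Set E} (hA : Body A) (hB : Body B)
    (hint : (interior (A ∩ B)).Nonempty) (hx : ¬ CrossQ A B) :
    ∃ A' B', Body A' ∧ Body B' ∧ A' ⊆ A ∧ B' ⊆ B ∧ A ∪ B ⊆ A' ∪ B' ∧
      psi A' + psi B' < psi A + psi B := by
  obtain ⟨p, hp⟩ := hint
  obtain ⟨q, hq, hqp⟩ := stepa_exists_ne isOpen_interior hp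
  have hpAB : p ∈ A ∩ B := interior_subset hp
  have hqAB : q ∈ A ∩ B := interior_subset hq
  by_cases hAB : A ⊆ B
  · refine ⟨{p}, B, Body.singleton p, hB, singleton_subset_iff.2 hpAB.1, subset_rfl, ?_, ?_⟩
    · exact (union_subset hAB subset_rfl).trans subset_union_right
    · have := psi_lt (Body.singleton p) hA (singleton_subset_iff.2 hpAB.1) ⟨q, hqAB.1, hqp⟩
      linarith
  by_cases hBA : B ⊆ A
  · refine ⟨A, {p}, hA, Body.singleton p, subset_rfl, singleton_subset_iff.2 hpAB.2, ?_, ?_⟩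
    · exact (union_subset subset_rfl hBA).trans subset_union_left
    · have := psi_lt (Body.singleton p) hB (singleton_subset_iff.2 hpAB.2) ⟨q, hqAB.2, hqp⟩
      linarith
  have hne : (A \ B).Nonempty := sdiff_nonempty.2 hAB
  have hne' : (B \ A).Nonempty := sdiff_nonempty.2 hBA
  have hBi : (interior B).Nonempty := ⟨p, interior_mono inter_subset_right hp⟩
  obtain ⟨f, c, hf, h1, h2⟩ := sep_line hA hB hBi hne hne' hx
  obtain ⟨a, ha⟩ := hne
  obtain ⟨b, hb⟩ := hne'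
  have hA' : Body (A ∩ {x | c ≤ ⟪f, x⟫}) := hA.cap_ge ha.1 (h1 a ha)
  have hB' : Body (B ∩ {x | ⟪f, x⟫ ≤ c}) := hB.cap_le hb.1 (h2 b hb)
  refine ⟨A ∩ {x | c ≤ ⟪f, x⟫}, B ∩ {x | ⟪f, x⟫ ≤ c}, hA', hB', inter_subset_left,
    inter_subset_left, ?_, ?_⟩
  · intro x hx
    by_cases hxA : x ∈ A
    · by_cases hxB : x ∈ B
      · rcases le_total c ⟪f, x⟫ with h | h
        · exact Or.inl ⟨hxA, h⟩
        · exact Or.inr ⟨hxB, h⟩
      · exact Or.inl ⟨hxA, h1 x ⟨hxA, hxB⟩⟩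
    · have hxB : x ∈ B := hx.resolve_left hxA
      exact Or.inr ⟨hxB, h2 x ⟨hxB, hxA⟩⟩
  · have m1 := psi_mono hA' hA inter_subset_left
    have m2 := psi_mono hB' hB inter_subset_left
    obtain ⟨z, hz, hzc⟩ := stepa_exists_off isOpen_interior ⟨p, hp⟩ hf c
    have hzAB : z ∈ A ∩ B := interior_subset hz
    rcases lt_or_gt_of_ne hzc with h | h
    · have := psi_lt hA' hA inter_subset_left ⟨z, hzAB.1, fun h' => absurd h'.2 (not_le.2 h)⟩
      linarith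
    · have := psi_lt hB' hB inter_subset_left ⟨z, hzAB.2, fun h' => absurd h'.2 (not_le.2 h)⟩
      linarith

/-- One exchange: if L = line through b₁, b₂ ∈ B \ A, A ∩ L in the open segment, and the cap
X = A ∩ {c ≤ ⟪f, x⟫} ∋ a ∉ B is contained in a convex set M ⊇ B, then
A' = A ∩ {⟪f, x⟫ ≤ c} and B' = convexHull (B ∪ X) ⊆ M are better. From `exch`, `psi_pair_lt`. -/
theorem step_exch {A B M : Set E} (hA : Body A) (hB : Body B) (hM : Convex ℝ M) (hBM : B ⊆ M)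
    {b₁ b₂ : E} (hb₁ : b₁ ∈ B \ A) (hb₂ : b₂ ∈ B \ A) (hb : b₁ ≠ b₂) {f : E} {c : ℝ}
    (hAL : ∀ x ∈ A, ⟪f, x⟫ = c → x ∈ openSegment ℝ b₁ b₂) {a : E} (ha : a ∈ A \ B)
    (hac : c ≤ ⟪f, a⟫) {a' : E} (ha' : a' ∈ A) (hac' : ⟪f, a'⟫ ≤ c)
    (hXM : A ∩ {x | c ≤ ⟪f, x⟫} ⊆ M) :
    ∃ A' B', Body A' ∧ Body B' ∧ A' ⊆ A ∧ B' ⊆ M ∧ A ∪ B ⊆ A' ∪ B' ∧
      psi A' + psi B' < psi A + psi B := by
  obtain ⟨e1, e2⟩ := exch hA hB hb₁ hb₂ hb hAL ha hac ha' hac'
  have hA' : Body (A ∩ {x | ⟪f, x⟫ ≤ c}) := hA.cap_le ha' hac'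
  have hX : Body (A ∩ {x | c ≤ ⟪f, x⟫}) := hA.cap_ge ha.1 hac
  refine ⟨A ∩ {x | ⟪f, x⟫ ≤ c}, convexHull ℝ (B ∪ (A ∩ {x | c ≤ ⟪f, x⟫})), hA',
    Body.hull hB hX, inter_subset_left, convexHull_min (union_subset hBM hXM) hM, ?_,
    psi_pair_lt hA hB hA' (Body.hull hB hX) e1 e2⟩
  rintro x (hx | hx)
  · rcases le_total ⟪f, x⟫ c with h | h
    · exact Or.inl ⟨hx, h⟩
    · exact Or.inr (subset_convexHull ℝ _ (Or.inr ⟨hx, h⟩))
  · exact Or.inr (subset_convexHull ℝ _ (Or.inl hx))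

end FB88
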