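import Pool.Agent.W_fa9b59_h88.Basic

set_option autoImplicit false

open MeasureTheory Metric Set
open scoped Pointwise RealInnerProductSpace

namespace FB88

/-- the (possibly empty) triangle with outer normals n i and support numbers M i -/
def TriS (n : Fin 3 → E) (M : Fin 3 → ℝ) : Set E := {x | ∀ i, ⟪n i, x⟫ ≤ M i}

/-- translation of the support numbers: TriS n (M + ⟪n, p⟫) = tr p (TriS n M) -/
lemma triS_tr (n : Fin 3 → E) (M : Fin 3 → ℝ) (p : E) :
    TriS n (fun i => M i + ⟪n i, p⟫) = tr p (TriS n M) := by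
  ext x
  unfold TriS tr
  simp only [mem_ofPred_eq, inner_sub_right]
  constructor
  · intro h i
    have := h i
    linarith
  · intro h i
    have := h i
    linarith

/-- the two coordinates -/
noncomputable def TriArea_L (n : Fin 3 → E) : E →ₗ[ℝ] (Fin 2 → ℝ) :=
  LinearMap.pi fun i => innerₛₗ ℝ (![n 0, n 1] i)

lemma TriArea_L_apply (n : Fin 3 → E) (x : E) (i : Fin 2) :
    TriArea_L n x i = ⟪![n 0, n 1] i, x⟫ := rfl

lemma TriArea_inj (n : Fin 3 → E) (hli : LinearIndependent ℝ ![n 0, n 1]) :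
    Function.Injective (TriArea_L n) := by
  rw [← LinearMap.ker_eq_bot, LinearMap.ker_eq_bot']
  intro x hx
  have hfr : Module.finrank ℝ E = 2 := by
    rw [finrank_euclideanSpace, Fintype.card_fin]
  have hspan : Submodule.span ℝ (Set.range ![n 0, n 1]) = ⊤ :=
    hli.span_eq_top_of_card_eq_finrank (by rw [hfr, Fintype.card_fin])
  have h1 : Submodule.span ℝ (Set.range ![n 0, n 1]) ≤ LinearMap.ker (innerₛₗ ℝ x) := by
    rw [Submodule.span_le]
    rintro _ ⟨i, rfl⟩
    have h2 := congrFun hx i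
    rw [TriArea_L_apply] at h2
    change ⟪x, ![n 0, n 1] i⟫ = 0
    rw [real_inner_comm]
    exact h2
  rw [hspan] at h1
  have h3 : ⟪x, x⟫ = 0 := h1 (Submodule.mem_top (x := x))
  exact inner_self_eq_zero.1 h3

/-- the coordinates as a linear equivalence -/
noncomputable def TriArea_e (n : Fin 3 → E) (hli : LinearIndependent ℝ ![n 0, n 1]) :
    E ≃ₗ[ℝ] (Fin 2 → ℝ) :=
  LinearEquiv.ofInjectiveOfFinrankEq (TriArea_L n) (TriArea_inj n hli) (by
    rw [finrank_euclideanSpace, Fintype.card_fin, Module.finrank_fin_fun])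

lemma TriArea_e_apply (n : Fin 3 → E) (hli : LinearIndependent ℝ ![n 0, n 1]) (x : E)
    (i : Fin 2) : TriArea_e n hli x i = ⟪![n 0, n 1] i, x⟫ := rfl

/-- for M with the same sum there is a translation (n 0, n 1 are a basis, the sum of n is 0) -/
lemma triS_exists_tr (n : Fin 3 → E) (hn : ∑ i, n i = 0)
    (hli : LinearIndependent ℝ ![n 0, n 1]) (M M' : Fin 3 → ℝ) (hM : ∑ i, M i = ∑ i, M' i) :
    ∃ p : E, ∀ i, M i = M' i + ⟪n i, p⟫ := by
  obtain ⟨p, hp⟩ := (TriArea_e n hli).surjective ![M 0 - M' 0, M 1 - M' 1]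
  have h0 : ⟪n 0, p⟫ = M 0 - M' 0 := by
    have := congrFun hp 0
    rw [TriArea_e_apply] at this
    exact this
  have h1 : ⟪n 1, p⟫ = M 1 - M' 1 := by
    have := congrFun hp 1
    rw [TriArea_e_apply] at this
    exact this
  have h2 : ⟪n 0, p⟫ + ⟪n 1, p⟫ + ⟪n 2, p⟫ = 0 := by
    rw [← inner_add_left, ← inner_add_left]
    rw [Fin.sum_univ_three] at hn
    rw [hn, inner_zero_left]
  rw [Fin.sum_univ_three, Fin.sum_univ_three] at hM
  refine ⟨p, fun i => ?_⟩
  fin_cases i
  · change M 0 = M' 0 + ⟪n 0, p⟫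
    linarith
  · change M 1 = M' 1 + ⟪n 1, p⟫
    linarith
  · change M 2 = M' 2 + ⟪n 2, p⟫
    linarith

lemma TriArea_sum (n : Fin 3 → E) (hn : ∑ i, n i = 0) (x : E) :
    ⟪n 0, x⟫ + ⟪n 1, x⟫ + ⟪n 2, x⟫ = 0 := by
  rw [← inner_add_left, ← inner_add_left]
  rw [Fin.sum_univ_three] at hn
  rw [hn, inner_zero_left]

lemma TriArea_eq (n : Fin 3 → E) (M : Fin 3 → ℝ) :
    TriS n M = ⋂ i, {x : E | ⟪n i, x⟫ ≤ M i} := by
  ext x
  simp [TriS]

lemma TriArea_convex (n : Fin 3 → E) (M : Fin 3 → ℝ) : Convex ℝ (TriS n M) := by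
  rw [TriArea_eq]
  exact convex_iInter fun i => convex_halfSpace_le (innerSL ℝ (n i)).isLinear _

lemma TriArea_closed (n : Fin 3 → E) (M : Fin 3 → ℝ) : IsClosed (TriS n M) := by
  rw [TriArea_eq]
  exact isClosed_iInter fun i => isClosed_le (by fun_prop) continuous_const

lemma TriArea_compact (n : Fin 3 → E) (hn : ∑ i, n i = 0)
    (hli : LinearIndependent ℝ ![n 0, n 1]) (M : Fin 3 → ℝ) : IsCompact (TriS n M) := by
  set e := (TriArea_e n hli).toContinuousLinearEquiv with he
  have h1 : IsCompact (e.symm '' (Icc (fun _ => -(|M 0| + |M 1| + |M 2|))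
      (fun _ => |M 0| + |M 1| + |M 2|) : Set (Fin 2 → ℝ))) :=
    isCompact_Icc.image e.symm.continuous
  refine h1.of_isClosed_subset (TriArea_closed n M) fun x hx => ?_
  refine ⟨e x, ?_, e.symm_apply_apply x⟩
  have h2 := TriArea_sum n hn x
  have m0 := hx 0
  have m1 := hx 1
  have m2 := hx 2
  have a0 := le_abs_self (M 0)
  have a1 := le_abs_self (M 1)
  have a2 := le_abs_self (M 2)
  have b0 := abs_nonneg (M 0)
  have b1 := abs_nonneg (M 1)
  have b2 := abs_nonneg (M 2)
  constructor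
  · intro i
    change -(|M 0| + |M 1| + |M 2|) ≤ TriArea_e n hli x i
    rw [TriArea_e_apply]
    fin_cases i
    · change _ ≤ ⟪n 0, x⟫
      linarith
    · change _ ≤ ⟪n 1, x⟫
      linarith
  · intro i
    change TriArea_e n hli x i ≤ |M 0| + |M 1| + |M 2|
    rw [TriArea_e_apply]
    fin_cases i
    · change ⟪n 0, x⟫ ≤ _
      linarith
    · change ⟪n 1, x⟫ ≤ _
      linarith

lemma TriArea_smul (n : Fin 3 → E) {S : ℝ} (hS : 0 < S) :
    TriS n (fun _ => S / 3) = S • TriS n (fun _ => 1 / 3) := by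
  ext x
  rw [mem_smul_set_iff_inv_smul_mem₀ hS.ne']
  unfold TriS
  simp only [mem_ofPred_eq, inner_smul_right]
  have h : ∀ a : ℝ, a ≤ S / 3 ↔ S⁻¹ * a ≤ 1 / 3 := by
    intro a
    rw [inv_mul_le_iff₀ hS]
    constructor <;> intro h <;> linarith
  exact forall_congr' fun i => h _

lemma TriArea_zero (n : Fin 3 → E) (hn : ∑ i, n i = 0)
    (hli : LinearIndependent ℝ ![n 0, n 1]) : TriS n (fun _ => (0 : ℝ) / 3) = {0} := by
  ext x
  rw [mem_singleton_iff]
  constructor
  · intro hx
    have h2 := TriArea_sum n hn x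
    have m0 := hx 0
    have m1 := hx 1
    have m2 := hx 2
    simp only [zero_div] at m0 m1 m2
    apply (TriArea_e n hli).injective
    rw [map_zero]
    ext i
    rw [TriArea_e_apply]
    fin_cases i
    · change ⟪n 0, x⟫ = 0
      linarith
    · change ⟪n 1, x⟫ = 0
      linarith
  · rintro rfl i
    rw [inner_zero_right, zero_div]

/-- Area of triangles with given normals. Proof: all M with the same sum S ≥ 0 give translates
(`triS_exists_tr`, `triS_tr`) of TriS n (S/3, S/3, S/3), which for S > 0 is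
S • TriS n (1/3, 1/3, 1/3) and for S = 0 is {0} (⟪n i, x⟫ ≤ 0 for all i and the sum zero imply
⟪n i, x⟫ = 0, so x = 0). The set TriS n (1/3,1/3,1/3) is closed, bounded (|⟪n i, x⟫| ≤ 2/3 on it and
n 0, n 1 form a basis) and contains a ball about 0, so c = area of it is positive. Use
`area_smul`, `area_tr`. -/
theorem tri_area (n : Fin 3 → E) (hn : ∑ i, n i = 0)
    (hli : LinearIndependent ℝ ![n 0, n 1]) :
    ∃ c : ℝ, 0 < c ∧ ∀ M : Fin 3 → ℝ, 0 ≤ ∑ i, M i →
      Body (TriS n M) ∧ area (TriS n M) = c * (∑ i, M i) ^ 2 := by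
  refine ⟨area (TriS n (fun _ => 1 / 3)), ?_, fun M hM => ?_⟩
  · have hc := TriArea_compact n hn hli (fun _ => 1 / 3)
    unfold area
    refine ENNReal.toReal_pos ?_ (vol_lt_top hc).ne
    have hopen : IsOpen {x : E | ∀ i, ⟪n i, x⟫ < 1 / 3} := by
      have h1 : {x : E | ∀ i, ⟪n i, x⟫ < 1 / 3} = ⋂ i, {x : E | ⟪n i, x⟫ < 1 / 3} := by
        ext x
        simp
      rw [h1]
      exact isOpen_iInter_of_finite fun i => isOpen_lt (by fun_prop) continuous_const
    have h2 : 0 < volume {x : E | ∀ i, ⟪n i, x⟫ < 1 / 3} := by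
      refine hopen.measure_pos volume ⟨0, fun i => ?_⟩
      rw [inner_zero_right]
      norm_num
    exact (h2.trans_le (measure_mono fun x hx i => (hx i).le)).ne'
  · obtain ⟨p, hp⟩ := triS_exists_tr n hn hli M (fun _ => (∑ i, M i) / 3) (by
      rw [Finset.sum_const, Finset.card_univ, Fintype.card_fin, nsmul_eq_mul]
      push_cast
      ring)
    have hT : TriS n M = tr p (TriS n (fun _ => (∑ i, M i) / 3)) := by
      rw [← triS_tr]
      congr 1
      funext i
      exact hp i
    constructor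
    · refine ⟨TriArea_convex n M, TriArea_compact n hn hli M, ⟨p, fun i => ?_⟩⟩
      rw [hp i]
      linarith
    · rw [hT, area_tr]
      rcases hM.eq_or_lt with h | h
      · rw [← h, TriArea_zero n hn hli, area_singleton]
        ring
      · rw [TriArea_smul n h, area_smul]
        ring

end FB88
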