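import Pool.Agent.W_fa9b59_h88.Basic

set_option autoImplicit false

open MeasureTheory Metric Set
open scoped Pointwise RealInnerProductSpace

namespace FB88

variable {ι : Type} [Fintype ι]

lemma Phi_empty (w : ι → E) : Phi w (∅ : Set E) = 0 := by
  simp [Phi, hs_empty]

lemma hs_segment' (p q u : E) : hs (segment ℝ p q) u = max ⟪u, p⟫ ⟪u, q⟫ := by
  have h := hs_hull (Body.singleton p) (Body.singleton q) u
  rw [hs_singleton, hs_singleton] at h
  rw [← h]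
  congr 1
  rw [Set.singleton_union, convexHull_pair]

/-- Phi vanishes on segments: hs [p,q] a - hs [p,q] (-a) = max + min of ⟪a, p⟫, ⟪a, q⟫
= ⟪a, p + q⟫, and the w i sum to 0. -/
lemma Phi_segment (w : ι → E) (hw : ∑ i, w i = 0) (p q : E) : Phi w (segment ℝ p q) = 0 := by
  unfold Phi
  have h1 : ∀ i, hs (segment ℝ p q) (w i) - hs (segment ℝ p q) (-(w i)) = ⟪w i, p + q⟫ := by
    intro i
    rw [hs_segment', hs_segment', inner_neg_left, inner_neg_left, inner_add_right]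
    rcases le_total ⟪w i, p⟫ ⟪w i, q⟫ with h | h
    · rw [max_eq_right h, max_eq_left (by linarith)]
      ring
    · rw [max_eq_left h, max_eq_right (by linarith)]
      ring
  rw [Finset.sum_congr rfl fun i _ => h1 i, ← sum_inner, hw, inner_zero_left]

lemma eq_of_inner_J {f : E} (hf : f ≠ 0) {x y : E} (h1 : ⟪f, x⟫ = ⟪f, y⟫)
    (h2 : ⟪J f, x⟫ = ⟪J f, y⟫) : x = y := by
  simp only [PiLp.inner_apply, Fin.sum_univ_two, RCLike.inner_apply, conj_trivial, J] at h1 h2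
  have h3 : f 0 ≠ 0 ∨ f 1 ≠ 0 := by
    by_contra hcon
    push Not at hcon
    apply hf
    ext i
    fin_cases i
    · exact hcon.1
    · exact hcon.2
  have hpos : 0 < f 0 ^ 2 + f 1 ^ 2 := by
    rcases h3 with h | h
    · have := sq_pos_of_ne_zero h
      have := sq_nonneg (f 1)
      linarith
    · have := sq_pos_of_ne_zero h
      have := sq_nonneg (f 0)
      linarith
  have h2' : x 0 * -f 1 + x 1 * f 0 = y 0 * -f 1 + y 1 * f 0 := by
    simpa using h2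
  have h1' : x 0 * f 0 + x 1 * f 1 = y 0 * f 0 + y 1 * f 1 := by
    simpa using h1
  have e0 : (f 0 ^ 2 + f 1 ^ 2) * (x 0 - y 0) = 0 := by linear_combination f 0 * h1' - f 1 * h2'
  have e1 : (f 0 ^ 2 + f 1 ^ 2) * (x 1 - y 1) = 0 := by linear_combination f 1 * h1' + f 0 * h2'
  have e0' : x 0 - y 0 = 0 := by
    rcases mul_eq_zero.1 e0 with h | h
    · exact absurd h hpos.ne'
    · exact h
  have e1' : x 1 - y 1 = 0 := by
    rcases mul_eq_zero.1 e1 with h | h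
    · exact absurd h hpos.ne'
    · exact h
  ext i
  fin_cases i
  · exact sub_eq_zero.1 e0'
  · exact sub_eq_zero.1 e1'

/-- a compact convex nonempty subset of a line {⟪f, x⟫ = c}, f ≠ 0, is a segment -/
lemma eq_segment_of_line {C : Set E} (hC : Body C) {f : E} (hf : f ≠ 0) {c : ℝ}
    (h : ∀ x ∈ C, ⟪f, x⟫ = c) : ∃ p q, C = segment ℝ p q := by
  obtain ⟨q, hq, hqe⟩ := exists_hs hC.2.1 hC.2.2 (J f)
  obtain ⟨p, hp, hpe⟩ := exists_hs hC.2.1 hC.2.2 (-(J f))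
  refine ⟨p, q, Subset.antisymm ?_ (hC.1.segment_subset hp hq)⟩
  intro x hx
  have h1 := le_hs hC.2.1 hx (J f)
  have h2 := le_hs hC.2.1 hx (-(J f))
  rw [← hqe] at h1
  rw [← hpe, inner_neg_left, inner_neg_left] at h2
  rcases eq_or_lt_of_le (show ⟪J f, p⟫ ≤ ⟪J f, q⟫ by linarith) with he | hlt
  · have : x = p := by
      apply eq_of_inner_J hf
      · rw [h x hx, h p hp]
      · apply le_antisymm
        · linarith
        · linarith
    rw [this]
    exact left_mem_segment ℝ p q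
  · rw [segment_eq_image]
    have hd : 0 < ⟪J f, q⟫ - ⟪J f, p⟫ := by linarith
    refine ⟨(⟪J f, x⟫ - ⟪J f, p⟫) / (⟪J f, q⟫ - ⟪J f, p⟫), ⟨?_, ?_⟩, ?_⟩
    · exact div_nonneg (by linarith) hd.le
    · rw [div_le_one hd]
      linarith
    · apply eq_of_inner_J hf
      · rw [inner_add_right, inner_smul_right, inner_smul_right, h x hx, h p hp, h q hq]
        ring
      · rw [inner_add_right, inner_smul_right, inner_smul_right]
        field_simp
        ring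

/-- a compact convex set with empty interior is empty or a segment
(`Convex.interior_nonempty_iff_affineSpan_eq_top`: its affine span is not everything, so it lies
in a line {⟪f, x⟫ = c}, f ≠ 0) -/
theorem phi_flat (w : ι → E) (hw : ∑ i, w i = 0) {C : Set E} (hC : Convex ℝ C)
    (hCc : IsCompact C) (hi : interior C = ∅) : Phi w C = 0 := by
  rcases C.eq_empty_or_nonempty with h0 | h0
  · rw [h0, Phi_empty]
  have h1 : affineSpan ℝ C ≠ ⊤ := by
    intro h
    have := (hC.interior_nonempty_iff_affineSpan_eq_top).2 h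
    rw [hi] at this
    exact Set.not_nonempty_empty this
  have h2 : vectorSpan ℝ C ≠ ⊤ := fun h => h1
    ((AffineSubspace.affineSpan_eq_top_iff_vectorSpan_eq_top_of_nonempty ℝ E E h0).2 h)
  have h3 : (vectorSpan ℝ C)ᗮ ≠ ⊥ := fun h => h2 (Submodule.orthogonal_eq_bot_iff.1 h)
  obtain ⟨f, hfm, hf⟩ := Submodule.exists_mem_ne_zero_of_ne_bot h3
  obtain ⟨x0, hx0⟩ := h0
  have h4 : ∀ x ∈ C, ⟪f, x⟫ = ⟪f, x0⟫ := by
    intro x hx
    have h5 : x - x0 ∈ vectorSpan ℝ C := vsub_mem_vectorSpan ℝ hx hx0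
    have h6 := (Submodule.mem_orthogonal' _ _).1 hfm _ h5
    rw [inner_sub_right] at h6
    linarith
  obtain ⟨p, q, hpq⟩ := eq_segment_of_line ⟨hC, hCc, ⟨x0, hx0⟩⟩ hf h4
  rw [hpq]
  exact Phi_segment w hw p q

/-- Phi is a simple valuation. If one of the two parts is empty: trivial (`Phi_empty`). Otherwise
let D = C ∩ {⟪f, x⟫ = c}, nonempty; for every u
hs (C ∩ {≤}) u + hs (C ∩ {≥}) u = hs C u + hs D u
(max of the two is hs C u; the min is at most hs D u because the segment between maximizers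
crosses the line, and at least hs D u by inclusion), and Phi w D = 0 by `eq_segment_of_line`,
`Phi_segment`. -/
theorem phi_cut (w : ι → E) (hw : ∑ i, w i = 0) {C : Set E} (hC : Convex ℝ C)
    (hCc : IsCompact C) {f : E} (hf : f ≠ 0) (c : ℝ) :
    Phi w C = Phi w (C ∩ {x | ⟪f, x⟫ ≤ c}) + Phi w (C ∩ {x | c ≤ ⟪f, x⟫}) := by
  have hcont : Continuous fun x : E => ⟪f, x⟫ := by fun_prop
  have hlin : IsLinearMap ℝ fun x : E => ⟪f, x⟫ := (innerSL ℝ f).isLinear
  rcases (C ∩ {x | ⟪f, x⟫ ≤ c}).eq_empty_or_nonempty with hA | hA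
  · have hB : C ∩ {x | c ≤ ⟪f, x⟫} = C := by
      refine inter_eq_left.2 fun x hx => ?_
      by_contra hx2
      have hx4 : ⟪f, x⟫ < c := not_le.1 hx2
      have hx3 : x ∈ C ∩ {x | ⟪f, x⟫ ≤ c} := ⟨hx, hx4.le⟩
      rw [hA] at hx3
      exact hx3
    rw [hA, hB, Phi_empty, zero_add]
  rcases (C ∩ {x | c ≤ ⟪f, x⟫}).eq_empty_or_nonempty with hB | hB
  · have hA' : C ∩ {x | ⟪f, x⟫ ≤ c} = C := by
      refine inter_eq_left.2 fun x hx => ?_
      by_contra hx2
      have hx4 : c < ⟪f, x⟫ := not_le.1 hx2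
      have hx3 : x ∈ C ∩ {x | c ≤ ⟪f, x⟫} := ⟨hx, hx4.le⟩
      rw [hB] at hx3
      exact hx3
    rw [hA', hB, Phi_empty, add_zero]
  have hAc : IsCompact (C ∩ {x | ⟪f, x⟫ ≤ c}) :=
    hCc.inter_right (isClosed_le hcont continuous_const)
  have hBc : IsCompact (C ∩ {x | c ≤ ⟪f, x⟫}) :=
    hCc.inter_right (isClosed_le continuous_const hcont)
  have hAv : Convex ℝ (C ∩ {x | ⟪f, x⟫ ≤ c}) := hC.inter (convex_halfSpace_le hlin c)
  have hBv : Convex ℝ (C ∩ {x | c ≤ ⟪f, x⟫}) := hC.inter (convex_halfSpace_ge hlin c)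
  have hDc : IsCompact (C ∩ {x | ⟪f, x⟫ = c}) :=
    hCc.inter_right (isClosed_eq hcont continuous_const)
  have hDv : Convex ℝ (C ∩ {x | ⟪f, x⟫ = c}) := hC.inter (convex_hyperplane hlin c)
  have hcross : ∀ a ∈ C ∩ {x | ⟪f, x⟫ ≤ c}, ∀ b ∈ C ∩ {x | c ≤ ⟪f, x⟫},
      ∃ d ∈ C ∩ {x | ⟪f, x⟫ = c}, ∃ t : ℝ, 0 ≤ t ∧ t ≤ 1 ∧ d = (1 - t) • a + t • b := by
    rintro a ⟨ha, ha2⟩ b ⟨hb, hb2⟩
    simp only [mem_ofPred_eq] at ha2 hb2
    rcases eq_or_lt_of_le (ha2.trans hb2) with he | hlt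
    · refine ⟨a, ⟨ha, le_antisymm ha2 (hb2.trans he.symm.le)⟩, 0, le_rfl, zero_le_one, by simp⟩
    · have hd : 0 < ⟪f, b⟫ - ⟪f, a⟫ := by linarith
      have ht0 : 0 ≤ (c - ⟪f, a⟫) / (⟪f, b⟫ - ⟪f, a⟫) := div_nonneg (by linarith) hd.le
      have ht1 : (c - ⟪f, a⟫) / (⟪f, b⟫ - ⟪f, a⟫) ≤ 1 := by
        rw [div_le_one hd]
        linarith
      refine ⟨_, ⟨hC ha hb (sub_nonneg.2 ht1) ht0 (by ring), ?_⟩, _, ht0, ht1, rfl⟩
      simp only [mem_ofPred_eq, inner_add_right, inner_smul_right]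
      field_simp
      ring
  have hD : (C ∩ {x | ⟪f, x⟫ = c}).Nonempty := by
    obtain ⟨a, ha⟩ := hA
    obtain ⟨b, hb⟩ := hB
    obtain ⟨d, hd, -⟩ := hcross a ha b hb
    exact ⟨d, hd⟩
  have hCn : C.Nonempty := hA.mono inter_subset_left
  have key : ∀ u : E, hs (C ∩ {x | ⟪f, x⟫ ≤ c}) u + hs (C ∩ {x | c ≤ ⟪f, x⟫}) u =
      hs C u + hs (C ∩ {x | ⟪f, x⟫ = c}) u := by
    intro u
    have m1 : max (hs (C ∩ {x | ⟪f, x⟫ ≤ c}) u) (hs (C ∩ {x | c ≤ ⟪f, x⟫}) u) = hs C u := by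
      apply le_antisymm
      · exact max_le (hs_mono inter_subset_left hA hCc u) (hs_mono inter_subset_left hB hCc u)
      · refine hs_le hCn fun x hx => ?_
        rcases le_total ⟪f, x⟫ c with h | h
        · exact (le_hs hAc ⟨hx, h⟩ u).trans (le_max_left _ _)
        · exact (le_hs hBc ⟨hx, h⟩ u).trans (le_max_right _ _)
    have m2 : min (hs (C ∩ {x | ⟪f, x⟫ ≤ c}) u) (hs (C ∩ {x | c ≤ ⟪f, x⟫}) u) =
        hs (C ∩ {x | ⟪f, x⟫ = c}) u := by
      apply le_antisymm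
      · obtain ⟨a, ha, hae⟩ := exists_hs hAc hA u
        obtain ⟨b, hb, hbe⟩ := exists_hs hBc hB u
        obtain ⟨d, hd, t, ht0, ht1, hdt⟩ := hcross a ha b hb
        refine le_trans ?_ (le_hs hDc hd u)
        rw [hdt, inner_add_right, inner_smul_right, inner_smul_right, ← hae, ← hbe]
        rcases le_total ⟪u, a⟫ ⟪u, b⟫ with h | h
        · rw [min_eq_left h]
          nlinarith [mul_le_mul_of_nonneg_left h ht0]
        · rw [min_eq_right h]
          nlinarith [mul_le_mul_of_nonneg_left h (sub_nonneg.2 ht1)]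
      · refine le_min (hs_mono ?_ hD hAc u) (hs_mono ?_ hD hBc u)
        · exact fun x hx => ⟨hx.1, (le_of_eq hx.2 : ⟪f, x⟫ ≤ c)⟩
        · exact fun x hx => ⟨hx.1, (ge_of_eq hx.2 : c ≤ ⟪f, x⟫)⟩
    rw [← m1, ← m2, max_add_min]
  have hPD : Phi w (C ∩ {x | ⟪f, x⟫ = c}) = 0 := by
    obtain ⟨p, q, hpq⟩ := eq_segment_of_line ⟨hDv, hDc, hD⟩ hf (c := c) fun x hx => hx.2
    rw [hpq]
    exact Phi_segment w hw p q
  have hsum : Phi w (C ∩ {x | ⟪f, x⟫ ≤ c}) + Phi w (C ∩ {x | c ≤ ⟪f, x⟫}) =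
      Phi w C + Phi w (C ∩ {x | ⟪f, x⟫ = c}) := by
    unfold Phi
    rw [← Finset.sum_add_distrib, ← Finset.sum_add_distrib]
    refine Finset.sum_congr rfl fun i _ => ?_
    have k1 := key (w i)
    have k2 := key (-(w i))
    linarith
  rw [hsum, hPD, add_zero]

end FB88
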